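import Pool.Agent.LKCNF.Prob

set_option autoImplicit false

/-
Dense clusters of a linear hypergraph: a minimal dense cluster is determined by few clauses
(generators) and clauses that meet the generators in two points.
-/

namespace Pool.Agent.LKCNF

open Finset

/-- a random subset of density `1/t`, together with the few exceptions, meets every `N D` twice -/
theorem genset {α : Type} [Fintype α] [DecidableEq α] (X : Finset α) (N : α → Finset α)
    (m t : ℕ) (ht : 0 < t) (hm : 1 ≤ m) (hN : ∀ D ∈ X, (N D).card = m ∧ N D ⊆ X)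
    (hmt : (m : ℝ) * (1 - 1 / (t : ℝ)) ^ (m - 1) ≤ 1 / (t : ℝ)) :
    ∃ G ⊆ X, t * G.card ≤ 2 * X.card ∧ ∀ D ∈ X, D ∉ G → 2 ≤ (N D ∩ G).card := by
  classical
  set z : Fin t := ⟨0, ht⟩ with hz
  have htr : (0 : ℝ) < t := by exact_mod_cast ht
  let Z : (α → Fin t) → Finset α := fun ω => X.filter (fun D => ω D = z)
  let W : (α → Fin t) → Finset α := fun ω => X.filter (fun D => (N D ∩ Z ω).card ≤ 1)
  have hsum : (∑ ω : (α → Fin t), (((Z ω).card : ℝ) + (W ω).card)) /
      (t : ℝ) ^ (Fintype.card α) ≤ 2 * X.card / t := by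
    have h1 : ∀ ω : (α → Fin t), ((Z ω).card : ℝ) + (W ω).card =
        ∑ D ∈ X, ((if ω D = z then (1 : ℝ) else 0) +
          (if (N D ∩ Z ω).card ≤ 1 then (1 : ℝ) else 0)) := by
      intro ω
      rw [sum_add_distrib]
      congr 1
      · simp only [Z, card_filter]; push_cast; rfl
      · simp only [W, card_filter]; push_cast; rfl
    rw [sum_congr rfl (fun ω _ => h1 ω), sum_comm, sum_div]
    have h2 : ∀ D ∈ X, (∑ ω : (α → Fin t), ((if ω D = z then (1 : ℝ) else 0) +
          (if (N D ∩ Z ω).card ≤ 1 then (1 : ℝ) else 0))) / (t : ℝ) ^ (Fintype.card α) ≤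
        2 / t := by
      intro D hD
      rw [sum_add_distrib, add_div]
      have h3 : (∑ ω : (α → Fin t), (if ω D = z then (1 : ℝ) else 0)) /
          (t : ℝ) ^ (Fintype.card α) ≤ 1 / t := by
        have h4 := P_hit (α := α) ht {D} (fun _ => z)
        rw [card_singleton, pow_one] at h4
        unfold P at h4
        rw [← h4]
        apply le_of_eq
        congr 1
        rw [card_filter]
        push_cast
        apply sum_congr rfl
        intro ω _
        simp
      have h5 : (∑ ω : (α → Fin t), (if (N D ∩ Z ω).card ≤ 1 then (1 : ℝ) else 0)) /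
          (t : ℝ) ^ (Fintype.card α) ≤ 1 / t := by
        refine le_trans ?_ hmt
        have h6 : (univ.filter (fun ω : α → Fin t => (N D ∩ Z ω).card ≤ 1)) ⊆
            (N D).biUnion (fun j => univ.filter
              (fun ω : α → Fin t => ∀ x ∈ (N D).erase j, ω x ≠ z)) := by
          intro ω hω
          rw [mem_filter] at hω
          rw [mem_biUnion]
          have hcard := hω.2
          have hsub : ∀ x ∈ N D, ω x = z → x ∈ N D ∩ Z ω := by
            intro x hx hxz
            rw [mem_inter]
            refine ⟨hx, ?_⟩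
            simp only [Z, mem_filter]
            exact ⟨(hN D hD).2 hx, hxz⟩
          by_cases hemp : ∃ j, j ∈ N D ∩ Z ω
          · obtain ⟨j, hj⟩ := hemp
            refine ⟨j, (mem_inter.mp hj).1, ?_⟩
            rw [mem_filter]
            refine ⟨mem_univ _, ?_⟩
            intro x hx hxz
            rw [mem_erase] at hx
            have := card_le_one.mp hcard x (hsub x hx.2 hxz) j hj
            exact hx.1 this
          · have hne : (N D).Nonempty := by
              rw [← card_pos, (hN D hD).1]; omega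
            obtain ⟨j, hj⟩ := hne
            refine ⟨j, hj, ?_⟩
            rw [mem_filter]
            refine ⟨mem_univ _, ?_⟩
            intro x hx hxz
            rw [mem_erase] at hx
            exact hemp ⟨x, hsub x hx.2 hxz⟩
        have h7 : (∑ ω : (α → Fin t), (if (N D ∩ Z ω).card ≤ 1 then (1 : ℝ) else 0)) /
          (t : ℝ) ^ (Fintype.card α) =
            P (univ.filter (fun ω : α → Fin t => (N D ∩ Z ω).card ≤ 1)) := by
          unfold P
          congr 1
          rw [card_filter]
          push_cast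
          rfl
        rw [h7]
        refine (P_mono h6).trans ?_
        refine (P_biUnion _ _).trans ?_
        have h8 : ∀ j ∈ N D, P (univ.filter
              (fun ω : α → Fin t => ∀ x ∈ (N D).erase j, ω x ≠ z)) =
            (1 - 1 / (t : ℝ)) ^ (m - 1) := by
          intro j hj
          rw [P_avoid ht ((N D).erase j) (fun _ => z), card_erase_of_mem hj, (hN D hD).1]
        rw [sum_congr rfl h8, sum_const, (hN D hD).1, nsmul_eq_mul]
      calc _ ≤ 1 / (t : ℝ) + 1 / t := add_le_add h3 h5
        _ = 2 / t := by ring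
    refine (sum_le_sum h2).trans ?_
    rw [sum_const, nsmul_eq_mul]
    apply le_of_eq
    ring
  obtain ⟨ω, hω⟩ := exists_small ht _ _ hsum
  refine ⟨Z ω ∪ W ω, ?_, ?_, ?_⟩
  · apply union_subset
    · exact filter_subset _ _
    · exact filter_subset _ _
  · have h1 : ((Z ω ∪ W ω).card : ℝ) ≤ (Z ω).card + (W ω).card := by
      exact_mod_cast card_union_le _ _
    have h2 : (t : ℝ) * (Z ω ∪ W ω).card ≤ 2 * X.card := by
      have h3 : ((Z ω ∪ W ω).card : ℝ) ≤ 2 * X.card / t := h1.trans hω
      rw [le_div_iff₀ htr] at h3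
      linarith
    exact_mod_cast h2
  · intro D hD hDG
    rw [mem_union, not_or] at hDG
    have h1 : ¬ (N D ∩ Z ω).card ≤ 1 := by
      intro h
      apply hDG.2
      simp only [W, mem_filter]
      exact ⟨hD, h⟩
    have h2 : (N D ∩ Z ω).card ≤ (N D ∩ (Z ω ∪ W ω)).card := by
      apply card_le_card
      exact inter_subset_inter_left subset_union_left
    omega

theorem powcard {β : Type} [DecidableEq β] (X : Finset β) (m : ℕ) :
    (X.powerset.filter (fun A => A.card ≤ m)).card ≤ (X.card + 1) ^ m := by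
  induction m with
  | zero =>
    have : X.powerset.filter (fun A => A.card ≤ 0) ⊆ {∅} := by
      intro A hA
      rw [mem_filter] at hA
      rw [mem_singleton]
      exact card_eq_zero.mp (by omega)
    simpa using card_le_card this
  | succ m ih =>
    have hsub : X.powerset.filter (fun A => A.card ≤ m + 1) ⊆
        X.powerset.filter (fun A => A.card ≤ m) ∪
        X.biUnion (fun x => (X.powerset.filter (fun A => A.card ≤ m)).image (insert x)) := by
      intro A hA
      rw [mem_filter, mem_powerset] at hA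
      rw [mem_union]
      by_cases h : A.card ≤ m
      · left; rw [mem_filter, mem_powerset]; exact ⟨hA.1, h⟩
      · right
        have hne : A.Nonempty := by rw [← card_pos]; omega
        obtain ⟨x, hx⟩ := hne
        rw [mem_biUnion]
        refine ⟨x, hA.1 hx, ?_⟩
        rw [mem_image]
        refine ⟨A.erase x, ?_, insert_erase hx⟩
        rw [mem_filter, mem_powerset, card_erase_of_mem hx]
        exact ⟨(erase_subset _ _).trans hA.1, by omega⟩
    refine (card_le_card hsub).trans ((card_union_le _ _).trans ?_)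
    have h2 : (X.biUnion (fun x => (X.powerset.filter (fun A => A.card ≤ m)).image
        (insert x))).card ≤ X.card * (X.card + 1) ^ m := by
      refine card_biUnion_le.trans ?_
      rw [← smul_eq_mul, ← sum_const]
      apply sum_le_sum
      intro x _
      exact card_image_le.trans ih
    calc _ ≤ (X.card + 1) ^ m + X.card * (X.card + 1) ^ m := add_le_add ih h2
      _ = (X.card + 1) ^ (m + 1) := by ring

variable {V : Type} [DecidableEq V]

/-- the variables of a set of clauses -/
def vblS (D : Finset (Finset (V × Bool))) : Finset V := D.biUnion vbl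

theorem vblS_card_le {k : ℕ} {F : Finset (Finset (V × Bool))} (hk : IsKCNF k F)
    {D : Finset (Finset (V × Bool))} (hD : D ⊆ F) : (vblS D).card ≤ k * D.card := by
  unfold vblS
  refine card_biUnion_le.trans ?_
  rw [mul_comm, ← smul_eq_mul, ← sum_const]
  apply sum_le_sum
  intro C hC
  exact (hk C (hD hC)).2.le

/-- the clauses of `F` with at least two variables in `U` -/
def N2 (F : Finset (Finset (V × Bool))) (U : Finset V) : Finset (Finset (V × Bool)) :=
  F.filter (fun D => 2 ≤ (vbl D ∩ U).card)

theorem N2_card {F : Finset (Finset (V × Bool))} (hl : IsLinear F) (U : Finset V) :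
    (N2 F U).card ≤ U.card ^ 2 := by
  classical
  have hex : ∀ D ∈ N2 F U, ∃ p : V × V, p.1 ∈ vbl D ∩ U ∧ p.2 ∈ vbl D ∩ U ∧ p.1 ≠ p.2 := by
    intro D hD
    unfold N2 at hD
    rw [mem_filter] at hD
    obtain ⟨a, ha, b, hb, hab⟩ := one_lt_card.mp (by omega : 1 < (vbl D ∩ U).card)
    exact ⟨(a, b), ha, hb, hab⟩
  rcases (N2 F U).eq_empty_or_nonempty with hemp | hnon
  · rw [hemp, card_empty]; exact Nat.zero_le _
  obtain ⟨D0, hD0⟩ := hnon
  have : Nonempty (V × V) := ⟨(hex D0 hD0).choose⟩
  choose! f hf using hex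
  rw [sq, ← card_product]
  apply card_le_card_of_injOn f
  · intro D hD
    have h := hf D hD
    rw [mem_coe, mem_product]
    exact ⟨(mem_inter.mp h.1).2, (mem_inter.mp h.2.1).2⟩
  · intro D hD D' hD' heq
    have h := hf D hD
    have h' := hf D' hD'
    by_contra hne
    have hDF : D ∈ F := (mem_filter.mp (by unfold N2 at hD; exact hD)).1
    have hDF' : D' ∈ F := (mem_filter.mp (by unfold N2 at hD'; exact hD')).1
    have h1 := hl D hDF D' hDF' hne
    have h2 : 1 < (vbl D ∩ vbl D').card := by
      rw [one_lt_card]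
      refine ⟨(f D).1, ?_, (f D).2, ?_, h.2.2⟩
      · rw [mem_inter]
        refine ⟨(mem_inter.mp h.1).1, ?_⟩
        rw [heq]
        exact (mem_inter.mp h'.1).1
      · rw [mem_inter]
        refine ⟨(mem_inter.mp h.2.1).1, ?_⟩
        rw [heq]
        exact (mem_inter.mp h'.2.1).1
    omega

/-- the clusters of `s` clauses with few generators -/
noncomputable def Fam (F : Finset (Finset (V × Bool))) (t s : ℕ) :
    Finset (Finset (Finset (V × Bool))) := by
  classical
  exact F.powerset.filter (fun D => D.card = s ∧ ∃ G, G ⊆ D ∧ t * G.card ≤ 2 * D.card ∧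
    ∀ C ∈ D, C ∉ G → 2 ≤ (vbl C ∩ vblS G).card)

theorem mem_Fam (F : Finset (Finset (V × Bool))) (t s : ℕ) (D : Finset (Finset (V × Bool))) :
    D ∈ Fam F t s ↔ D ⊆ F ∧ D.card = s ∧ ∃ G, G ⊆ D ∧ t * G.card ≤ 2 * D.card ∧
    ∀ C ∈ D, C ∉ G → 2 ≤ (vbl C ∩ vblS G).card := by
  classical
  unfold Fam
  rw [mem_filter, mem_powerset]

theorem Fam_card {k : ℕ} {F : Finset (Finset (V × Bool))} (hk : IsKCNF k F) (hl : IsLinear F)
    (hk1 : 1 ≤ k) (t s : ℕ) (ht : 3 ≤ t) (hs : 1 ≤ s) :
    (Fam F t s).card ≤ (F.card + 1) ^ (2 * s / t) * (k * s) ^ (2 * s) := by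
  classical
  have hsub : Fam F t s ⊆ (F.powerset.filter (fun A => A.card ≤ 2 * s / t)).biUnion
      (fun G => ((N2 F (vblS G)).powerset.filter (fun A => A.card ≤ s)).image
        (fun H => G ∪ H)) := by
    intro D hD
    rw [mem_Fam] at hD
    obtain ⟨hDF, hDs, G, hGD, hGt, hG⟩ := hD
    rw [mem_biUnion]
    refine ⟨G, ?_, ?_⟩
    · rw [mem_filter, mem_powerset]
      refine ⟨hGD.trans hDF, ?_⟩
      rw [Nat.le_div_iff_mul_le (by omega), mul_comm, ← hDs]
      exact hGt
    · rw [mem_image]
      refine ⟨D \ G, ?_, union_sdiff_of_subset hGD⟩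
      rw [mem_filter, mem_powerset]
      constructor
      · intro C hC
        rw [mem_sdiff] at hC
        unfold N2
        rw [mem_filter]
        exact ⟨hDF hC.1, hG C hC.1 hC.2⟩
      · rw [← hDs]
        exact card_le_card sdiff_subset
  refine (card_le_card hsub).trans (card_biUnion_le.trans ?_)
  have h1 : ∀ G ∈ F.powerset.filter (fun A => A.card ≤ 2 * s / t),
      (((N2 F (vblS G)).powerset.filter (fun A => A.card ≤ s)).image (fun H => G ∪ H)).card ≤
        (k * s) ^ (2 * s) := by
    intro G hG
    rw [mem_filter, mem_powerset] at hG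
    refine card_image_le.trans ((powcard _ _).trans ?_)
    have h2 : (N2 F (vblS G)).card + 1 ≤ (k * s) ^ 2 := by
      have h3 := N2_card hl (vblS G)
      have h4 := vblS_card_le hk hG.1
      have h5 : G.card + 1 ≤ s := by
        have h6 : 2 * s / t < s := by
          rw [Nat.div_lt_iff_lt_mul (by omega)]
          nlinarith
        omega
      have h7 : (vblS G).card + 1 ≤ k * s := by
        calc (vblS G).card + 1 ≤ k * G.card + k := by omega
          _ = k * (G.card + 1) := by ring
          _ ≤ k * s := Nat.mul_le_mul_left k h5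
      calc (N2 F (vblS G)).card + 1 ≤ (vblS G).card ^ 2 + 1 := by omega
        _ ≤ ((vblS G).card + 1) ^ 2 := by nlinarith
        _ ≤ (k * s) ^ 2 := Nat.pow_le_pow_left h7 2
    calc ((N2 F (vblS G)).card + 1) ^ s ≤ ((k * s) ^ 2) ^ s := Nat.pow_le_pow_left h2 s
      _ = (k * s) ^ (2 * s) := by rw [← pow_mul]
  refine (sum_le_sum h1).trans ?_
  rw [sum_const, smul_eq_mul]
  exact Nat.mul_le_mul_right _ (powcard F _)

/-- the variables of `C` that lie in another clause of `D` -/
def shared (D : Finset (Finset (V × Bool))) (C : Finset (V × Bool)) : Finset V :=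
  (vbl C).filter (fun x => ∃ C' ∈ D, C' ≠ C ∧ x ∈ vbl C')

theorem shared_card (D : Finset (Finset (V × Bool))) (C : Finset (V × Bool)) (hC : C ∈ D) :
    (vblS D).card + (shared D C).card = (vblS (D.erase C)).card + (vbl C).card := by
  classical
  have h1 : vblS D = vblS (D.erase C) ∪ vbl C := by
    unfold vblS
    ext x
    simp only [mem_biUnion, mem_union, mem_erase]
    constructor
    · rintro ⟨A, hA, hx⟩
      by_cases h : A = C
      · right; rw [← h]; exact hx
      · left; exact ⟨A, ⟨h, hA⟩, hx⟩
    · rintro (⟨A, ⟨_, hA⟩, hx⟩ | hx)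
      · exact ⟨A, hA, hx⟩
      · exact ⟨C, hC, hx⟩
  have h2 : shared D C = vblS (D.erase C) ∩ vbl C := by
    unfold shared vblS
    ext x
    simp only [mem_filter, mem_inter, mem_biUnion, mem_erase]
    constructor
    · rintro ⟨hx, A, hA, hne, hxA⟩
      exact ⟨⟨A, ⟨hne, hA⟩, hxA⟩, hx⟩
    · rintro ⟨⟨A, ⟨hne, hA⟩, hxA⟩, hx⟩
      exact ⟨hx, A, hA, hne, hxA⟩
  rw [h1, h2]
  exact card_union_add_card_inter _ _

/-- a set of clauses that spans few variables -/
def Dense (k : ℕ) (D : Finset (Finset (V × Bool))) : Prop :=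
  D.Nonempty ∧ 8 * (vblS D).card ≤ 7 * (k * D.card)

theorem exists_min (k : ℕ) (D : Finset (Finset (V × Bool))) (hD : Dense k D) :
    ∃ D' ⊆ D, Dense k D' ∧ ∀ C ∈ D', ¬ Dense k (D'.erase C) := by
  classical
  induction hn : D.card using Nat.strong_induction_on generalizing D with
  | _ n ih =>
    by_cases h : ∀ C ∈ D, ¬ Dense k (D.erase C)
    · exact ⟨D, Subset.refl _, hD, h⟩
    · push Not at h
      obtain ⟨C, hC, hd⟩ := h
      have hlt : (D.erase C).card < n := by rw [← hn]; exact card_erase_lt_of_mem hC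
      obtain ⟨D', hD', h1, h2⟩ := ih _ hlt (D.erase C) hd rfl
      exact ⟨D', hD'.trans (erase_subset _ _), h1, h2⟩

/-- a dense cluster contains a dense cluster of the family `Fam` that spans many variables -/
theorem dense_fam {k : ℕ} {F : Finset (Finset (V × Bool))} [Fintype V] (hk : IsKCNF k F)
    (hl : IsLinear F) (hk1 : 1 ≤ k) (t : ℕ) (ht : 0 < t)
    (hmt : ((k / 8 + 1 : ℕ) : ℝ) * (1 - 1 / (t : ℝ)) ^ (k / 8) ≤ 1 / (t : ℝ))
    (D : Finset (Finset (V × Bool))) (hDF : D ⊆ F) (hD : Dense k D) :
    ∃ D' ⊆ D, D' ∈ Fam F t D'.card ∧ 2 ≤ D'.card ∧ 7 * (k * D'.card) ≤ 16 * (vblS D').card := by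
  classical
  obtain ⟨E, hED, hE, hmin⟩ := exists_min k D hD
  have hEF : E ⊆ F := hED.trans hDF
  have hcard2 : 2 ≤ E.card := by
    by_contra hcon
    push Not at hcon
    have h1 : E.card = 1 := by
      have := card_pos.mpr hE.1
      omega
    obtain ⟨C, hC⟩ := card_eq_one.mp h1
    have h2 := hE.2
    rw [h1, hC] at h2
    have h3 : vblS ({C} : Finset (Finset (V × Bool))) = vbl C := by
      unfold vblS; rw [singleton_biUnion]
    have h4 : C ∈ F := hEF (by rw [hC]; exact mem_singleton_self C)
    rw [h3, (hk C h4).2] at h2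
    omega
  have herase : ∀ C ∈ E, 7 * (k * (E.card - 1)) < 8 * (vblS (E.erase C)).card := by
    intro C hC
    have h1 := hmin C hC
    unfold Dense at h1
    rw [not_and] at h1
    have h2 : (E.erase C).Nonempty := by
      rw [← card_pos, card_erase_of_mem hC]; omega
    have h3 := h1 h2
    rw [card_erase_of_mem hC] at h3
    omega
  have hshared : ∀ C ∈ E, k / 8 + 1 ≤ (shared E C).card := by
    intro C hC
    have h1 := shared_card E C hC
    have h2 := herase C hC
    have h3 := hE.2
    rw [(hk C (hEF hC)).2] at h1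
    have h4 : k * E.card = k * (E.card - 1) + k := by
      obtain ⟨m, hm⟩ : ∃ m, E.card = m + 1 := ⟨E.card - 1, by omega⟩
      rw [hm]; simp only [Nat.add_sub_cancel]; ring
    omega
  -- the neighbours
  have hnb : ∀ C ∈ E, ∃ f : V → Finset (V × Bool), ∀ x ∈ shared E C,
      f x ∈ E ∧ f x ≠ C ∧ x ∈ vbl (f x) := by
    intro C _
    have : ∀ x ∈ shared E C, ∃ C' , C' ∈ E ∧ C' ≠ C ∧ x ∈ vbl C' := by
      intro x hx
      unfold shared at hx
      rw [mem_filter] at hx
      obtain ⟨_, C', h1, h2, h3⟩ := hx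
      exact ⟨C', h1, h2, h3⟩
    choose! f hf using this
    exact ⟨f, hf⟩
  choose! f hf using hnb
  have hinj : ∀ C ∈ E, Set.InjOn (f C) (shared E C) := by
    intro C hC x hx y hy hxy
    by_contra hne
    have h1 := hf C hC x hx
    have h2 := hf C hC y hy
    have h3 := hl C (hEF hC) (f C x) (hEF h1.1) (Ne.symm h1.2.1)
    have h4 : 1 < (vbl C ∩ vbl (f C x)).card := by
      rw [one_lt_card]
      refine ⟨x, ?_, y, ?_, hne⟩
      · rw [mem_inter]
        refine ⟨?_, h1.2.2⟩
        unfold shared at hx
        exact (mem_filter.mp hx).1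
      · rw [mem_inter]
        refine ⟨?_, ?_⟩
        · unfold shared at hy
          exact (mem_filter.mp hy).1
        · rw [hxy]; exact h2.2.2
    omega
  have hT : ∀ C ∈ E, ∃ T ⊆ shared E C, T.card = k / 8 + 1 := by
    intro C hC
    exact exists_subset_card_eq (hshared C hC)
  choose! T hT using hT
  obtain ⟨G, hGE, hGt, hG⟩ := genset E (fun C => (T C).image (f C)) (k / 8 + 1) t ht (by omega)
    (by
      intro C hC
      constructor
      · rw [card_image_of_injOn, (hT C hC).2]
        exact (hinj C hC).mono (by exact_mod_cast (hT C hC).1)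
      · intro A hA
        rw [mem_image] at hA
        obtain ⟨x, hx, rfl⟩ := hA
        exact (hf C hC x ((hT C hC).1 hx)).1)
    (by simpa using hmt)
  refine ⟨E, hED, ?_, hcard2, ?_⟩
  · rw [mem_Fam]
    refine ⟨hEF, rfl, G, hGE, hGt, ?_⟩
    intro C hC hCG
    have h1 := hG C hC hCG
    obtain ⟨A, hA, B, hB, hAB⟩ := one_lt_card.mp (by omega : 1 < ((T C).image (f C) ∩ G).card)
    rw [mem_inter, mem_image] at hA hB
    obtain ⟨⟨x, hx, hxA⟩, hAG⟩ := hA
    obtain ⟨⟨y, hy, hyB⟩, hBG⟩ := hB
    have hxy : x ≠ y := by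
      intro h
      apply hAB
      rw [← hxA, ← hyB, h]
    have hxs := (hT C hC).1 hx
    have hys := (hT C hC).1 hy
    have h5 : 1 < (vbl C ∩ vblS G).card := by
      rw [one_lt_card]
      refine ⟨x, ?_, y, ?_, hxy⟩
      · rw [mem_inter]
        refine ⟨?_, ?_⟩
        · unfold shared at hxs
          exact (mem_filter.mp hxs).1
        · unfold vblS
          rw [mem_biUnion]
          exact ⟨A, hAG, by rw [← hxA]; exact (hf C hC x hxs).2.2⟩
      · rw [mem_inter]
        refine ⟨?_, ?_⟩
        · unfold shared at hys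
          exact (mem_filter.mp hys).1
        · unfold vblS
          rw [mem_biUnion]
          exact ⟨B, hBG, by rw [← hyB]; exact (hf C hC y hys).2.2⟩
    omega
  · obtain ⟨C, hC⟩ := hE.1
    have h1 := herase C hC
    have h2 : (vblS (E.erase C)).card ≤ (vblS E).card := by
      apply card_le_card
      unfold vblS
      exact biUnion_subset_biUnion_of_subset_left _ (erase_subset _ _)
    have h3 : k * E.card ≤ 2 * (k * (E.card - 1)) := by
      have h4 : E.card ≤ 2 * (E.card - 1) := by omega
      calc k * E.card ≤ k * (2 * (E.card - 1)) := Nat.mul_le_mul_left k h4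
        _ = 2 * (k * (E.card - 1)) := by ring
    omega

end Pool.Agent.LKCNF
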