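import Mathlib

set_option autoImplicit false

namespace Pool.Agent.LKCNF

/-- the set of variables of a clause (a literal is a pair `(x, b)`, true under `a` iff `a x = b`) -/
def vbl {V : Type} [DecidableEq V] (C : Finset (V × Bool)) : Finset V := C.image Prod.fst

/-- the assignment `a` satisfies the clause `C` -/
def SatC {V : Type} (a : V → Bool) (C : Finset (V × Bool)) : Prop := ∃ l ∈ C, a l.1 = l.2

/-- every clause of `F` consists of exactly `k` literals on `k` distinct variables -/
def IsKCNF {V : Type} [DecidableEq V] (k : ℕ) (F : Finset (Finset (V × Bool))) : Prop :=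
  ∀ C ∈ F, C.card = k ∧ (vbl C).card = k

/-- any two distinct clauses of `F` have at most one variable in common -/
def IsLinear {V : Type} [DecidableEq V] (F : Finset (Finset (V × Bool))) : Prop :=
  ∀ C ∈ F, ∀ D ∈ F, C ≠ D → (vbl C ∩ vbl D).card ≤ 1

/-- resolution derivations (general, dag-like) from `F`, as lists of clauses, the newest clause
first: a clause is a clause of `F`, or a weakening of an earlier clause, or the resolvent of two
earlier clauses -/
inductive Derivation {V : Type} [DecidableEq V] (F : Finset (Finset (V × Bool))) :
    List (Finset (V × Bool)) → Prop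
  | nil : Derivation F []
  | ax (L : List (Finset (V × Bool))) (C : Finset (V × Bool)) (hL : Derivation F L)
      (hC : C ∈ F) : Derivation F (C :: L)
  | weaken (L : List (Finset (V × Bool))) (A C : Finset (V × Bool)) (hL : Derivation F L)
      (hA : A ∈ L) (hAC : A ⊆ C) : Derivation F (C :: L)
  | resolve (L : List (Finset (V × Bool))) (A B : Finset (V × Bool)) (x : V)
      (hL : Derivation F L) (hA : A ∈ L) (hB : B ∈ L) (hxA : (x, true) ∈ A)
      (hxB : (x, false) ∈ B) :
      Derivation F ((A.erase (x, true) ∪ B.erase (x, false)) :: L)

/-- a resolution refutation of `F`: a derivation that contains the empty clause -/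
def IsRefutation {V : Type} [DecidableEq V] (F : Finset (Finset (V × Bool)))
    (L : List (Finset (V × Bool))) : Prop := Derivation F L ∧ ∅ ∈ L

end Pool.Agent.LKCNF
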