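import Pool.Agent.LKCNF.Defs

set_option autoImplicit false

namespace Pool.Agent.LKCNF

/-- the clause of `c = (c_1, …, c_k) ∈ K^k`: for each `i` it contains the variable
`(i, c with the i-th coordinate replaced by 0)`, with sign `ℓ_i (c_1 ⋯ c_k)` -/
def prodClause {K : Type} [Field K] [DecidableEq K] [Algebra (ZMod 2) K] {k : ℕ}
    (ℓ : Fin k → (K →ₗ[ZMod 2] ZMod 2)) (c : Fin k → K) :
    Finset ((Fin k × (Fin k → K)) × Bool) :=
  Finset.univ.image (fun i : Fin k =>
    ((i, Function.update c i 0), decide (ℓ i (∏ j, c j) = 1)))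

/-- the formula with one clause for each `c ∈ K^k` -/
def prodFormula {K : Type} [Field K] [Fintype K] [DecidableEq K] [Algebra (ZMod 2) K] {k : ℕ}
    (ℓ : Fin k → (K →ₗ[ZMod 2] ZMod 2)) : Finset (Finset ((Fin k × (Fin k → K)) × Bool)) :=
  Finset.univ.image (fun c : Fin k → K => prodClause ℓ c)

end Pool.Agent.LKCNF
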