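import Mathlib

set_option autoImplicit false
set_option linter.unusedSectionVars false

/-
The multiparty discrepancy of the product of field elements.
-/

namespace Pool.Agent.LKCNF

open Finset

/-- `A` does not depend on the coordinate `i` -/
def Blind {n : ℕ} {K : Type} (i : Fin n) (A : (Fin n → K) → ℝ) : Prop :=
  ∀ c c' : Fin n → K, (∀ j, j ≠ i → c j = c' j) → A c = A c'

section

variable {K : Type} [Field K] [Fintype K] [DecidableEq K]

theorem sum_cons {n : ℕ} (f : (Fin (n + 1) → K) → ℝ) :
    ∑ c, f c = ∑ c' : Fin n → K, ∑ x : K, f (Fin.cons x c') := by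
  rw [← (Fin.consEquiv (fun _ : Fin (n + 1) => K)).sum_comp, Fintype.sum_prod_type, sum_comm]
  rfl

variable (χ : K → ℝ) (hmul : ∀ u v, χ (u + v) = χ u * χ v) (hsq : ∀ u, χ u * χ u = 1)
  (h2 : ∀ x : K, x + x = 0) (hsum : ∀ a : K, a ≠ 0 → ∑ x, χ (a * x) = 0)

include hsq in
theorem chi_abs (u : K) : |χ u| = 1 := by
  have h := hsq u
  have h1 : |χ u| * |χ u| = 1 := by rw [← abs_mul, h, abs_one]
  have h2 := abs_nonneg (χ u)
  nlinarith

include hmul hsq h2 hsum in
theorem disc (μ : ℕ → ℝ) (hμ : ∀ j, 0 ≤ μ j) (n : ℕ)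
    (hrec : ∀ j < n, 1 / (Fintype.card K : ℝ) + μ j ≤ μ (j + 1) ^ 2) :
    ∀ a : K, a ≠ 0 → ∀ A : Fin (n + 1) → (Fin (n + 1) → K) → ℝ, (∀ i c, |A i c| ≤ 1) →
      (∀ i, Blind i (A i)) →
      |∑ c : Fin (n + 1) → K, χ (a * ∏ j, c j) * ∏ i, A i c| ≤
        μ n * (Fintype.card K : ℝ) ^ (n + 1) := by
  induction n with
  | zero =>
    intro a ha A hA hB
    have h1 : ∑ c : Fin (0 + 1) → K, χ (a * ∏ j, c j) * ∏ i, A i c = 0 := by
      rw [sum_cons]
      apply sum_eq_zero
      intro c' _
      have h3 : ∀ x : K, χ (a * ∏ j, (Fin.cons x c' : Fin (0 + 1) → K) j) *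
          ∏ i, A i (Fin.cons x c') = χ (a * x) * A 0 (Fin.cons 0 c') := by
        intro x
        have e1 : ∏ j : Fin (0 + 1), (Fin.cons x c' : Fin (0 + 1) → K) j = x := by
          rw [Fin.prod_univ_succ]
          simp
        have e2 : ∏ i : Fin (0 + 1), A i (Fin.cons x c') = A 0 (Fin.cons x c') := by
          rw [Fin.prod_univ_succ]
          simp
        rw [e1, e2]
        congr 1
        apply hB 0
        intro j hj
        exact absurd (Fin.ext (by have := j.isLt; simp only [Fin.val_zero]; omega)) hj
      rw [sum_congr rfl (fun x _ => h3 x), ← sum_mul, hsum a ha, zero_mul]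
    rw [h1, abs_zero]
    have := hμ 0
    positivity
  | succ n ih =>
    intro a ha A hA hB
    have ih' := ih (fun j hj => hrec j (by omega))
    set N : ℝ := (Fintype.card K : ℝ) with hN
    have hNpos : 0 < N := by
      rw [hN]
      exact_mod_cast Fintype.card_pos
    have hcard : ((Fintype.card (Fin (n + 1) → K) : ℕ) : ℝ) = N ^ (n + 1) := by
      rw [Fintype.card_fun, Fintype.card_fin]
      push_cast
      rfl
    let h : (Fin (n + 1) → K) → ℝ := fun c' =>
      ∑ x : K, χ (a * (x * ∏ j, c' j)) * ∏ i : Fin (n + 1), A i.succ (Fin.cons x c')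
    let g : (Fin (n + 1) → K) → ℝ := fun c' => A 0 (Fin.cons 0 c')
    have hS : ∑ c : Fin (n + 1 + 1) → K, χ (a * ∏ j, c j) * ∏ i, A i c = ∑ c', g c' * h c' := by
      rw [sum_cons]
      apply sum_congr rfl
      intro c' _
      simp only [h, mul_sum]
      apply sum_congr rfl
      intro x _
      have e1 : ∏ j : Fin (n + 1 + 1), (Fin.cons x c' : Fin (n + 1 + 1) → K) j =
          x * ∏ j, c' j := by
        rw [Fin.prod_univ_succ]
        simp
      have e2 : A 0 (Fin.cons x c') = g c' := by
        apply hB 0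
        intro j hj
        obtain ⟨j', rfl⟩ := Fin.exists_succ_eq.mpr hj
        rfl
      rw [e1, Fin.prod_univ_succ (fun i => A i (Fin.cons x c')), e2]
      ring
    have hg : ∑ c', g c' ^ 2 ≤ N ^ (n + 1) := by
      calc ∑ c', g c' ^ 2 ≤ ∑ _c' : Fin (n + 1) → K, (1 : ℝ) := by
            apply sum_le_sum
            intro c' _
            have h3 := hA 0 (Fin.cons 0 c')
            have h4 : |g c'| ≤ 1 := h3
            rw [← sq_abs]
            have h5 := abs_nonneg (g c')
            nlinarith
        _ = N ^ (n + 1) := by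
            rw [sum_const, card_univ, nsmul_eq_mul, mul_one, hcard]
    have hh : ∑ c', h c' ^ 2 ≤ N ^ (n + 1) * (N + N ^ 2 * μ n) := by
      have e3 : ∑ c', h c' ^ 2 = ∑ x : K, ∑ x' : K, ∑ c' : Fin (n + 1) → K,
          χ ((a * (x + x')) * ∏ j, c' j) *
            ∏ i : Fin (n + 1), (A i.succ (Fin.cons x c') * A i.succ (Fin.cons x' c')) := by
        have e4 : ∀ c' : Fin (n + 1) → K, h c' ^ 2 = ∑ x : K, ∑ x' : K,
            χ ((a * (x + x')) * ∏ j, c' j) *
            ∏ i : Fin (n + 1), (A i.succ (Fin.cons x c') * A i.succ (Fin.cons x' c')) := by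
          intro c'
          simp only [h, sq, sum_mul_sum]
          apply sum_congr rfl
          intro x _
          apply sum_congr rfl
          intro x' _
          rw [prod_mul_distrib]
          have e5 : (a * (x + x')) * ∏ j, c' j =
              a * (x * ∏ j, c' j) + a * (x' * ∏ j, c' j) := by ring
          rw [e5, hmul]
          ring
        rw [sum_congr rfl (fun c' _ => e4 c'), sum_comm]
        apply sum_congr rfl
        intro x _
        rw [sum_comm]
      rw [e3]
      have e6 : ∀ x x' : K, ∑ c' : Fin (n + 1) → K,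
          χ ((a * (x + x')) * ∏ j, c' j) *
            ∏ i : Fin (n + 1), (A i.succ (Fin.cons x c') * A i.succ (Fin.cons x' c')) ≤
          (if x = x' then N ^ (n + 1) else 0) + μ n * N ^ (n + 1) := by
        intro x x'
        have hb : ∀ (i : Fin (n + 1)) (c' : Fin (n + 1) → K),
            |A i.succ (Fin.cons x c') * A i.succ (Fin.cons x' c')| ≤ 1 := by
          intro i c'
          rw [abs_mul]
          exact mul_le_one₀ (hA _ _) (abs_nonneg _) (hA _ _)
        by_cases hx : x = x'
        · rw [if_pos hx]
          have h3 : ∑ c' : Fin (n + 1) → K,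
              χ ((a * (x + x')) * ∏ j, c' j) *
                ∏ i : Fin (n + 1), (A i.succ (Fin.cons x c') * A i.succ (Fin.cons x' c')) ≤
              N ^ (n + 1) := by
            calc _ ≤ ∑ _c' : Fin (n + 1) → K, (1 : ℝ) := by
                  apply sum_le_sum
                  intro c' _
                  refine (le_abs_self _).trans ?_
                  rw [abs_mul, chi_abs χ hsq, one_mul, abs_prod]
                  exact prod_le_one (fun i _ => abs_nonneg _) (fun i _ => hb i c')
              _ = N ^ (n + 1) := by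
                  rw [sum_const, card_univ, nsmul_eq_mul, mul_one, hcard]
          have h4 : 0 ≤ μ n * N ^ (n + 1) := mul_nonneg (hμ n) (by positivity)
          linarith
        · rw [if_neg hx, zero_add]
          have hne : a * (x + x') ≠ 0 := by
            apply mul_ne_zero ha
            intro h0
            apply hx
            have h3 : x = x' + (x + x') - (x' + x') := by ring
            rw [h3, h0, h2 x', add_zero, sub_zero]
          refine (le_abs_self _).trans ?_
          apply ih' (a * (x + x')) hne
            (fun i c' => A i.succ (Fin.cons x c') * A i.succ (Fin.cons x' c')) hb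
          intro i c c'' hcc
          have hc : ∀ y : K, A i.succ (Fin.cons y c) = A i.succ (Fin.cons y c'') := by
            intro y
            apply hB i.succ
            intro j hj
            rcases Fin.eq_zero_or_eq_succ j with rfl | ⟨j', rfl⟩
            · rfl
            · have h3 : j' ≠ i := fun h => hj (by rw [h])
              rw [Fin.cons_succ, Fin.cons_succ]
              exact hcc j' h3
          simp only [hc]
      calc _ ≤ ∑ x : K, ∑ x' : K, ((if x = x' then N ^ (n + 1) else 0) + μ n * N ^ (n + 1)) :=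
            sum_le_sum (fun x _ => sum_le_sum (fun x' _ => e6 x x'))
        _ = N ^ (n + 1) * (N + N ^ 2 * μ n) := by
            simp only [sum_add_distrib, sum_ite_eq, mem_univ, if_true, sum_const, card_univ,
              nsmul_eq_mul]
            rw [← hN]
            ring
    have hfin : (∑ c', g c' * h c') ^ 2 ≤ (μ (n + 1) * N ^ (n + 1 + 1)) ^ 2 := by
      have h3 := sum_mul_sq_le_sq_mul_sq univ g h
      have h4 : 0 ≤ ∑ c', h c' ^ 2 := sum_nonneg (fun c' _ => sq_nonneg _)
      have h5 := hrec n (by omega)
      have h6 : (N ^ (n + 1)) * (N ^ (n + 1) * (N + N ^ 2 * μ n)) =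
          (1 / N + μ n) * (N ^ (n + 1 + 1)) ^ 2 := by
        field_simp
        ring
      calc (∑ c', g c' * h c') ^ 2 ≤ (∑ c', g c' ^ 2) * ∑ c', h c' ^ 2 := h3
        _ ≤ N ^ (n + 1) * (N ^ (n + 1) * (N + N ^ 2 * μ n)) :=
            mul_le_mul hg hh h4 (by positivity)
        _ = (1 / N + μ n) * (N ^ (n + 1 + 1)) ^ 2 := h6
        _ ≤ μ (n + 1) ^ 2 * (N ^ (n + 1 + 1)) ^ 2 :=
            mul_le_mul_of_nonneg_right h5 (by positivity)
        _ = _ := by ring
    rw [hS]
    exact abs_le_of_sq_le_sq hfin (mul_nonneg (hμ _) (by positivity))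

end

end Pool.Agent.LKCNF
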