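import Pool.Agent.LKCNF.NOFDefs
import Pool.Agent.LKCNF.NOFDisc

set_option autoImplicit false
set_option linter.unusedSectionVars false

/-
The product formula is a linear k-CNF, and every assignment falsifies many clauses.
-/

namespace Pool.Agent.LKCNF

open Finset

variable {K : Type} [Field K] [Fintype K] [DecidableEq K] [Algebra (ZMod 2) K] {k : ℕ}
  (ℓ : Fin k → (K →ₗ[ZMod 2] ZMod 2))

theorem vbl_prodClause (c : Fin k → K) :
    vbl (prodClause ℓ c) = univ.image (fun i : Fin k => (i, Function.update c i 0)) := by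
  unfold vbl prodClause
  rw [image_image]
  rfl

theorem prodClause_card (c : Fin k → K) :
    (prodClause ℓ c).card = k ∧ (vbl (prodClause ℓ c)).card = k := by
  constructor
  · unfold prodClause
    rw [card_image_of_injective, card_univ, Fintype.card_fin]
    intro i j hij
    exact congrArg (fun z => z.1.1) hij
  · rw [vbl_prodClause, card_image_of_injective, card_univ, Fintype.card_fin]
    intro i j hij
    exact congrArg (fun z => z.1) hij

theorem upd_eq {c d : Fin k → K} {i : Fin k} (h : Function.update c i 0 = Function.update d i 0)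
    (t : Fin k) (ht : t ≠ i) : c t = d t := by
  have h1 := congrFun h t
  rw [Function.update_of_ne ht, Function.update_of_ne ht] at h1
  exact h1

/-- two distinct coordinates determine the index -/
theorem two_coord {c d : Fin k → K} {i j : Fin k} (hij : i ≠ j)
    (h1 : Function.update c i 0 = Function.update d i 0)
    (h2 : Function.update c j 0 = Function.update d j 0) : c = d := by
  funext t
  by_cases ht : t = i
  · apply upd_eq h2 t
    rw [ht]
    exact hij
  · exact upd_eq h1 t ht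

theorem prod_linear : IsLinear (prodFormula ℓ) := by
  intro C hC D hD hne
  unfold prodFormula at hC hD
  rw [mem_image] at hC hD
  obtain ⟨c, _, rfl⟩ := hC
  obtain ⟨d, _, rfl⟩ := hD
  have hcd : c ≠ d := fun h => hne (by rw [h])
  rw [card_le_one]
  intro x hx y hy
  rw [mem_inter, vbl_prodClause, vbl_prodClause, mem_image, mem_image] at hx hy
  obtain ⟨⟨i, _, hi⟩, ⟨i', _, hi'⟩⟩ := hx
  obtain ⟨⟨j, _, hj⟩, ⟨j', _, hj'⟩⟩ := hy
  rw [← hi] at hi'
  rw [← hj] at hj'
  have e1 : i' = i := congrArg Prod.fst hi'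
  have e2 : j' = j := congrArg Prod.fst hj'
  subst e1
  subst e2
  have e3 := congrArg Prod.snd hi'
  have e4 := congrArg Prod.snd hj'
  simp only at e3 e4
  by_cases hij : i' = j'
  · rw [← hi, ← hj, hij]
  · exact absurd (two_coord hij e3 e4).symm hcd

theorem prod_inj (hk : 2 ≤ k) : Function.Injective (fun c : Fin k → K => prodClause ℓ c) := by
  intro c d hcd
  have hv : vbl (prodClause ℓ c) = vbl (prodClause ℓ d) := congrArg vbl hcd
  have key : ∀ i : Fin k, Function.update c i 0 = Function.update d i 0 := by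
    intro i
    have h1 : (i, Function.update c i 0) ∈ vbl (prodClause ℓ d) := by
      rw [← hv, vbl_prodClause]
      exact mem_image_of_mem _ (mem_univ i)
    rw [vbl_prodClause, mem_image] at h1
    obtain ⟨j, _, hj⟩ := h1
    have e1 : j = i := congrArg Prod.fst hj
    subst e1
    exact (congrArg Prod.snd hj).symm
  exact two_coord (i := ⟨0, by omega⟩) (j := ⟨1, by omega⟩)
    (by intro h; exact absurd (congrArg Fin.val h) (by simp)) (key _) (key _)

/-! ### signs -/

/-- the sign of a bit -/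
def sgn (u : ZMod 2) : ℝ := if u = 1 then -1 else 1

theorem sgn_add (u v : ZMod 2) : sgn (u + v) = sgn u * sgn v := by
  have key : ∀ u : ZMod 2, u = 0 ∨ u = 1 := by decide
  have h11 : (1 + 1 : ZMod 2) = 0 := by decide
  rcases key u with rfl | rfl <;> rcases key v with rfl | rfl
  · rw [add_zero]; simp [sgn]
  · rw [zero_add]; simp [sgn]
  · rw [add_zero]; simp [sgn]
  · rw [h11]; simp [sgn]

theorem sgn_sq (u : ZMod 2) : sgn u * sgn u = 1 := by
  unfold sgn
  split_ifs <;> norm_num

theorem sgn_sum {ι : Type} [DecidableEq ι] (T : Finset ι) (f : ι → ZMod 2) :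
    sgn (∑ i ∈ T, f i) = ∏ i ∈ T, sgn (f i) := by
  induction T using Finset.induction_on with
  | empty => simp [sgn]
  | insert i T hi ih => rw [sum_insert hi, prod_insert hi, sgn_add, ih]

theorem char_two (x : K) : x + x = 0 := by
  have h : ((2 : ZMod 2) • x : K) = x + x := two_smul _ _
  have h0 : (2 : ZMod 2) = 0 := by decide
  rw [← h, h0, zero_smul]

theorem sgn_sum_zero (L : K →ₗ[ZMod 2] ZMod 2) (hL : L ≠ 0) (a : K) (ha : a ≠ 0) :
    ∑ x, sgn (L (a * x)) = 0 := by
  obtain ⟨z, hz⟩ : ∃ z, L z ≠ 0 := by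
    by_contra h
    push Not at h
    exact hL (LinearMap.ext h)
  have hz1 : L z = 1 := by
    have : ∀ u : ZMod 2, u ≠ 0 → u = 1 := by decide
    exact this _ hz
  have h1 : ∑ x, sgn (L (a * x)) = ∑ x, sgn (L (a * (x + a⁻¹ * z))) :=
    (Fintype.sum_equiv (Equiv.addRight (a⁻¹ * z)) (fun x => sgn (L (a * (x + a⁻¹ * z))))
      (fun x => sgn (L (a * x))) (fun _ => rfl)).symm
  have h2 : ∀ x, sgn (L (a * (x + a⁻¹ * z))) = -sgn (L (a * x)) := by
    intro x
    have e : a * (x + a⁻¹ * z) = a * x + z := by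
      rw [mul_add, ← mul_assoc, mul_inv_cancel₀ ha, one_mul]
    rw [e, map_add, sgn_add, hz1]
    simp [sgn]
  rw [sum_congr rfl (fun x _ => h2 x), sum_neg_distrib] at h1
  linarith

/-- the discrepancy bound for a set `T` of coordinates -/
theorem disc_T {n m : ℕ} (ℓ : Fin (n + 1) → (K →ₗ[ZMod 2] ZMod 2))
    (hK : Fintype.card K = 2 ^ m) (hm : (n + 1 + 2) * 2 ^ n ≤ m)
    (hℓ : LinearIndependent (ZMod 2) ℓ) (T : Finset (Fin (n + 1))) (hT : T.Nonempty)
    (A : Fin (n + 1) → (Fin (n + 1) → K) → ℝ) (hA : ∀ i c, |A i c| ≤ 1)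
    (hB : ∀ i, Blind i (A i)) :
    |∑ c : Fin (n + 1) → K, ∏ i ∈ T, (A i c * sgn (ℓ i (∏ j, c j)))| ≤
      (1 / 2) ^ (n + 1 + 1) * (Fintype.card K : ℝ) ^ (n + 1) := by
  classical
  let L : K →ₗ[ZMod 2] ZMod 2 := ∑ i ∈ T, ℓ i
  have hL : L ≠ 0 := by
    intro h
    rw [Fintype.linearIndependent_iff] at hℓ
    have h1 := hℓ (fun i => if i ∈ T then 1 else 0) (by
      have e : ∑ i, (if i ∈ T then (1 : ZMod 2) else 0) • ℓ i = L := by
        simp only [ite_smul, one_smul, zero_smul, sum_ite_mem, univ_inter, L]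
      rw [e, h])
    obtain ⟨i, hi⟩ := hT
    have h2 := h1 i
    simp only [hi, if_true] at h2
    exact one_ne_zero h2
  have e1 : ∀ c : Fin (n + 1) → K, ∏ i ∈ T, (A i c * sgn (ℓ i (∏ j, c j))) =
      sgn (L (1 * ∏ j, c j)) * ∏ i, (if i ∈ T then A i c else 1) := by
    intro c
    rw [prod_mul_distrib, ← sgn_sum, one_mul, mul_comm]
    congr 1
    · simp only [L, LinearMap.sum_apply]
    · rw [prod_ite_mem, univ_inter]
  rw [sum_congr rfl (fun c _ => e1 c)]
  have hx0 : (0 : ℝ) < (1 / 2) ^ (n + 1 + 2) := by positivity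
  have hx1 : ((1 / 2 : ℝ)) ^ (n + 1 + 2) ≤ 1 := pow_le_one₀ (by norm_num) (by norm_num)
  have h := disc (fun z => sgn (L z)) (fun u v => by rw [map_add, sgn_add])
    (fun u => sgn_sq _) (fun x => char_two x) (fun a ha => sgn_sum_zero L hL a ha)
    (fun j => 2 * ((1 / 2 : ℝ) ^ (n + 1 + 2)) ^ (2 ^ (n - j))) (fun j => by positivity) n
    (by
      intro j hj
      have e2 : 2 ^ (n - j) = 2 ^ (n - (j + 1)) * 2 := by
        rw [← pow_succ]
        congr 1
        omega
      have h3 : 1 / (Fintype.card K : ℝ) ≤ ((1 / 2 : ℝ) ^ (n + 1 + 2)) ^ (2 ^ (n - j)) := by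
        rw [hK]
        push_cast
        rw [← one_div_pow, ← pow_mul]
        apply pow_le_pow_of_le_one (by norm_num) (by norm_num)
        refine le_trans (Nat.mul_le_mul_left _ ?_) hm
        exact Nat.pow_le_pow_right (by norm_num) (by omega)
      have h4 : (2 * ((1 / 2 : ℝ) ^ (n + 1 + 2)) ^ (2 ^ (n - (j + 1)))) ^ 2 =
          4 * ((1 / 2 : ℝ) ^ (n + 1 + 2)) ^ (2 ^ (n - j)) := by
        rw [mul_pow, ← pow_mul, ← e2]
        norm_num
      rw [h4]
      have h5 : (0 : ℝ) ≤ ((1 / 2 : ℝ) ^ (n + 1 + 2)) ^ (2 ^ (n - j)) := by positivity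
      linarith)
    1 one_ne_zero (fun i c => if i ∈ T then A i c else 1)
    (by
      intro i c
      split_ifs
      · exact hA i c
      · rw [abs_one])
    (by
      intro i c c' hcc
      simp only
      split_ifs
      · exact hB i c c' hcc
      · rfl)
  refine h.trans (le_of_eq ?_)
  congr 1
  rw [Nat.sub_self, pow_zero, pow_one, pow_succ (1 / 2 : ℝ) (n + 1 + 1)]
  ring

/-- every assignment falsifies many clauses -/
theorem prod_falsified {n m : ℕ} (ℓ : Fin (n + 1) → (K →ₗ[ZMod 2] ZMod 2))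
    (hK : Fintype.card K = 2 ^ m) (hm : (n + 1 + 2) * 2 ^ n ≤ m)
    (hℓ : LinearIndependent (ZMod 2) ℓ) (a : Fin (n + 1) × (Fin (n + 1) → K) → Bool) :
    (Fintype.card K : ℝ) ^ (n + 1) ≤ 2 ^ (n + 1 + 1) *
      ((univ.filter (fun c : Fin (n + 1) → K => ∀ i, a (i, Function.update c i 0) ≠
        decide (ℓ i (∏ j, c j) = 1))).card : ℝ) := by
  classical
  set N : ℝ := (Fintype.card K : ℝ) with hN
  let A : Fin (n + 1) → (Fin (n + 1) → K) → ℝ := fun i c =>
    if a (i, Function.update c i 0) then 1 else -1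
  have hA : ∀ i c, |A i c| ≤ 1 := by
    intro i c
    simp only [A]
    split_ifs <;> norm_num
  have hB : ∀ i, Blind i (A i) := by
    intro i c c' hcc
    have e : Function.update c i 0 = Function.update c' i 0 := by
      funext t
      by_cases ht : t = i
      · subst ht
        simp
      · rw [Function.update_of_ne ht, Function.update_of_ne ht]
        exact hcc t ht
    simp only [A, e]
  -- the indicator of the falsified clauses
  have hind : ∀ c : Fin (n + 1) → K, ∏ i, (1 + A i c * sgn (ℓ i (∏ j, c j))) =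
      if ∀ i, a (i, Function.update c i 0) ≠ decide (ℓ i (∏ j, c j) = 1) then
        (2 : ℝ) ^ (n + 1) else 0 := by
    intro c
    have h1 : ∀ i, 1 + A i c * sgn (ℓ i (∏ j, c j)) =
        if a (i, Function.update c i 0) ≠ decide (ℓ i (∏ j, c j) = 1) then 2 else 0 := by
      intro i
      simp only [A, sgn]
      by_cases h2 : ℓ i (∏ j, c j) = 1
      · cases h3 : a (i, Function.update c i 0)
        · simp [h2]; norm_num
        · simp [h2]
      · cases h3 : a (i, Function.update c i 0)
        · simp [h2]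
        · simp [h2]; norm_num
    by_cases h : ∀ i, a (i, Function.update c i 0) ≠ decide (ℓ i (∏ j, c j) = 1)
    · rw [if_pos h, prod_congr rfl (fun i _ => (h1 i).trans (if_pos (h i))), prod_const,
        card_univ, Fintype.card_fin]
    · rw [if_neg h]
      push Not at h
      obtain ⟨i, hi⟩ := h
      apply prod_eq_zero (mem_univ i)
      rw [h1 i, if_neg (by simpa using hi)]
  have hsum : ∑ c : Fin (n + 1) → K, ∏ i, (1 + A i c * sgn (ℓ i (∏ j, c j))) =
      2 ^ (n + 1) * ((univ.filter (fun c : Fin (n + 1) → K =>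
        ∀ i, a (i, Function.update c i 0) ≠ decide (ℓ i (∏ j, c j) = 1))).card : ℝ) := by
    rw [sum_congr rfl (fun c _ => hind c), ← sum_filter, sum_const, nsmul_eq_mul, mul_comm]
  have hcard : ((Fintype.card (Fin (n + 1) → K) : ℕ) : ℝ) = N ^ (n + 1) := by
    rw [Fintype.card_fun, Fintype.card_fin]
    push_cast
    rfl
  have hexp : ∑ c : Fin (n + 1) → K, ∏ i, (1 + A i c * sgn (ℓ i (∏ j, c j))) =
      ∑ T ∈ (univ : Finset (Fin (n + 1))).powerset,
        ∑ c : Fin (n + 1) → K, ∏ i ∈ T, (A i c * sgn (ℓ i (∏ j, c j))) := by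
    rw [sum_comm]
    apply sum_congr rfl
    intro c _
    rw [prod_one_add]
  have hempty : (∅ : Finset (Fin (n + 1))) ∈ (univ : Finset (Fin (n + 1))).powerset := by simp
  have hmain : N ^ (n + 1) / 2 ≤ ∑ T ∈ (univ : Finset (Fin (n + 1))).powerset,
        ∑ c : Fin (n + 1) → K, ∏ i ∈ T, (A i c * sgn (ℓ i (∏ j, c j))) := by
    rw [← add_sum_erase _ _ hempty]
    have h1 : ∑ c : Fin (n + 1) → K, ∏ i ∈ (∅ : Finset (Fin (n + 1))),
        (A i c * sgn (ℓ i (∏ j, c j))) = N ^ (n + 1) := by
      simp only [prod_empty, sum_const, card_univ, nsmul_eq_mul, mul_one]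
      exact hcard
    have h2 : |∑ T ∈ (univ : Finset (Fin (n + 1))).powerset.erase ∅,
        ∑ c : Fin (n + 1) → K, ∏ i ∈ T, (A i c * sgn (ℓ i (∏ j, c j)))| ≤
        2 ^ (n + 1) * ((1 / 2) ^ (n + 1 + 1) * N ^ (n + 1)) := by
      refine (abs_sum_le_sum_abs _ _).trans ?_
      calc _ ≤ ∑ T ∈ (univ : Finset (Fin (n + 1))).powerset.erase ∅,
            ((1 / 2) ^ (n + 1 + 1) * N ^ (n + 1)) := by
            apply sum_le_sum
            intro T hT
            rw [mem_erase] at hT
            exact disc_T ℓ hK hm hℓ T (nonempty_iff_ne_empty.mpr hT.1) A hA hB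
        _ ≤ 2 ^ (n + 1) * ((1 / 2) ^ (n + 1 + 1) * N ^ (n + 1)) := by
            rw [sum_const, nsmul_eq_mul]
            apply mul_le_mul_of_nonneg_right _ (by positivity)
            have h3 : ((univ : Finset (Fin (n + 1))).powerset.erase ∅).card ≤ 2 ^ (n + 1) := by
              refine (card_erase_le).trans ?_
              rw [card_powerset, card_univ, Fintype.card_fin]
            exact_mod_cast h3
    have h3 : (2 : ℝ) ^ (n + 1) * ((1 / 2) ^ (n + 1 + 1) * N ^ (n + 1)) = N ^ (n + 1) / 2 := by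
      rw [pow_succ (1 / 2 : ℝ) (n + 1), one_div, inv_pow]
      field_simp
    rw [h3] at h2
    have h4 := (abs_le.mp h2).1
    rw [h1]
    linarith
  rw [← hexp, hsum] at hmain
  rw [pow_succ (2 : ℝ) (n + 1)]
  linarith

/-- the main theorem -/
theorem prod_main (k m : ℕ) (hk : 2 ≤ k) (hm : (k + 2) * 2 ^ (k - 1) ≤ m)
    (ℓ : Fin k → (K →ₗ[ZMod 2] ZMod 2)) (hK : Fintype.card K = 2 ^ m)
    (hℓ : LinearIndependent (ZMod 2) ℓ) :
    IsKCNF k (prodFormula ℓ) ∧ IsLinear (prodFormula ℓ) ∧ (prodFormula ℓ).card = 2 ^ (m * k) ∧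
      ∀ a : Fin k × (Fin k → K) → Bool, (prodFormula ℓ).card ≤
        2 ^ (k + 1) * {C | C ∈ prodFormula ℓ ∧ ¬ SatC a C}.ncard := by
  classical
  have hcard : (prodFormula ℓ).card = 2 ^ (m * k) := by
    unfold prodFormula
    rw [card_image_of_injective _ (prod_inj ℓ hk), card_univ, Fintype.card_fun,
      Fintype.card_fin, hK, ← pow_mul]
  refine ⟨?_, prod_linear ℓ, hcard, ?_⟩
  · intro C hC
    unfold prodFormula at hC
    rw [mem_image] at hC
    obtain ⟨c, _, rfl⟩ := hC
    exact prodClause_card ℓ c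
  · intro a
    have hGc : {C | C ∈ prodFormula ℓ ∧ ¬ SatC a C}.ncard =
        (univ.filter (fun c : Fin k → K => ∀ i,
        a (i, Function.update c i 0) ≠ decide (ℓ i (∏ j, c j) = 1))).card := by
      have e : {C | C ∈ prodFormula ℓ ∧ ¬ SatC a C} =
          (((univ.filter (fun c : Fin k → K => ∀ i,
            a (i, Function.update c i 0) ≠ decide (ℓ i (∏ j, c j) = 1))).image
          (fun c => prodClause ℓ c) : Finset _) : Set _) := by
        ext C
        rw [Set.mem_ofPred_eq, mem_coe, mem_image]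
        unfold prodFormula
        rw [mem_image]
        constructor
        · rintro ⟨⟨c, _, rfl⟩, hns⟩
          refine ⟨c, ?_, rfl⟩
          rw [mem_filter]
          refine ⟨mem_univ _, ?_⟩
          intro i hi
          apply hns
          refine ⟨((i, Function.update c i 0), decide (ℓ i (∏ j, c j) = 1)), ?_, hi⟩
          unfold prodClause
          exact mem_image_of_mem _ (mem_univ i)
        · rintro ⟨c, hc, rfl⟩
          refine ⟨⟨c, mem_univ _, rfl⟩, ?_⟩
          rintro ⟨l, hl, hla⟩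
          unfold prodClause at hl
          rw [mem_image] at hl
          obtain ⟨i, _, rfl⟩ := hl
          exact (mem_filter.mp hc).2 i hla
      rw [e, Set.ncard_coe_finset, card_image_of_injective _ (prod_inj ℓ hk)]
    obtain ⟨n, rfl⟩ : ∃ n, k = n + 1 := ⟨k - 1, by omega⟩
    rw [Nat.add_sub_cancel] at hm
    have h := prod_falsified ℓ hK hm hℓ a
    rw [hGc, hcard]
    have h2 : ((Fintype.card K : ℕ) : ℝ) ^ (n + 1) = ((2 ^ (m * (n + 1)) : ℕ) : ℝ) := by
      rw [hK, pow_mul]
      push_cast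
      rfl
    rw [h2] at h
    exact_mod_cast h

end Pool.Agent.LKCNF
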