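import Pool.Agent.LKCNF.Restr

set_option autoImplicit false

/-
The numerical conditions.
-/

namespace Pool.Agent.LKCNF

/-- `q = 2 ^ (4 c + 12)` -/
def qq (c : ℕ) : ℕ := 2 ^ (4 * c + 12)

/-- `t = 64 q (c + 1)` -/
def tt (c : ℕ) : ℕ := 64 * qq c * (c + 1)

/-- the threshold for `k` -/
def kk (c : ℕ) : ℕ := 32 * tt c ^ 3 + 8

/-- `R = 2 ^ ⌊k / (32 q)⌋` -/
def RR (c k : ℕ) : ℕ := 2 ^ (k / (32 * qq c))

theorem qq_pos (c : ℕ) : 4096 ≤ qq c := by
  unfold qq
  calc 4096 = 2 ^ 12 := by norm_num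
    _ ≤ 2 ^ (4 * c + 12) := Nat.pow_le_pow_right (by norm_num) (by omega)

theorem tt_ge (c : ℕ) : 64 * qq c ≤ tt c := by
  unfold tt
  exact Nat.le_mul_of_pos_right _ (by omega)

theorem kk_le (c k : ℕ) (h : 2 ^ (12 * c + 60) * (c + 1) ^ 3 ≤ k) : kk c ≤ k := by
  refine le_trans ?_ h
  unfold kk tt qq
  have h1 : 32 * (64 * 2 ^ (4 * c + 12) * (c + 1)) ^ 3 = 2 ^ (12 * c + 59) * (c + 1) ^ 3 := by
    have h2 : (64 * 2 ^ (4 * c + 12) * (c + 1)) ^ 3 = 2 ^ 18 * (2 ^ (4 * c + 12)) ^ 3 *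
        (c + 1) ^ 3 := by ring
    have h3 : (2 ^ (4 * c + 12)) ^ 3 = 2 ^ (12 * c + 36) := by rw [← pow_mul]; congr 1; ring
    have h4 : 2 ^ (12 * c + 59) = 2 ^ 23 * 2 ^ (12 * c + 36) := by rw [← pow_add]; congr 1; ring
    rw [h2, h3, h4]
    ring
  rw [h1]
  have h5 : 2 ^ (12 * c + 60) = 2 * 2 ^ (12 * c + 59) := by rw [pow_succ]; ring
  rw [h5, mul_assoc]
  have h6 : 8 ≤ 2 ^ (12 * c + 59) * (c + 1) ^ 3 := by
    have h7 : 2 ^ 3 ≤ 2 ^ (12 * c + 59) := Nat.pow_le_pow_right (by norm_num) (by omega)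
    have h8 : 1 ≤ (c + 1) ^ 3 := Nat.one_le_pow _ _ (by omega)
    nlinarith
  omega

attribute [irreducible] qq tt kk

theorem quad_le_exp (x : ℝ) (hx : 0 ≤ x) : x ^ 2 / 2 ≤ Real.exp x := by
  have := Real.quadratic_le_exp_of_nonneg hx
  linarith

theorem num_mt (c k : ℕ) (hk : kk c ≤ k) :
    ((k / 8 + 1 : ℕ) : ℝ) * (1 - 1 / (tt c : ℝ)) ^ (k / 8) ≤ 1 / (tt c : ℝ) := by
  have hq := qq_pos c
  have ht := tt_ge c
  have ht0 : 0 < tt c := by omega
  have htr : (1 : ℝ) ≤ tt c := by exact_mod_cast ht0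
  set t : ℝ := (tt c : ℝ) with htdef
  set n : ℕ := k / 8 with hn
  have hn4 : 4 * tt c ^ 3 ≤ n := by
    rw [hn, Nat.le_div_iff_mul_le (by norm_num)]
    unfold kk at hk
    omega
  have hnr : 4 * t ^ 3 ≤ (n : ℝ) := by rw [htdef]; exact_mod_cast hn4
  have hn0 : (1 : ℝ) ≤ n := by
    have : (1 : ℝ) ≤ t ^ 3 := one_le_pow₀ htr
    linarith
  have h1 := pow_le_exp (tt c) ht0 n
  have h2 : Real.exp (-(n : ℝ) / t) ≤ 2 * t ^ 2 / n ^ 2 := by
    rw [neg_div, Real.exp_neg, inv_eq_one_div, div_le_div_iff₀ (Real.exp_pos _) (by positivity)]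
    have h3 := quad_le_exp ((n : ℝ) / t) (by positivity)
    have h4 : (n : ℝ) ^ 2 / (2 * t ^ 2) ≤ Real.exp ((n : ℝ) / t) := by
      have : (n : ℝ) ^ 2 / (2 * t ^ 2) = ((n : ℝ) / t) ^ 2 / 2 := by field_simp
      rw [this]; exact h3
    rw [div_le_iff₀ (by positivity)] at h4
    linarith
  push_cast
  calc ((n : ℝ) + 1) * (1 - 1 / t) ^ n ≤ ((n : ℝ) + 1) * (2 * t ^ 2 / n ^ 2) := by
        apply mul_le_mul_of_nonneg_left (h1.trans h2) (by positivity)
    _ ≤ (2 * n) * (2 * t ^ 2 / n ^ 2) := by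
        apply mul_le_mul_of_nonneg_right (by linarith) (by positivity)
    _ = 4 * t ^ 2 / n := by field_simp; ring
    _ ≤ 1 / t := by
        rw [div_le_div_iff₀ (by linarith) (by linarith)]
        linarith

theorem kk_big (c k : ℕ) (hk : kk c ≤ k) :
    8 ≤ k ∧ 16 * qq c ≤ k ∧ 4 * (32 * qq c) ^ 2 ≤ k := by
  have hq := qq_pos c
  have ht := tt_ge c
  unfold kk at hk
  have h1 : 64 * qq c ≤ tt c := ht
  have h2 : tt c ^ 2 ≤ tt c ^ 3 := Nat.pow_le_pow_right (by omega) (by norm_num)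
  have h3 : (64 * qq c) ^ 2 ≤ tt c ^ 2 := Nat.pow_le_pow_left h1 2
  have h4 : (64 * qq c) ^ 2 = 4096 * qq c ^ 2 := by ring
  have h5 : (32 * qq c) ^ 2 = 1024 * qq c ^ 2 := by ring
  have h6 : qq c ≤ qq c ^ 2 := Nat.le_self_pow (by norm_num) _
  refine ⟨by omega, by omega, by omega⟩

theorem RR_le (c k : ℕ) : (RR c k : ℝ) ≤ Real.exp (0.7 * ((k : ℝ) / (32 * qq c))) := by
  unfold RR
  push_cast
  have hq := qq_pos c
  have h1 : ((k / (32 * qq c) : ℕ) : ℝ) ≤ (k : ℝ) / (32 * qq c) := by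
    have := @Nat.cast_div_le ℝ _ _ _ k (32 * qq c)
    push_cast at this
    exact this
  have h2 : (2 : ℝ) ≤ Real.exp 0.7 := by
    have := Real.log_two_lt_d9
    rw [← Real.exp_log (by norm_num : (0 : ℝ) < 2)]
    apply Real.exp_le_exp.mpr
    linarith
  calc (2 : ℝ) ^ (k / (32 * qq c)) ≤ (Real.exp 0.7) ^ (k / (32 * qq c)) :=
        pow_le_pow_left₀ (by norm_num) h2 _
    _ = Real.exp (0.7 * ((k / (32 * qq c) : ℕ) : ℝ)) := by
        rw [← Real.exp_nat_mul]; congr 1; ring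
    _ ≤ _ := by
        apply Real.exp_le_exp.mpr
        linarith

theorem num_ks (c k : ℕ) (hk : kk c ≤ k) :
    (k : ℝ) * (2 * RR c k) ≤ Real.exp ((k : ℝ) / (16 * qq c)) := by
  obtain ⟨h8, _, h4⟩ := kk_big c k hk
  have hq := qq_pos c
  have hqr : (4096 : ℝ) ≤ qq c := by exact_mod_cast hq
  have hkr : (8 : ℝ) ≤ k := by exact_mod_cast h8
  set z : ℝ := (k : ℝ) / (32 * qq c) with hz
  have hz0 : 0 ≤ z := by positivity
  have h4r : 4 * (32 * (qq c : ℝ)) ^ 2 ≤ k := by exact_mod_cast h4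
  have h1 : 2 * (k : ℝ) ≤ Real.exp (1.3 * z) := by
    have h2 := quad_le_exp z hz0
    have h3 : 2 * (k : ℝ) ≤ z ^ 2 / 2 := by
      rw [hz, div_pow, div_div, le_div_iff₀ (by positivity)]
      calc 2 * (k : ℝ) * ((32 * (qq c : ℝ)) ^ 2 * 2) =
            (k : ℝ) * (4 * (32 * (qq c : ℝ)) ^ 2) := by ring
        _ ≤ (k : ℝ) * (k : ℝ) := mul_le_mul_of_nonneg_left h4r (by positivity)
        _ = (k : ℝ) ^ 2 := by ring
    refine h3.trans (h2.trans ?_)
    apply Real.exp_le_exp.mpr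
    linarith
  calc (k : ℝ) * (2 * RR c k) = 2 * (k : ℝ) * RR c k := by ring
    _ ≤ Real.exp (1.3 * z) * Real.exp (0.7 * z) := by
        apply mul_le_mul h1 (RR_le c k) (by positivity) (Real.exp_nonneg _)
    _ = Real.exp ((k : ℝ) / (16 * qq c)) := by
        rw [← Real.exp_add]
        congr 1
        rw [hz]
        field_simp
        norm_num

theorem num_h1 (c k M : ℕ) (hk : kk c ≤ k) (hM : M ≤ 2 ^ (c * k)) (s : ℕ) (hs2 : 2 ≤ s)
    (hs : s ≤ 2 * RR c k) :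
    ((M : ℝ) + 1) ^ (2 * s / tt c) * ((k : ℝ) * s) ^ (2 * s) *
      Real.exp (-(7 * (k * s) / 16) / (qq c : ℝ)) ≤ (1 / 8) ^ s := by
  obtain ⟨h8, h16, _⟩ := kk_big c k hk
  have hq := qq_pos c
  have hqr : (4096 : ℝ) ≤ qq c := by exact_mod_cast hq
  have hkr : (8 : ℝ) ≤ k := by exact_mod_cast h8
  have h16r : 16 * (qq c : ℝ) ≤ k := by exact_mod_cast h16
  have hsr : (2 : ℝ) ≤ s := by exact_mod_cast hs2
  have ht0 : 0 < tt c := by have := tt_ge c; omega
  have htr : (0 : ℝ) < tt c := by exact_mod_cast ht0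
  -- first factor
  have hA : ((M : ℝ) + 1) ^ (2 * s / tt c) ≤ Real.exp ((s : ℝ) * k / (32 * qq c)) := by
    have h1 : (M : ℝ) + 1 ≤ Real.exp (((c : ℝ) + 1) * k) := by
      have h2 : (M : ℝ) + 1 ≤ 2 ^ (c * k + 1) := by
        have h3 : M + 1 ≤ 2 ^ (c * k + 1) := by
          have : 1 ≤ 2 ^ (c * k) := Nat.one_le_two_pow
          calc M + 1 ≤ 2 ^ (c * k) + 2 ^ (c * k) := by omega
            _ = 2 ^ (c * k + 1) := by ring
        exact_mod_cast h3
      refine h2.trans ?_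
      have h4 : (2 : ℝ) ≤ Real.exp 1 := by
        have := Real.add_one_le_exp (1 : ℝ)
        linarith
      calc (2 : ℝ) ^ (c * k + 1) ≤ (Real.exp 1) ^ (c * k + 1) :=
            pow_le_pow_left₀ (by norm_num) h4 _
        _ = Real.exp ((c * k + 1 : ℕ) : ℝ) := by
            rw [← Real.exp_nat_mul]; congr 1; ring
        _ ≤ Real.exp (((c : ℝ) + 1) * k) := by
            apply Real.exp_le_exp.mpr
            push_cast
            have e : ((c : ℝ) + 1) * k = c * k + k := by ring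
            rw [e]
            linarith
    have h5 : ((2 * s / tt c : ℕ) : ℝ) ≤ 2 * s / tt c := by
      have := @Nat.cast_div_le ℝ _ _ _ (2 * s) (tt c)
      push_cast at this
      exact this
    calc ((M : ℝ) + 1) ^ (2 * s / tt c) ≤ (Real.exp (((c : ℝ) + 1) * k)) ^ (2 * s / tt c) :=
          pow_le_pow_left₀ (by positivity) h1 _
      _ = Real.exp (((2 * s / tt c : ℕ) : ℝ) * (((c : ℝ) + 1) * k)) := by
          rw [← Real.exp_nat_mul]
      _ ≤ Real.exp ((2 * s / tt c) * (((c : ℝ) + 1) * k)) := by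
          apply Real.exp_le_exp.mpr
          apply mul_le_mul_of_nonneg_right h5 (by positivity)
      _ = Real.exp ((s : ℝ) * k / (32 * qq c)) := by
          congr 1
          unfold tt
          push_cast
          field_simp
          ring
  -- second factor
  have hB : ((k : ℝ) * s) ^ (2 * s) ≤ Real.exp ((s : ℝ) * k / (8 * qq c)) := by
    have h1 : (k : ℝ) * s ≤ Real.exp ((k : ℝ) / (16 * qq c)) := by
      refine le_trans ?_ (num_ks c k hk)
      apply mul_le_mul_of_nonneg_left _ (by positivity)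
      exact_mod_cast hs
    calc ((k : ℝ) * s) ^ (2 * s) ≤ (Real.exp ((k : ℝ) / (16 * qq c))) ^ (2 * s) :=
          pow_le_pow_left₀ (by positivity) h1 _
      _ = Real.exp ((s : ℝ) * k / (8 * qq c)) := by
          rw [← Real.exp_nat_mul]
          congr 1
          push_cast
          field_simp
          ring
  have hC : Real.exp ((s : ℝ) * k / (32 * qq c)) * Real.exp ((s : ℝ) * k / (8 * qq c)) *
      Real.exp (-(7 * (k * s) / 16) / (qq c : ℝ)) ≤ (1 / 8) ^ s := by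
    rw [← Real.exp_add, ← Real.exp_add]
    have h1 : (1 / 8 : ℝ) ^ s = Real.exp (-(s : ℝ) * Real.log 8) := by
      rw [neg_mul, Real.exp_neg, Real.exp_nat_mul, Real.exp_log (by norm_num), one_div, inv_pow]
    rw [h1]
    apply Real.exp_le_exp.mpr
    have h2 : Real.log 8 ≤ 2.08 := by
      have h3 : Real.log 8 = 3 * Real.log 2 := by
        rw [show (8 : ℝ) = 2 ^ 3 by norm_num, Real.log_pow]; norm_num
      rw [h3]
      have := Real.log_two_lt_d9
      linarith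
    have h4 : (s : ℝ) * k / (32 * qq c) + (s : ℝ) * k / (8 * qq c) +
        -(7 * (k * s) / 16) / (qq c : ℝ) = -(s : ℝ) * (9 * k / (32 * qq c)) := by
      field_simp
      ring
    rw [h4]
    have h5 : 2.08 ≤ 9 * (k : ℝ) / (32 * qq c) := by
      rw [le_div_iff₀ (by positivity)]
      linarith
    rw [neg_mul, neg_mul, neg_le_neg_iff]
    exact mul_le_mul_of_nonneg_left (h2.trans h5) (by linarith)
  refine le_trans ?_ hC
  apply mul_le_mul_of_nonneg_right _ (Real.exp_nonneg _)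
  exact mul_le_mul hA hB (by positivity) (Real.exp_nonneg _)

theorem num_h2 (c k M : ℕ) (hM : M ≤ 2 ^ (c * k)) :
    (M : ℝ) * (2 ^ k * (1 / (qq c : ℝ)) ^ (k / 4 + 1)) ≤ 1 / 4 := by
  have hq := qq_pos c
  have h1 : M * 2 ^ k * 4 ≤ qq c ^ (k / 4 + 1) := by
    unfold qq
    calc M * 2 ^ k * 4 ≤ 2 ^ (c * k) * 2 ^ k * 4 := by
          apply Nat.mul_le_mul_right
          exact Nat.mul_le_mul_right _ hM
      _ = 2 ^ (c * k + k + 2) := by rw [pow_add, pow_add]; norm_num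
      _ ≤ 2 ^ ((4 * c + 12) * (k / 4 + 1)) := by
          apply Nat.pow_le_pow_right (by norm_num)
          have h2 : k + 1 ≤ 4 * (k / 4 + 1) := by omega
          calc c * k + k + 2 ≤ c * k + (3 * k + c + 3) := by omega
            _ = (c + 3) * (k + 1) := by ring
            _ ≤ (c + 3) * (4 * (k / 4 + 1)) := Nat.mul_le_mul_left _ h2
            _ = (4 * c + 12) * (k / 4 + 1) := by ring
      _ = (2 ^ (4 * c + 12)) ^ (k / 4 + 1) := by rw [pow_mul]
  have h2 : (M : ℝ) * 2 ^ k * 4 ≤ (qq c : ℝ) ^ (k / 4 + 1) := by exact_mod_cast h1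
  have hpos : (0 : ℝ) < (qq c : ℝ) ^ (k / 4 + 1) := by
    have : (0 : ℝ) < qq c := by exact_mod_cast (by omega : 0 < qq c)
    positivity
  rw [one_div, inv_pow, ← mul_assoc, ← div_eq_mul_inv, div_le_iff₀ hpos]
  linarith

/-- `y = 2 ^ (k / (32 q))` -/
noncomputable def yy (c k : ℕ) : ℝ := (2 : ℝ) ^ ((k : ℝ) / 2 ^ (4 * c + 17))

theorem yy_ge (c k : ℕ) : 1 ≤ yy c k := by
  unfold yy
  apply Real.one_le_rpow (by norm_num) (by positivity)

theorem RR_ge (c k : ℕ) : yy c k ≤ 2 * RR c k := by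
  unfold yy RR
  have h32 : (32 * qq c : ℕ) = 2 ^ (4 * c + 17) := by unfold qq; ring
  rw [h32]
  set d : ℕ := 2 ^ (4 * c + 17) with hd
  have hd0 : 0 < d := by positivity
  have h1 : (k : ℝ) / 2 ^ (4 * c + 17) ≤ ((k / d + 1 : ℕ) : ℝ) := by
    have h2 : (2 : ℝ) ^ (4 * c + 17) = (d : ℝ) := by rw [hd]; push_cast; rfl
    rw [h2, div_le_iff₀ (by exact_mod_cast hd0)]
    have h3 : k ≤ (k / d + 1) * d := by
      have h4 := Nat.lt_div_mul_add (a := k) hd0
      have e : (k / d + 1) * d = k / d * d + d := by ring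
      rw [e]
      omega
    exact_mod_cast h3
  calc (2 : ℝ) ^ ((k : ℝ) / 2 ^ (4 * c + 17)) ≤ (2 : ℝ) ^ (((k / d + 1 : ℕ) : ℝ)) :=
        Real.rpow_le_rpow_of_exponent_le (by norm_num) h1
    _ = (2 : ℝ) ^ (k / d + 1) := Real.rpow_natCast _ _
    _ = 2 * ((2 ^ (k / d) : ℕ) : ℝ) := by push_cast; ring

theorem w_ge (c k : ℕ) (hk : kk c ≤ k) : 4 * yy c k - 1 ≤ ((k * RR c k / 2 : ℕ) : ℝ) / qq c := by
  obtain ⟨_, h16, _⟩ := kk_big c k hk
  have hq := qq_pos c
  have hqr : (4096 : ℝ) ≤ qq c := by exact_mod_cast hq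
  have h16r : 16 * (qq c : ℝ) ≤ k := by exact_mod_cast h16
  have h1 : (k : ℝ) * RR c k / 2 - 1 ≤ ((k * RR c k / 2 : ℕ) : ℝ) := by
    have h2 : k * RR c k ≤ 2 * (k * RR c k / 2) + 1 := by omega
    have h3 : (k : ℝ) * RR c k ≤ 2 * ((k * RR c k / 2 : ℕ) : ℝ) + 1 := by exact_mod_cast h2
    linarith
  have h4 := RR_ge c k
  have h5 := yy_ge c k
  rw [le_div_iff₀ (by linarith)]
  have h6 : 4 * yy c k * qq c ≤ (k : ℝ) * RR c k / 2 := by
    have h7 : 16 * (qq c : ℝ) * yy c k ≤ k * (2 * RR c k) :=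
      mul_le_mul h16r h4 (by linarith) (by linarith)
    linarith
  have e : (4 * yy c k - 1) * (qq c : ℝ) = 4 * yy c k * qq c - qq c := by ring
  rw [e]
  linarith

theorem num_h3 (c k : ℕ) (hk : kk c ≤ k) (S : ℕ) (hS : (S : ℝ) < (2 : ℝ) ^ (yy c k)) :
    (S : ℝ) * Real.exp (-((k * RR c k / 2 : ℕ) : ℝ) / qq c) ≤ 1 / 4 := by
  have h1 := w_ge c k hk
  have h2 := yy_ge c k
  have h3 : (2 : ℝ) ^ (yy c k) ≤ Real.exp (0.7 * yy c k) := by
    rw [Real.rpow_def_of_pos (by norm_num)]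
    apply Real.exp_le_exp.mpr
    have := Real.log_two_lt_d9
    exact mul_le_mul_of_nonneg_right (by linarith) (by linarith)
  have h4 : Real.exp (-((k * RR c k / 2 : ℕ) : ℝ) / qq c) ≤ Real.exp (-(4 * yy c k - 1)) := by
    apply Real.exp_le_exp.mpr
    rw [neg_div]
    linarith
  calc (S : ℝ) * Real.exp (-((k * RR c k / 2 : ℕ) : ℝ) / qq c)
      ≤ Real.exp (0.7 * yy c k) * Real.exp (-(4 * yy c k - 1)) := by
        apply mul_le_mul (hS.le.trans h3) h4 (Real.exp_nonneg _) (Real.exp_nonneg _)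
    _ = Real.exp (1 - 3.3 * yy c k) := by rw [← Real.exp_add]; congr 1; ring
    _ ≤ Real.exp (-2.3) := by apply Real.exp_le_exp.mpr; linarith
    _ ≤ 1 / 4 := by
        have h5 : (4 : ℝ) ≤ Real.exp 2.3 := by
          have h6 : (2 : ℝ) * Real.log 2 = Real.log 4 := by
            rw [show (4 : ℝ) = 2 ^ 2 by norm_num, Real.log_pow]; norm_num
          rw [← Real.exp_log (by norm_num : (0 : ℝ) < 4), ← h6]
          apply Real.exp_le_exp.mpr
          have := Real.log_two_lt_d9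
          linarith
        rw [Real.exp_neg, one_div]
        exact inv_anti₀ (by norm_num) h5

end Pool.Agent.LKCNF
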