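import Pool.Agent.LKCNF.SoS

set_option autoImplicit false
set_option linter.unusedSectionVars false

/-
The pseudo-expectation of the restricted formula and the degree bound.
-/

namespace Pool.Agent.LKCNF

open Finset

variable {V : Type} [Fintype V] [DecidableEq V]

section

variable {q : ℕ} (ω : V → Fin q)

/-- the sign of a fixed variable -/
def sg (x : V) : ℝ := if (ω x : ℕ) = 1 then -1 else 1

/-- the free part -/
def fr (T : Finset V) : Finset V := T.filter (fun x => 2 ≤ (ω x : ℕ))

/-- the sign of the number of clauses of `J` that contain `x` -/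
def par (J : Finset (Finset (V × Bool))) (x : V) : ℝ :=
  ∏ C ∈ J, (if x ∈ vbl C then (-1 : ℝ) else 1)

theorem par_cases (J : Finset (Finset (V × Bool))) (x : V) : par J x = 1 ∨ par J x = -1 := by
  classical
  unfold par
  induction J using Finset.induction_on with
  | empty => left; simp
  | insert C J hC ih =>
    rw [prod_insert hC]
    rcases ih with h | h <;> rw [h] <;> split_ifs <;> simp

theorem par_symmDiff (J K : Finset (Finset (V × Bool))) (x : V) :
    par (symmDiff J K) x = par J x * par K x := by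
  unfold par
  apply prod_symmDiff_inv
  intro C
  split_ifs <;> norm_num

/-- the free variables that lie in an odd number of clauses of `J` -/
noncomputable def xr (J : Finset (Finset (V × Bool))) : Finset V := by
  classical
  exact univ.filter (fun x => 2 ≤ (ω x : ℕ) ∧ par J x = -1)

theorem mem_xr (J : Finset (Finset (V × Bool))) (x : V) :
    x ∈ xr ω J ↔ 2 ≤ (ω x : ℕ) ∧ par J x = -1 := by
  classical
  unfold xr
  rw [mem_filter]
  simp

theorem xr_symmDiff (J K : Finset (Finset (V × Bool))) :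
    xr ω (symmDiff J K) = symmDiff (xr ω J) (xr ω K) := by
  ext x
  rw [mem_symmDiff, mem_xr, mem_xr, mem_xr, par_symmDiff]
  rcases par_cases J x with h1 | h1 <;> rcases par_cases K x with h2 | h2 <;> rw [h1, h2] <;>
    norm_num
  intro h
  omega

theorem bdry_sub_xr (J : Finset (Finset (V × Bool))) : bdry ω J ⊆ xr ω J := by
  classical
  intro x hx
  rw [mem_bdry] at hx
  obtain ⟨h2, C, hC, hxC, hu⟩ := hx
  rw [mem_xr]
  refine ⟨h2, ?_⟩
  unfold par
  rw [← mul_prod_erase J _ hC, if_pos hxC]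
  have h3 : ∏ D ∈ J.erase C, (if x ∈ vbl D then (-1 : ℝ) else 1) = 1 := by
    apply prod_eq_one
    intro D hD
    rw [mem_erase] at hD
    rw [if_neg]
    intro h
    exact hD.1 (hu D hD.2 h)
  rw [h3, mul_one]

theorem xr_singleton (C : Finset (V × Bool)) : xr ω {C} = fr ω (vbl C) := by
  ext x
  rw [mem_xr]
  unfold par fr
  rw [prod_singleton, mem_filter]
  by_cases h : x ∈ vbl C
  · simp [h]
  · simp [h]; norm_num

theorem fr_symmDiff (S T : Finset V) : fr ω (symmDiff S T) = symmDiff (fr ω S) (fr ω T) := by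
  unfold fr
  ext x
  rw [mem_filter, mem_symmDiff, mem_symmDiff, mem_filter, mem_filter]
  tauto

/-- the sign of the fixed part -/
def sig (T : Finset V) : ℝ := ∏ x ∈ T, sg ω x

theorem sg_sq (x : V) : sg ω x * sg ω x = 1 := by
  unfold sg; split_ifs <;> norm_num

theorem sig_symmDiff (S T : Finset V) : sig ω (symmDiff S T) = sig ω S * sig ω T := by
  unfold sig
  exact prod_symmDiff_inv _ (sg_sq ω) S T

theorem sig_sq (S : Finset V) : sig ω S * sig ω S = 1 := by
  unfold sig
  rw [← prod_mul_distrib]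
  exact prod_eq_one (fun x _ => sg_sq ω x)

theorem sig_fr (S : Finset V) : sig ω (fr ω S) = 1 := by
  unfold sig fr
  apply prod_eq_one
  intro x hx
  rw [mem_filter] at hx
  unfold sg
  rw [if_neg (by omega)]

/-- the value of the character of the free part of `C` on falsifying assignments -/
def fC (C : Finset (V × Bool)) : ℝ :=
  ∏ l ∈ C.filter (fun l => 2 ≤ (ω l.1 : ℕ)), (if l.2 then (1 : ℝ) else -1)

theorem fC_sq (C : Finset (V × Bool)) : fC ω C * fC ω C = 1 := by
  unfold fC
  rw [← prod_mul_distrib]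
  apply prod_eq_one
  intro l _
  split_ifs <;> norm_num

/-- the sign attached to a set of clauses -/
def tau (J : Finset (Finset (V × Bool))) : ℝ := ∏ C ∈ J, (-(fC ω C))

theorem tau_symmDiff (J K : Finset (Finset (V × Bool))) :
    tau ω (symmDiff J K) = tau ω J * tau ω K := by
  unfold tau
  apply prod_symmDiff_inv
  intro C
  rw [neg_mul_neg]
  exact fC_sq ω C

theorem tau_sq (J : Finset (Finset (V × Bool))) : tau ω J * tau ω J = 1 := by
  unfold tau
  rw [← prod_mul_distrib]
  apply prod_eq_one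
  intro C _
  rw [neg_mul_neg]
  exact fC_sq ω C

/-- `T` is represented by `J` -/
def Rep (F : Finset (Finset (V × Bool))) (R : ℕ) (J : Finset (Finset (V × Bool)))
    (T : Finset V) : Prop :=
  J ⊆ F ∧ (∀ C ∈ J, surv ω C) ∧ J.card ≤ R ∧ xr ω J = fr ω T

/-- the pseudo-expectation on characters -/
noncomputable def ev (F : Finset (Finset (V × Bool))) (R : ℕ) (T : Finset V) : ℝ := by
  classical
  exact if h : ∃ J, Rep ω F R J T then sig ω T * tau ω h.choose else 0

variable {F : Finset (Finset (V × Bool))} {k R : ℕ}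
  (hex : ∀ D ⊆ F, D.Nonempty → D.card ≤ 2 * R → (∀ C ∈ D, surv ω C) →
      k * D.card < 2 * (bdry ω D).card)

theorem sub_symmDiff {J K : Finset (Finset (V × Bool))} (hJ : J ⊆ F) (hK : K ⊆ F) :
    symmDiff J K ⊆ F := by
  intro C hC
  rw [mem_symmDiff] at hC
  rcases hC with ⟨h, _⟩ | ⟨h, _⟩
  · exact hJ h
  · exact hK h

theorem surv_symmDiff {J K : Finset (Finset (V × Bool))} (hJ : ∀ C ∈ J, surv ω C)
    (hK : ∀ C ∈ K, surv ω C) : ∀ C ∈ symmDiff J K, surv ω C := by
  intro C hC
  rw [mem_symmDiff] at hC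
  rcases hC with ⟨h, _⟩ | ⟨h, _⟩
  · exact hJ C h
  · exact hK C h

theorem card_symmDiff_le' (J K : Finset (Finset (V × Bool))) :
    (symmDiff J K).card ≤ J.card + K.card := by
  have h : symmDiff J K ⊆ J ∪ K := by
    intro x hx
    rw [mem_symmDiff] at hx
    rw [mem_union]
    tauto
  exact (card_le_card h).trans (card_union_le _ _)

include hex

theorem rep_unique {J K : Finset (Finset (V × Bool))} {T : Finset V} (hJ : Rep ω F R J T)
    (hK : Rep ω F R K T) : J = K := by
  classical
  by_contra hne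
  have h1 : (symmDiff J K).Nonempty := by
    rw [nonempty_iff_ne_empty]
    intro h
    exact hne (symmDiff_eq_bot.mp (by rw [h]; rfl))
  have h2 := hex (symmDiff J K) (sub_symmDiff hJ.1 hK.1) h1
    ((card_symmDiff_le' J K).trans (by have := hJ.2.2.1; have := hK.2.2.1; omega))
    (surv_symmDiff ω hJ.2.1 hK.2.1)
  have h3 : xr ω (symmDiff J K) = ∅ := by
    rw [xr_symmDiff, hJ.2.2.2, hK.2.2.2, symmDiff_self]
    rfl
  have h4 := bdry_sub_xr ω (symmDiff J K)
  rw [h3, subset_empty] at h4
  rw [h4, card_empty] at h2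
  omega

theorem ev_eq {J : Finset (Finset (V × Bool))} {T : Finset V} (hJ : Rep ω F R J T) :
    ev ω F R T = sig ω T * tau ω J := by
  classical
  unfold ev
  have h : ∃ J, Rep ω F R J T := ⟨J, hJ⟩
  rw [dif_pos h, rep_unique ω hex h.choose_spec hJ]

omit hex in
theorem ev_zero {T : Finset V} (hT : ¬ ∃ J, Rep ω F R J T) : ev ω F R T = 0 := by
  classical
  unfold ev
  rw [dif_neg hT]

/-- small sets are represented by at most `R` clauses if by at most `2 R` -/
theorem rep_small {J : Finset (Finset (V × Bool))} {T : Finset V} (hJF : J ⊆ F)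
    (hJs : ∀ C ∈ J, surv ω C) (hJ2 : J.card ≤ 2 * R) (hx : xr ω J = fr ω T)
    (hT : 2 * T.card ≤ k * R) : Rep ω F R J T := by
  classical
  refine ⟨hJF, hJs, ?_, hx⟩
  by_contra hcon
  push Not at hcon
  have hne : J.Nonempty := by rw [← card_pos]; omega
  have h1 := hex J hJF hne hJ2 hJs
  have h2 : (bdry ω J).card ≤ T.card := by
    refine (card_le_card (bdry_sub_xr ω J)).trans ?_
    rw [hx]
    unfold fr
    exact card_filter_le _ _
  have h3 : k * R ≤ k * J.card := Nat.mul_le_mul_left k hcon.le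
  omega

theorem ev_empty : ev ω F R ∅ = 1 := by
  have h : Rep ω F R ∅ ∅ := by
    refine ⟨empty_subset _, by simp, by simp, ?_⟩
    ext x
    rw [mem_xr]
    unfold par fr
    simp
    intro _
    norm_num
  rw [ev_eq ω hex h]
  unfold sig tau
  simp

theorem ev_trans {d : ℕ} (hd : 4 * d ≤ k * R) (S T U : Finset V) (hS : S.card ≤ d)
    (hT : T.card ≤ d) (hU : U.card ≤ d) (hST : ev ω F R (symmDiff S T) ≠ 0) :
    ev ω F R (symmDiff S U) = ev ω F R (symmDiff S T) * ev ω F R (symmDiff T U) := by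
  classical
  have h1 : ∃ J, Rep ω F R J (symmDiff S T) := by
    by_contra h
    exact hST (ev_zero ω h)
  obtain ⟨J, hJ⟩ := h1
  have hSU : symmDiff S U = symmDiff (symmDiff S T) (symmDiff T U) := by
    rw [symmDiff_assoc, ← symmDiff_assoc T T U, symmDiff_self, bot_symmDiff]
  have hTU : symmDiff T U = symmDiff (symmDiff S T) (symmDiff S U) := by
    rw [hSU, ← symmDiff_assoc, symmDiff_self, bot_symmDiff]
  by_cases h2 : ∃ K, Rep ω F R K (symmDiff T U)
  · obtain ⟨K, hK⟩ := h2
    have h3 : Rep ω F R (symmDiff J K) (symmDiff S U) := by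
      apply rep_small ω hex (sub_symmDiff hJ.1 hK.1) (surv_symmDiff ω hJ.2.1 hK.2.1)
        ((card_symmDiff_le' J K).trans (by have := hJ.2.2.1; have := hK.2.2.1; omega))
      · rw [xr_symmDiff, hJ.2.2.2, hK.2.2.2, ← fr_symmDiff, ← hSU]
      · have := card_symmDiff_le S U
        omega
    rw [ev_eq ω hex h3, ev_eq ω hex hJ, ev_eq ω hex hK, tau_symmDiff, hSU, sig_symmDiff]
    ring
  · have h3 : ¬ ∃ K, Rep ω F R K (symmDiff S U) := by
      rintro ⟨K, hK⟩
      apply h2
      refine ⟨symmDiff J K, ?_⟩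
      apply rep_small ω hex (sub_symmDiff hJ.1 hK.1) (surv_symmDiff ω hJ.2.1 hK.2.1)
        ((card_symmDiff_le' J K).trans (by have := hJ.2.2.1; have := hK.2.2.1; omega))
      · rw [xr_symmDiff, hJ.2.2.2, hK.2.2.2, ← fr_symmDiff, ← hTU]
      · have := card_symmDiff_le T U
        omega
    rw [ev_zero ω h2, ev_zero ω h3, mul_zero]

theorem ev_clause (hk : IsKCNF k F) (hR : 1 ≤ R) {D : ℕ} (hD : 2 * (D + k) ≤ k * R)
    (C : Finset (V × Bool)) (hC : C ∈ F) (hCs : surv ω C) (T : Finset V) (hT : T.card ≤ D) :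
    ev ω F R (symmDiff T (fr ω (vbl C))) = -(fC ω C) * ev ω F R T := by
  classical
  have hfrfr : fr ω (fr ω (vbl C)) = fr ω (vbl C) := by
    unfold fr
    rw [filter_filter]
    congr 1
    ext x
    simp
  have hfc : (fr ω (vbl C)).card ≤ k := by
    unfold fr
    exact (card_filter_le _ _).trans (hk C hC).2.le
  have hCF : ({C} : Finset (Finset (V × Bool))) ⊆ F := by rw [singleton_subset_iff]; exact hC
  have hCss : ∀ C' ∈ ({C} : Finset (Finset (V × Bool))), surv ω C' := by
    intro C' h; rw [mem_singleton] at h; rw [h]; exact hCs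
  have hT' : (symmDiff T (fr ω (vbl C))).card ≤ D + k := by
    have := card_symmDiff_le T (fr ω (vbl C))
    omega
  by_cases h1 : ∃ J, Rep ω F R J T
  · obtain ⟨J, hJ⟩ := h1
    have h2 : Rep ω F R (symmDiff J {C}) (symmDiff T (fr ω (vbl C))) := by
      apply rep_small ω hex (sub_symmDiff hJ.1 hCF) (surv_symmDiff ω hJ.2.1 hCss)
      · have := card_symmDiff_le' J {C}
        rw [card_singleton] at this
        have := hJ.2.2.1
        omega
      · rw [xr_symmDiff, hJ.2.2.2, xr_singleton, fr_symmDiff, hfrfr]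
      · omega
    rw [ev_eq ω hex h2, ev_eq ω hex hJ, tau_symmDiff, sig_symmDiff, sig_fr]
    have h3 : tau ω {C} = -(fC ω C) := by unfold tau; rw [prod_singleton]
    rw [h3]
    ring
  · have h2 : ¬ ∃ J, Rep ω F R J (symmDiff T (fr ω (vbl C))) := by
      rintro ⟨J, hJ⟩
      apply h1
      refine ⟨symmDiff J {C}, ?_⟩
      apply rep_small ω hex (sub_symmDiff hJ.1 hCF) (surv_symmDiff ω hJ.2.1 hCss)
      · have := card_symmDiff_le' J {C}
        rw [card_singleton] at this
        have := hJ.2.2.1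
        omega
      · rw [xr_symmDiff, hJ.2.2.2, xr_singleton, fr_symmDiff, hfrfr, symmDiff_assoc,
          symmDiff_self, symmDiff_bot]
      · omega
    rw [ev_zero ω h1, ev_zero ω h2, mul_zero]

omit hex in
theorem rep_congr {J : Finset (Finset (V × Bool))} {T T' : Finset V} (h : fr ω T = fr ω T') :
    Rep ω F R J T ↔ Rep ω F R J T' := by
  unfold Rep
  rw [h]

theorem ev_set (x : V) (hx : (ω x : ℕ) < 2) (T : Finset V) :
    ev ω F R (symmDiff T {x}) = sg ω x * ev ω F R T := by
  classical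
  have hfr : fr ω (symmDiff T {x}) = fr ω T := by
    rw [fr_symmDiff]
    have h1 : fr ω ({x} : Finset V) = ∅ := by
      unfold fr
      rw [filter_singleton, if_neg (by omega)]
    rw [h1]
    exact symmDiff_bot _
  by_cases h1 : ∃ J, Rep ω F R J T
  · obtain ⟨J, hJ⟩ := h1
    have h2 : Rep ω F R J (symmDiff T {x}) := (rep_congr ω hfr).mpr hJ
    rw [ev_eq ω hex h2, ev_eq ω hex hJ, sig_symmDiff]
    have h3 : sig ω ({x} : Finset V) = sg ω x := by unfold sig; rw [prod_singleton]
    rw [h3]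
    ring
  · have h2 : ¬ ∃ J, Rep ω F R J (symmDiff T {x}) := by
      rintro ⟨J, hJ⟩
      exact h1 ⟨J, (rep_congr ω hfr).mp hJ⟩
    rw [ev_zero ω h1, ev_zero ω h2, mul_zero]

omit hex in
/-- on falsifying assignments the character of the free part of `C` is `fC` -/
theorem chi_viol (hk : IsKCNF k F) (C : Finset (V × Bool)) (hC : C ∈ F) (a : V → Bool)
    (ha : ∀ l ∈ C, a l.1 ≠ l.2) : chi (fr ω (vbl C)) a = fC ω C := by
  classical
  have hinj : Set.InjOn (Prod.fst : V × Bool → V) (C : Set (V × Bool)) := by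
    apply Finset.card_image_iff.mp
    have := hk C hC
    unfold vbl at this
    rw [this.2, this.1]
  have himg : fr ω (vbl C) = (C.filter (fun l => 2 ≤ (ω l.1 : ℕ))).image Prod.fst := by
    unfold fr vbl
    ext x
    simp only [mem_filter, mem_image]
    constructor
    · rintro ⟨⟨l, hl, rfl⟩, h⟩
      exact ⟨l, ⟨hl, h⟩, rfl⟩
    · rintro ⟨l, ⟨hl, h⟩, rfl⟩
      exact ⟨⟨l, hl, rfl⟩, h⟩
  unfold chi fC
  rw [himg, prod_image]
  · apply prod_congr rfl
    intro l hl
    have h1 := ha l (mem_filter.mp hl).1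
    cases h2 : a l.1 <;> cases h3 : l.2 <;> rw [h2, h3] at h1 <;> simp at h1 ⊢
  · intro l hl m hm h
    exact hinj (mem_coe.mpr (mem_filter.mp hl).1) (mem_coe.mpr (mem_filter.mp hm).1) h

theorem EE_viol (hk : IsKCNF k F) (hR : 1 ≤ R) {d : ℕ} (hD : 2 * (d + k + k) ≤ k * R)
    (C : Finset (V × Bool)) (hC : C ∈ F) (g : (V → Bool) → ℝ) (hg : g ∈ Ch V d) :
    EE (ev ω F R) (g * viol C) = 0 := by
  classical
  have hmem : g * viol C ∈ Ch V (d + k) := by
    have h := viol_mem C
    rw [(hk C hC).1] at h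
    exact mul_mem hg h
  by_cases hs : surv ω C
  · have h1 := EE_shift (ev ω F R) (fr ω (vbl C)) (-(fC ω C)) (d + k)
      (fun T hT => ev_clause ω hex hk hR hD C hC hs T hT) (g * viol C) hmem
    have h2 : (g * viol C) * chi (fr ω (vbl C)) = (fC ω C) • (g * viol C) := by
      funext a
      simp only [Pi.mul_apply, Pi.smul_apply, smul_eq_mul]
      by_cases ha : ∀ l ∈ C, a l.1 ≠ l.2
      · rw [chi_viol ω hk C hC a ha]; ring
      · have : viol C a = 0 := by unfold viol; rw [if_neg ha]
        rw [this]; ring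
    rw [h2, map_smul, smul_eq_mul] at h1
    have h3 := fC_sq ω C
    have h4 : fC ω C * EE (ev ω F R) (g * viol C) = 0 := by linarith
    have h5 : fC ω C * (fC ω C * EE (ev ω F R) (g * viol C)) = 0 := by rw [h4, mul_zero]
    rw [← mul_assoc, h3, one_mul] at h5
    exact h5
  · unfold surv at hs
    push Not at hs
    obtain ⟨l, hl, hle⟩ := hs
    have hlt : (ω l.1 : ℕ) < 2 := by rw [hle]; cases l.2 <;> simp
    have h1 := EE_shift (ev ω F R) {l.1} (sg ω l.1) (d + k)
      (fun T _ => ev_set ω hex l.1 hlt T) (g * viol C) hmem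
    have h2 : (g * viol C) * chi {l.1} = (-(sg ω l.1)) • (g * viol C) := by
      funext a
      simp only [Pi.mul_apply, Pi.smul_apply, smul_eq_mul]
      by_cases ha : ∀ l ∈ C, a l.1 ≠ l.2
      · have h3 : chi ({l.1} : Finset V) a = -(sg ω l.1) := by
          unfold chi sg
          rw [prod_singleton]
          have h4 := ha l hl
          cases h5 : a l.1 <;> cases h6 : l.2 <;> rw [h5, h6] at h4 <;> rw [h6] at hle <;>
            simp at h4 hle ⊢ <;> rw [hle] <;> norm_num
        rw [h3]; ring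
      · have : viol C a = 0 := by unfold viol; rw [if_neg ha]
        rw [this]; ring
    rw [h2, map_smul, smul_eq_mul] at h1
    have h3 := sg_sq ω l.1
    have h4 : sg ω l.1 * EE (ev ω F R) (g * viol C) = 0 := by linarith
    have h5 : sg ω l.1 * (sg ω l.1 * EE (ev ω F R) (g * viol C)) = 0 := by rw [h4, mul_zero]
    rw [← mul_assoc, h3, one_mul] at h5
    exact h5

theorem no_sos (hk : IsKCNF k F) (hR : 1 ≤ R) {d : ℕ} (hD : 2 * (d + k + k) ≤ k * R)
    (hd : 4 * d ≤ k * R) : ¬ SoSRefutable d F := by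
  classical
  rintro ⟨m, p, g, hp, hg, hid⟩
  have h1 : (-1 : ℝ) • (chi (∅ : Finset V)) = ∑ i, (p i * p i) + ∑ C ∈ F, g C * viol C := by
    funext a
    have h := hid a
    simp only [Pi.smul_apply, Pi.add_apply, Finset.sum_apply, Pi.mul_apply, smul_eq_mul,
      chi_empty, mul_one]
    rw [h]
    congr 1
    apply sum_congr rfl
    intro i _
    rw [sq]
  have h2 := congrArg (EE (ev ω F R)) h1
  rw [map_smul, EE_chi, map_add, map_sum, map_sum, ev_empty ω hex] at h2
  have h3 : ∀ i ∈ (univ : Finset (Fin m)), 0 ≤ EE (ev ω F R) (p i * p i) := by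
    intro i _
    exact EE_sq (ev ω F R) d (ev_empty ω hex)
      (fun S T U hS hT hU h => ev_trans ω hex hd S T U hS hT hU h) (p i) (degLE_mem (hp i))
  have h4 : ∑ C ∈ F, EE (ev ω F R) (g C * viol C) = 0 := by
    apply sum_eq_zero
    intro C hC
    exact EE_viol ω hex hk hR hD C hC (g C) (degLE_mem (hg C hC))
  have h5 := sum_nonneg h3
  rw [h4, smul_eq_mul] at h2
  linarith

end

/-- the degree bound -/
theorem sos_bound (c k : ℕ) (hk0 : kk c ≤ k) (F : Finset (Finset (V × Bool)))
    (hk : IsKCNF k F) (hl : IsLinear F) (hM : F.card ≤ 2 ^ (c * k)) (d : ℕ)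
    (hd : (d : ℝ) ≤ (2 : ℝ) ^ ((k : ℝ) / 2 ^ (4 * c + 17))) : ¬ SoSRefutable d F := by
  classical
  obtain ⟨h8, _, h4⟩ := kk_big c k hk0
  have hq := qq_pos c
  have ht3 : 3 ≤ tt c := by have := tt_ge c; omega
  have hRpos : 8 ≤ RR c k := by
    unfold RR
    have h1 : 3 ≤ k / (32 * qq c) := by
      rw [Nat.le_div_iff_mul_le (by omega)]
      have : 32 * qq c ≤ (32 * qq c) ^ 2 := Nat.le_self_pow (by norm_num) _
      omega
    calc 8 = 2 ^ 3 := by norm_num
      _ ≤ 2 ^ (k / (32 * qq c)) := Nat.pow_le_pow_right (by norm_num) h1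
  obtain ⟨ω, hω1, hω2, _⟩ := exists_restr k (qq c) (tt c) (RR c k) F hk hl (by omega)
    (by omega) ht3 (num_mt c k hk0) (fun s h2 hs => num_h1 c k F.card hk0 hM s h2 hs)
    (num_h2 c k F.card hM) ∅ 0 (by simp)
  have hbd : ∀ D ⊆ F, D.Nonempty → D.card ≤ 2 * RR c k → (∀ C ∈ D, surv ω C) →
      k * D.card < 2 * (bdry ω D).card := by
    intro D hDF hne hDR hs
    apply bdry_card k F hk ω D hDF (hω1 D hDF hne hDR hs)
    intro C hC
    exact hω2 C (hDF hC) (hs C hC)
  have hdR : d ≤ 2 * RR c k := by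
    have h1 := RR_ge c k
    unfold yy at h1
    have h2 : (d : ℝ) ≤ 2 * RR c k := hd.trans h1
    exact_mod_cast h2
  apply no_sos ω hbd hk (by omega)
  · have h1 : 4 * RR c k + 4 * k ≤ k * RR c k := by nlinarith
    omega
  · have h1 : 8 * RR c k ≤ k * RR c k := Nat.mul_le_mul_right _ h8
    omega

end Pool.Agent.LKCNF
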