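import Pool.Agent.LKCNF.PCFun
import Pool.Agent.LKCNF.SoSMain

set_option autoImplicit false
set_option linter.unusedSectionVars false

/-
The reduction operator and the degree bound for the polynomial calculus.
-/

namespace Pool.Agent.LKCNF

open Finset

variable (K : Type) [Field K] {V : Type} [Fintype V] [DecidableEq V]

section

variable {q : ℕ} (ω : V → Fin q) (G : Finset (Finset (V × Bool))) {k R : ℕ}

/-- reducibility of monomials modulo the vanishing ideal of `I` -/
def RedI (I : Finset (Finset (V × Bool))) (S : Finset V) : Prop :=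
  Red wt (fun S : Finset V => (monoK K S : (V → Bool) → K)) (Van ω K I) S

/-- the normal form modulo the vanishing ideal of `I` -/
noncomputable def NFI (I : Finset (Finset (V × Bool))) :
    ((V → Bool) → K) →ₗ[K] ((V → Bool) → K) :=
  NF wt (fun S : Finset V => (monoK K S : (V → Bool) → K)) wt_inj monoK_span (Van ω K I)

theorem NFI_zero (I : Finset (Finset (V × Bool))) (f : (V → Bool) → K) (hf : f ∈ Van ω K I) :
    NFI K ω I f = 0 := NF_zero _ _ _ _ _ _ hf

theorem NFI_irr (I : Finset (Finset (V × Bool))) (f : (V → Bool) → K)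
    (hf : f ∈ Submodule.span K ((fun S : Finset V => (monoK K S : (V → Bool) → K)) ''
      {S | ¬ RedI K ω I S})) : NFI K ω I f = f := NF_irr _ _ _ _ _ _ hf

variable {G}
  (hex : ∀ D ⊆ G, D.Nonempty → D.card ≤ 2 * R → k * D.card < 2 * (bdry ω D).card)

include hex in
/-- reducibility modulo a small set of clauses implies reducibility modulo the closure -/
theorem red_down {S : Finset V} (hS : 2 * S.card ≤ k * R) {J : Finset (Finset (V × Bool))}
    (hJ : J ⊆ G) (hJR : J.card ≤ R) (hred : RedI K ω J S) :
    RedI K ω (Cl ω G R S) S := by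
  classical
  obtain ⟨Z, ρ, hZ, hρ⟩ := exists_sat ω hex hS _ (J \ Cl ω G R S) rfl
    (sdiff_subset.trans hJ) ((card_le_card sdiff_subset).trans hJR) sdiff_disjoint
  unfold RedI Red at hred ⊢
  rw [Submodule.mem_sup] at hred
  obtain ⟨f, hf, g, hg, hfg⟩ := hred
  have h1 : Sub K Z ρ (monoK K S) = monoK K S := by
    apply Sub_mono_disj
    rw [Finset.disjoint_right]
    intro x hx hxS
    exact (hZ x hx).2.2 (mem_union_left _ hxS)
  show monoK K S ∈ _
  rw [← h1]
  have hfg' : f + g = monoK K S := hfg
  rw [← hfg', map_add]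
  apply Submodule.add_mem
  · apply Submodule.mem_sup_left
    apply Sub_Van ω Z ρ _ _ f hf
    · intro x hx
      exact ⟨(hZ x hx).1, fun h => (hZ x hx).2.2 (mem_union_right _ h)⟩
    · intro C hC
      by_cases h : C ∈ Cl ω G R S
      · left; exact h
      · right; exact hρ C (mem_sdiff.mpr ⟨hC, h⟩)
  · apply Submodule.mem_sup_right
    have h2 : Submodule.span K ((fun S : Finset V => (monoK K S : (V → Bool) → K)) ''
        {j | wt j < wt S}) ≤ (Submodule.span K ((fun S : Finset V =>
        (monoK K S : (V → Bool) → K)) '' {j | wt j < wt S})).comap (Sub K Z ρ) := by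
      rw [Submodule.span_le]
      rintro _ ⟨T, hT, rfl⟩
      rw [SetLike.mem_coe, Submodule.mem_comap]
      beta_reduce
      rcases Sub_mono (K := K) Z ρ T with h | h
      · rw [h]
        apply Submodule.subset_span
        refine ⟨T \ Z, ?_, rfl⟩
        have h3 : wt (T \ Z) ≤ wt T := wt_sub sdiff_subset
        have h4 : wt T < wt S := hT
        show wt (T \ Z) < wt S
        omega
      · rw [h]
        exact Submodule.zero_mem _
    exact h2 hg

include hex in
/-- the local normal form -/
theorem local_nf {S : Finset V} (hS : 2 * S.card ≤ k * R) :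
    ∃ r : (V → Bool) → K, (monoK K S - r) ∈ Van ω K (Cl ω G R S) ∧
      r ∈ Submodule.span K ((fun S : Finset V => (monoK K S : (V → Bool) → K)) ''
        {T | T.card ≤ S.card ∧ (∀ x ∈ T, 2 ≤ (ω x : ℕ) → x ∈ S ∪ vblS (Cl ω G R S)) ∧
          ∀ J ⊆ G, J.card ≤ R → Cl ω G R S ⊆ J → ¬ RedI K ω J T}) := by
  classical
  have h0 := exists_nf wt (fun S : Finset V => (monoK K S : (V → Bool) → K))
    (Van ω K (Cl ω G R S)) S
  rw [Submodule.mem_sup] at h0
  obtain ⟨f, hf, g, hg, hfg⟩ := h0
  let Z : Finset V := univ.filter (fun x => 2 ≤ (ω x : ℕ) ∧ x ∉ S ∪ vblS (Cl ω G R S))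
  have hZ : ∀ x, x ∈ Z ↔ 2 ≤ (ω x : ℕ) ∧ x ∉ S ∪ vblS (Cl ω G R S) := by
    intro x
    simp only [Z, mem_filter, mem_univ, true_and]
  have h1 : Sub K Z (fun _ => false) (monoK K S) = monoK K S := by
    apply Sub_mono_disj
    rw [Finset.disjoint_right]
    intro x hx hxS
    exact ((hZ x).mp hx).2 (mem_union_left _ hxS)
  have hfg' : f + g = monoK K S := hfg
  refine ⟨Sub K Z (fun _ => false) g, ?_, ?_⟩
  · have h2 : monoK K S - Sub K Z (fun _ => false) g = Sub K Z (fun _ => false) f := by
      rw [← h1, ← hfg', map_add, add_sub_cancel_right]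
    rw [h2]
    apply Sub_Van ω Z _ _ _ f hf
    · intro x hx
      exact ⟨((hZ x).mp hx).1, fun h => ((hZ x).mp hx).2 (mem_union_right _ h)⟩
    · intro C hC
      left; exact hC
  · have h2 : Submodule.span K ((fun S : Finset V => (monoK K S : (V → Bool) → K)) ''
        {j | wt j ≤ wt S ∧ ¬ Red wt (fun S : Finset V => (monoK K S : (V → Bool) → K))
          (Van ω K (Cl ω G R S)) j}) ≤ (Submodule.span K ((fun S : Finset V =>
        (monoK K S : (V → Bool) → K)) ''
        {T | T.card ≤ S.card ∧ (∀ x ∈ T, 2 ≤ (ω x : ℕ) → x ∈ S ∪ vblS (Cl ω G R S)) ∧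
          ∀ J ⊆ G, J.card ≤ R → Cl ω G R S ⊆ J → ¬ RedI K ω J T})).comap
            (Sub K Z (fun _ => false)) := by
      rw [Submodule.span_le]
      rintro _ ⟨T, ⟨hT1, hT2⟩, rfl⟩
      rw [SetLike.mem_coe, Submodule.mem_comap]
      beta_reduce
      by_cases hd : Disjoint T Z
      · rw [Sub_mono_disj Z _ T hd]
        apply Submodule.subset_span
        have hTc : T.card ≤ S.card := wt_card hT1
        have hTS : ∀ x ∈ T, 2 ≤ (ω x : ℕ) → x ∈ S ∪ vblS (Cl ω G R S) := by
          intro x hx h2x
          by_contra h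
          exact (Finset.disjoint_left.mp hd) hx ((hZ x).mpr ⟨h2x, h⟩)
        refine ⟨T, ⟨hTc, hTS, ?_⟩, rfl⟩
        intro J hJ hJR hCJ hred
        have h3 := red_down K ω hex (S := T) (by omega) hJ hJR hred
        apply hT2
        exact Red_mono _ _ (Van_mono ω (cl_mono ω hex hS (by omega) hTS)) h3
      · rw [Sub_mono_false Z T hd]
        exact Submodule.zero_mem _
    exact h2 hg

/-- the reduction operator -/
noncomputable def RO (G : Finset (Finset (V × Bool))) (R : ℕ) :
    ((V → Bool) → K) →ₗ[K] ((V → Bool) → K) :=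
  (monoB K V).constr K (fun S => NFI K ω (Cl ω G R S) (monoK K S))

theorem RO_mono (S : Finset V) :
    RO K ω G R (monoK K S) = NFI K ω (Cl ω G R S) (monoK K S) := by
  unfold RO
  rw [← monoB_apply, Module.Basis.constr_basis, monoB_apply]

include hex in
/-- the operator is the normal form modulo each small set that contains the closure -/
theorem RO_eq {S : Finset V} (hS : 2 * S.card ≤ k * R) {J : Finset (Finset (V × Bool))}
    (hJ : J ⊆ G) (hJR : J.card ≤ R) (hCJ : Cl ω G R S ⊆ J) :
    RO K ω G R (monoK K S) = NFI K ω J (monoK K S) := by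
  classical
  rw [RO_mono]
  obtain ⟨r, hr1, hr2⟩ := local_nf K ω hex hS
  have key : ∀ J' ⊆ G, J'.card ≤ R → Cl ω G R S ⊆ J' → NFI K ω J' (monoK K S) = r := by
    intro J' hJ' hJR' hCJ'
    have h1 : NFI K ω J' r = r := by
      apply NFI_irr
      apply Submodule.span_mono _ hr2
      apply Set.image_mono
      rintro T ⟨_, _, hT⟩
      exact hT J' hJ' hJR' hCJ'
    have h2 : NFI K ω J' (monoK K S - r) = 0 :=
      NFI_zero K ω J' _ (Van_mono ω hCJ' hr1)
    rw [map_sub, sub_eq_zero] at h2
    rw [h2, h1]
  rw [key J hJ hJR hCJ, key _ (cl_sub ω S) (cl_spec ω hex hS).1 (Subset.refl _)]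

include hex in
/-- extension to spans -/
theorem RO_span {W : Finset V} (hW : 2 * W.card ≤ k * R) (n : ℕ) (hn : 2 * n ≤ k * R)
    (f : (V → Bool) → K) (hf : f ∈ Submodule.span K
      ((fun S : Finset V => (monoK K S : (V → Bool) → K)) ''
        {T | T.card ≤ n ∧ ∀ x ∈ T, 2 ≤ (ω x : ℕ) → x ∈ W ∪ vblS (Cl ω G R W)})) :
    RO K ω G R f = NFI K ω (Cl ω G R W) f := by
  classical
  induction hf using Submodule.span_induction with
  | mem f hf =>
    obtain ⟨T, ⟨hTn, hT⟩, rfl⟩ := hf
    show RO K ω G R (monoK K T) = NFI K ω (Cl ω G R W) (monoK K T)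
    exact RO_eq K ω hex (by omega) (cl_sub ω W) (cl_spec ω hex hW).1
      (cl_mono ω hex hW (by omega) hT)
  | zero => rw [map_zero, map_zero]
  | add x y _ _ hx hy => rw [map_add, map_add, hx, hy]
  | smul r x _ hx => rw [map_smul, map_smul, hx]

include hex in
theorem RO_sub {W : Finset V} (hW : 2 * W.card ≤ k * R)
    (f : (V → Bool) → K) (hf : f ∈ Submodule.span K
      ((fun S : Finset V => (monoK K S : (V → Bool) → K)) '' {T | T ⊆ W})) :
    RO K ω G R f = NFI K ω (Cl ω G R W) f := by
  apply RO_span K ω hex hW W.card hW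
  apply Submodule.span_mono _ hf
  apply Set.image_mono
  intro T hT
  exact ⟨card_le_card hT, fun x hx _ => mem_union_left _ (hT hx)⟩

omit [Fintype V] in
/-- the axioms as combinations of monomials -/
theorem violK_mem [Fintype V] (C : Finset (V × Bool)) : violK K C ∈ Submodule.span K
    ((fun S : Finset V => (monoK K S : (V → Bool) → K)) '' {T | T ⊆ vbl C}) := by
  classical
  induction C using Finset.induction_on with
  | empty =>
    have h : violK K (∅ : Finset (V × Bool)) = monoK K (∅ : Finset V) := by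
      funext a; simp [violK, monoK]
    rw [h]
    apply Submodule.subset_span
    exact ⟨∅, empty_subset _, rfl⟩
  | insert l C hl ih =>
    have hsub : vbl C ⊆ vbl (insert l C) := by
      unfold vbl
      exact image_subset_image (subset_insert _ _)
    have hl1 : l.1 ∈ vbl (insert l C) := by
      unfold vbl
      exact mem_image_of_mem _ (mem_insert_self _ _)
    have h1 : violK K C ∈ Submodule.span K
        ((fun S : Finset V => (monoK K S : (V → Bool) → K)) '' {T | T ⊆ vbl (insert l C)}) := by
      apply Submodule.span_mono _ ih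
      apply Set.image_mono
      intro T hT
      exact (show T ⊆ vbl C from hT).trans hsub
    have h2 : (fun a => monoK K {l.1} a * violK K C a) ∈ Submodule.span K
        ((fun S : Finset V => (monoK K S : (V → Bool) → K)) '' {T | T ⊆ vbl (insert l C)}) := by
      have h3 : Submodule.span K
          ((fun S : Finset V => (monoK K S : (V → Bool) → K)) '' {T | T ⊆ vbl (insert l C)}) ≤
          (Submodule.span K
          ((fun S : Finset V => (monoK K S : (V → Bool) → K)) '' {T | T ⊆ vbl (insert l C)})).comap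
          (LinearMap.mulLeft K (monoK K {l.1} : (V → Bool) → K)) := by
        rw [Submodule.span_le]
        rintro _ ⟨T, hT, rfl⟩
        rw [SetLike.mem_coe, Submodule.mem_comap]
        apply Submodule.subset_span
        refine ⟨{l.1} ∪ T, ?_, ?_⟩
        · show {l.1} ∪ T ⊆ vbl (insert l C)
          exact union_subset (singleton_subset_iff.mpr hl1) hT
        · funext a
          show monoK K ({l.1} ∪ T) a = monoK K {l.1} a * monoK K T a
          rw [monoK_mul]
      exact h3 h1
    by_cases hb : l.2 = true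
    · have h : violK K (insert l C) =
          violK K C - (fun a => monoK K {l.1} a * violK K C a) := by
        funext a
        simp only [violK, monoK, Pi.sub_apply, mem_insert, forall_eq_or_imp, mem_singleton,
          forall_eq]
        rw [hb]
        by_cases h4 : a l.1 = true
        · simp [h4]
        · simp [h4]
      rw [h]
      exact Submodule.sub_mem _ h1 h2
    · have h : violK K (insert l C) = (fun a => monoK K {l.1} a * violK K C a) := by
        funext a
        simp only [violK, monoK, mem_insert, forall_eq_or_imp, mem_singleton, forall_eq]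
        have hb' : l.2 = false := by simpa using hb
        rw [hb']
        by_cases h4 : a l.1 = true
        · simp [h4]
        · simp [h4]
      rw [h]
      exact h2

include hex in
/-- the operator kills the axioms -/
theorem RO_ax {F : Finset (Finset (V × Bool))} (hG : ∀ C, C ∈ G ↔ C ∈ F ∧ surv ω C)
    (hk : IsKCNF k F) (hR : 2 ≤ R) (C : Finset (V × Bool)) (hC : C ∈ F) :
    RO K ω G R (violK K C) = 0 := by
  classical
  have hW : 2 * (vbl C).card ≤ k * R := by
    rw [(hk C hC).2, mul_comm]
    exact Nat.mul_le_mul_left k hR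
  rw [RO_sub K ω hex hW _ (violK_mem K C)]
  apply NFI_zero
  rw [mem_Van]
  intro a ha
  unfold violK
  rw [if_neg]
  intro hv
  by_cases hs : surv ω C
  · have h1 : ({C} : Finset (Finset (V × Bool))) ⊆ Cl ω G R (vbl C) := by
      apply sub_cl ω
      · rw [singleton_subset_iff, hG]
        exact ⟨hC, hs⟩
      · rw [card_singleton]; omega
      · intro x hx
        rw [mem_bdry] at hx
        obtain ⟨_, C', hC', hxC', _⟩ := hx
        rw [mem_singleton] at hC'
        rw [← hC']
        exact hxC'
    obtain ⟨l, hl, hla⟩ := ha.2 C (h1 (mem_singleton_self C))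
    exact hv l hl hla
  · unfold surv at hs
    push Not at hs
    obtain ⟨l, hl, hle⟩ := hs
    have hlt : (ω l.1 : ℕ) < 2 := by rw [hle]; cases l.2 <;> simp
    apply hv l hl
    rw [ha.1 l.1 hlt, hle]
    cases l.2 <;> simp

include hex in
/-- the operator and multiplication by a variable -/
theorem RO_mul (x : V) {d : ℕ} (hd : 2 * (d + 1) ≤ k * R) (f : (V → Bool) → K)
    (hf : DegLEK K d f) :
    RO K ω G R (fun a => monoK K {x} a * f a) =
      RO K ω G R (fun a => monoK K {x} a * (RO K ω G R f) a) := by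
  classical
  let M : ((V → Bool) → K) →ₗ[K] ((V → Bool) → K) :=
    LinearMap.mulLeft K (monoK K {x} : (V → Bool) → K)
  have hM : ∀ g : (V → Bool) → K, (fun a => monoK K {x} a * g a) = M g := fun g => rfl
  rw [hM, hM]
  have hMm : ∀ T : Finset V, M (monoK K T) = monoK K ({x} ∪ T) := by
    intro T
    funext a
    show monoK K {x} a * monoK K T a = monoK K ({x} ∪ T) a
    rw [monoK_mul]
  have key : ∀ S : Finset V, S.card ≤ d → RO K ω G R (M (monoK K S)) =
      RO K ω G R (M (RO K ω G R (monoK K S))) := by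
    intro S hS
    have hS2 : 2 * S.card ≤ k * R := by omega
    obtain ⟨r, hr1, hr2⟩ := local_nf K ω hex hS2
    have hRr : RO K ω G R (monoK K S) = r := by
      rw [RO_mono]
      have h1 : NFI K ω (Cl ω G R S) r = r := by
        apply NFI_irr
        apply Submodule.span_mono _ hr2
        apply Set.image_mono
        rintro T ⟨_, _, hT⟩
        exact hT _ (cl_sub ω S) (cl_spec ω hex hS2).1 (Subset.refl _)
      have h2 := NFI_zero K ω (Cl ω G R S) _ hr1
      rw [map_sub, sub_eq_zero] at h2
      rw [h2, h1]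
    rw [hRr]
    have hcW : ({x} ∪ S : Finset V).card ≤ d + 1 := by
      have := card_union_le {x} S
      rw [card_singleton] at this
      omega
    have hW : 2 * ({x} ∪ S : Finset V).card ≤ k * R := by omega
    have hCC : Cl ω G R S ⊆ Cl ω G R ({x} ∪ S) :=
      cl_mono' ω hex hW hS2 subset_union_right
    have e1 : RO K ω G R (M (monoK K S)) = NFI K ω (Cl ω G R ({x} ∪ S)) (M (monoK K S)) := by
      rw [hMm]
      exact RO_eq K ω hex hW (cl_sub ω _) (cl_spec ω hex hW).1 (Subset.refl _)
    have e2 : RO K ω G R (M r) = NFI K ω (Cl ω G R ({x} ∪ S)) (M r) := by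
      apply RO_span K ω hex hW (d + 1) hd
      have h3 : Submodule.span K ((fun S : Finset V => (monoK K S : (V → Bool) → K)) ''
        {T | T.card ≤ S.card ∧ (∀ x ∈ T, 2 ≤ (ω x : ℕ) → x ∈ S ∪ vblS (Cl ω G R S)) ∧
          ∀ J ⊆ G, J.card ≤ R → Cl ω G R S ⊆ J → ¬ RedI K ω J T}) ≤
          (Submodule.span K ((fun S : Finset V => (monoK K S : (V → Bool) → K)) ''
            {T | T.card ≤ d + 1 ∧ ∀ y ∈ T, 2 ≤ (ω y : ℕ) →
              y ∈ ({x} ∪ S) ∪ vblS (Cl ω G R ({x} ∪ S))})).comap M := by
        rw [Submodule.span_le]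
        rintro _ ⟨T, ⟨hT1, hT2, _⟩, rfl⟩
        rw [SetLike.mem_coe, Submodule.mem_comap]
        beta_reduce
        rw [hMm]
        apply Submodule.subset_span
        refine ⟨{x} ∪ T, ⟨?_, ?_⟩, rfl⟩
        · have := card_union_le {x} T
          rw [card_singleton] at this
          omega
        · intro y hy h2y
          rcases mem_union.mp hy with h | h
          · exact mem_union_left _ (mem_union_left _ h)
          · rcases mem_union.mp (hT2 y h h2y) with h' | h'
            · exact mem_union_left _ (mem_union_right _ h')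
            · apply mem_union_right
              unfold vblS at h' ⊢
              rw [mem_biUnion] at h' ⊢
              obtain ⟨C, hC, hyC⟩ := h'
              exact ⟨C, hCC hC, hyC⟩
      exact h3 hr2
    have e3 : NFI K ω (Cl ω G R ({x} ∪ S)) (M (monoK K S - r)) = 0 := by
      apply NFI_zero
      rw [← hM]
      exact Van_mul ω _ _ (Van_mono ω hCC hr1)
    rw [map_sub, map_sub, sub_eq_zero] at e3
    rw [e1, e2, e3]
  unfold DegLEK at hf
  induction hf using Submodule.span_induction with
  | mem f hf =>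
    obtain ⟨S, hS, rfl⟩ := hf
    exact key S hS
  | zero => simp only [map_zero]
  | add u v _ _ hu hv => simp only [map_add]; rw [hu, hv]
  | smul c u _ hu => simp only [map_smul]; rw [hu]

include hex in
theorem RO_one : RO K ω G R (monoK K (∅ : Finset V)) = monoK K ∅ := by
  classical
  rw [RO_mono]
  apply NFI_irr
  apply Submodule.subset_span
  refine ⟨∅, ?_, rfl⟩
  intro hred
  unfold RedI Red at hred
  have h1 : {j : Finset V | wt j < wt (∅ : Finset V)} = ∅ := by
    ext j
    simp only [Set.mem_ofPred_eq, Set.mem_empty_iff_false, iff_false, not_lt]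
    exact wt_sub (empty_subset j)
  rw [h1, Set.image_empty, Submodule.span_empty, sup_bot_eq, cl_empty ω hex] at hred
  rw [mem_Van] at hred
  have h2 := hred (fun x => decide ((ω x : ℕ) = 1)) ⟨fun x _ => rfl, by simp⟩
  beta_reduce at h2
  rw [monoK_empty] at h2
  exact one_ne_zero h2

include hex in
/-- no refutation of small degree -/
theorem no_pc {F : Finset (Finset (V × Bool))} (hG : ∀ C, C ∈ G ↔ C ∈ F ∧ surv ω C)
    (hk : IsKCNF k F) (hR : 2 ≤ R) {d : ℕ} (hd : 2 * (d + 1) ≤ k * R) :
    ¬ PCRefutable K d F := by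
  classical
  intro href
  have key : ∀ f : (V → Bool) → K, PCDerivable K d F f → DegLEK K d f ∧ RO K ω G R f = 0 := by
    intro f hf
    induction hf with
    | ax C hC hdC => exact ⟨hdC, RO_ax K ω hex hG hk hR C hC⟩
    | lin α β f g _ _ hf hg =>
      have e : (fun a => α * f a + β * g a) = α • f + β • g := rfl
      rw [e]
      refine ⟨Submodule.add_mem _ (Submodule.smul_mem _ _ hf.1) (Submodule.smul_mem _ _ hg.1), ?_⟩
      rw [map_add, map_smul, map_smul, hf.2, hg.2, smul_zero, smul_zero, add_zero]
    | mul x f _ hdeg hf =>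
      refine ⟨hdeg, ?_⟩
      rw [RO_mul K ω hex x hd f hf.1, hf.2]
      have e : (fun a => monoK K {x} a * (0 : (V → Bool) → K) a) = 0 := by
        funext a
        simp
      rw [e, map_zero]
  have h1 := (key _ href).2
  have e : (fun _ => (1 : K) : (V → Bool) → K) = monoK K (∅ : Finset V) := by
    funext a; rw [monoK_empty]
  rw [e, RO_one K ω hex] at h1
  have h2 := congrFun h1 (fun _ => true)
  rw [monoK_empty] at h2
  exact one_ne_zero h2

end

/-- the degree bound -/
theorem pc_bound (c k : ℕ) (hk0 : kk c ≤ k) (F : Finset (Finset (V × Bool)))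
    (hk : IsKCNF k F) (hl : IsLinear F) (hM : F.card ≤ 2 ^ (c * k)) (d : ℕ)
    (hd : (d : ℝ) ≤ (2 : ℝ) ^ ((k : ℝ) / 2 ^ (4 * c + 17))) : ¬ PCRefutable K d F := by
  classical
  obtain ⟨h8, _, h4⟩ := kk_big c k hk0
  have hq := qq_pos c
  have ht3 : 3 ≤ tt c := by have := tt_ge c; omega
  have hRpos : 8 ≤ RR c k := by
    unfold RR
    have h1 : 3 ≤ k / (32 * qq c) := by
      rw [Nat.le_div_iff_mul_le (by omega)]
      have : 32 * qq c ≤ (32 * qq c) ^ 2 := Nat.le_self_pow (by norm_num) _
      omega
    calc 8 = 2 ^ 3 := by norm_num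
      _ ≤ 2 ^ (k / (32 * qq c)) := Nat.pow_le_pow_right (by norm_num) h1
  obtain ⟨ω, hω1, hω2, _⟩ := exists_restr k (qq c) (tt c) (RR c k) F hk hl (by omega)
    (by omega) ht3 (num_mt c k hk0) (fun s h2 hs => num_h1 c k F.card hk0 hM s h2 hs)
    (num_h2 c k F.card hM) ∅ 0 (by simp)
  have hbd : ∀ D ⊆ F.filter (fun C => surv ω C), D.Nonempty → D.card ≤ 2 * RR c k →
      k * D.card < 2 * (bdry ω D).card := by
    intro D hDF hne hDR
    have hs : ∀ C ∈ D, surv ω C := fun C hC => (mem_filter.mp (hDF hC)).2
    have hDF' : D ⊆ F := fun C hC => (mem_filter.mp (hDF hC)).1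
    apply bdry_card k F hk ω D hDF' (hω1 D hDF' hne hDR hs)
    intro C hC
    exact hω2 C (hDF' hC) (hs C hC)
  have hdR : d ≤ 2 * RR c k := by
    have h1 := RR_ge c k
    unfold yy at h1
    have h2 : (d : ℝ) ≤ 2 * RR c k := hd.trans h1
    exact_mod_cast h2
  apply no_pc K ω hbd (fun C => mem_filter) hk (by omega)
  have h1 : 8 * RR c k ≤ k * RR c k := Nat.mul_le_mul_right _ h8
  omega

end Pool.Agent.LKCNF
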