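import Pool.Agent.LKCNF.Restr

set_option autoImplicit false
set_option linter.unusedSectionVars false

/-
Closures: the largest small set of surviving clauses whose boundary lies in a given set.
-/

namespace Pool.Agent.LKCNF

open Finset

variable {V : Type} [Fintype V] [DecidableEq V]

section

variable {q : ℕ} (ω : V → Fin q) {G : Finset (Finset (V × Bool))} {k R : ℕ}
  (hex : ∀ D ⊆ G, D.Nonempty → D.card ≤ 2 * R → k * D.card < 2 * (bdry ω D).card)

theorem bdry_union (I J : Finset (Finset (V × Bool))) : bdry ω (I ∪ J) ⊆ bdry ω I ∪ bdry ω J := by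
  intro x hx
  rw [mem_bdry] at hx
  obtain ⟨h2, C, hC, hxC, hu⟩ := hx
  rw [mem_union, mem_bdry, mem_bdry]
  rcases mem_union.mp hC with h | h
  · left
    exact ⟨h2, C, h, hxC, fun D hD hxD => hu D (mem_union_left _ hD) hxD⟩
  · right
    exact ⟨h2, C, h, hxC, fun D hD hxD => hu D (mem_union_right _ hD) hxD⟩

include hex in
theorem small_of_bdry {I : Finset (Finset (V × Bool))} {S : Finset V} (hI : I ⊆ G)
    (hI2 : I.card ≤ 2 * R) (hb : bdry ω I ⊆ S) (hS : 2 * S.card ≤ k * R) : I.card ≤ R := by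
  classical
  by_cases hne : I.Nonempty
  · have h1 := hex I hI hne hI2
    have h2 := card_le_card hb
    have h3 : k * I.card < k * R := by omega
    exact (Nat.lt_of_mul_lt_mul_left h3).le
  · rw [not_nonempty_iff_eq_empty] at hne
    rw [hne]
    simp

/-- the closure of `S`: all clauses that lie in a small set of clauses with boundary in `S` -/
noncomputable def Cl (G : Finset (Finset (V × Bool))) (R : ℕ) (S : Finset V) :
    Finset (Finset (V × Bool)) := by
  classical
  exact G.filter (fun C => ∃ J ⊆ G, J.card ≤ R ∧ bdry ω J ⊆ S ∧ C ∈ J)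

theorem cl_sub (S : Finset V) : Cl ω G R S ⊆ G := by
  classical
  unfold Cl
  exact filter_subset _ _

theorem sub_cl {J : Finset (Finset (V × Bool))} {S : Finset V} (hJ : J ⊆ G) (hR : J.card ≤ R)
    (hb : bdry ω J ⊆ S) : J ⊆ Cl ω G R S := by
  classical
  intro C hC
  unfold Cl
  rw [mem_filter]
  exact ⟨hJ hC, J, hJ, hR, hb, hC⟩

include hex in
theorem cl_spec {S : Finset V} (hS : 2 * S.card ≤ k * R) :
    (Cl ω G R S).card ≤ R ∧ bdry ω (Cl ω G R S) ⊆ S := by
  classical
  let fam : Finset (Finset (Finset (V × Bool))) :=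
    G.powerset.filter (fun J => J.card ≤ R ∧ bdry ω J ⊆ S)
  have hne : fam.Nonempty := by
    refine ⟨∅, ?_⟩
    simp only [fam, mem_filter, mem_powerset]
    refine ⟨empty_subset _, by simp, ?_⟩
    intro x hx
    rw [mem_bdry] at hx
    obtain ⟨_, C, hC, _⟩ := hx
    simp at hC
  obtain ⟨I, hI, hmax⟩ := exists_max_image fam card hne
  simp only [fam, mem_filter, mem_powerset] at hI hmax
  have h1 : Cl ω G R S = I := by
    apply Subset.antisymm
    · intro C hC
      unfold Cl at hC
      rw [mem_filter] at hC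
      obtain ⟨_, J, hJ, hJR, hJb, hCJ⟩ := hC
      have hu : bdry ω (I ∪ J) ⊆ S :=
        (bdry_union ω I J).trans (union_subset hI.2.2 hJb)
      have hug : I ∪ J ⊆ G := union_subset hI.1 hJ
      have hu2 : (I ∪ J).card ≤ 2 * R := (card_union_le _ _).trans (by omega)
      have h2 := small_of_bdry ω hex hug hu2 hu hS
      have h3 := hmax (I ∪ J) ⟨hug, h2, hu⟩
      have h4 : I = I ∪ J := eq_of_subset_of_card_le subset_union_left h3
      rw [h4]
      exact mem_union_right _ hCJ
    · exact sub_cl ω hI.1 hI.2.1 hI.2.2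
  rw [h1]
  exact hI.2

include hex in
/-- a small set of clauses whose boundary lies in `S` and the variables of the closure is
contained in the closure -/
theorem absorb {S : Finset V} (hS : 2 * S.card ≤ k * R) {D : Finset (Finset (V × Bool))}
    (hD : D ⊆ G) (hDR : D.card ≤ R) (hb : bdry ω D ⊆ S ∪ vblS (Cl ω G R S)) :
    D ⊆ Cl ω G R S := by
  classical
  obtain ⟨h1, h2⟩ := cl_spec ω hex hS
  have h3 : bdry ω (D ∪ Cl ω G R S) ⊆ S := by
    intro x hx
    have hx' := hx
    rw [mem_bdry] at hx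
    obtain ⟨hf, C, hC, hxC, hu⟩ := hx
    by_cases h : x ∈ vblS (Cl ω G R S)
    · unfold vblS at h
      rw [mem_biUnion] at h
      obtain ⟨C', hC', hxC'⟩ := h
      apply h2
      rw [mem_bdry]
      refine ⟨hf, C', hC', hxC', ?_⟩
      intro E hE hxE
      rw [hu E (mem_union_right _ hE) hxE, hu C' (mem_union_right _ hC') hxC']
    · have hCD : C ∈ D := by
        rcases mem_union.mp hC with h' | h'
        · exact h'
        · exfalso
          apply h
          unfold vblS
          rw [mem_biUnion]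
          exact ⟨C, h', hxC⟩
      have h4 : x ∈ bdry ω D := by
        rw [mem_bdry]
        exact ⟨hf, C, hCD, hxC, fun E hE hxE => hu E (mem_union_left _ hE) hxE⟩
      rcases mem_union.mp (hb h4) with h5 | h5
      · exact h5
      · exact absurd h5 h
  have h4 : (D ∪ Cl ω G R S).card ≤ R := by
    apply small_of_bdry ω hex (union_subset hD (cl_sub ω S)) _ h3 hS
    exact (card_union_le _ _).trans (by omega)
  exact subset_union_left.trans (sub_cl ω (union_subset hD (cl_sub ω S)) h4 h3)

include hex in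
/-- the closure of a set inside `S`, the variables of the closure of `S` and the fixed variables
is contained in the closure of `S` -/
theorem cl_mono {S T : Finset V} (hS : 2 * S.card ≤ k * R) (hT : 2 * T.card ≤ k * R)
    (hTS : ∀ x ∈ T, 2 ≤ (ω x : ℕ) → x ∈ S ∪ vblS (Cl ω G R S)) :
    Cl ω G R T ⊆ Cl ω G R S := by
  classical
  obtain ⟨h1, h2⟩ := cl_spec ω hex hT
  apply absorb ω hex hS (cl_sub ω T) h1
  intro x hx
  apply hTS x (h2 hx)
  rw [mem_bdry] at hx
  exact hx.1

include hex in
theorem cl_mono' {S T : Finset V} (hS : 2 * S.card ≤ k * R) (hT : 2 * T.card ≤ k * R)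
    (hTS : T ⊆ S) : Cl ω G R T ⊆ Cl ω G R S :=
  cl_mono ω hex hS hT (fun _ hx _ => mem_union_left _ (hTS hx))

include hex in
theorem cl_empty : Cl ω G R ∅ = ∅ := by
  classical
  obtain ⟨h1, h2⟩ := cl_spec (S := ∅) ω hex (by simp)
  by_contra hne
  rw [← Ne, ← nonempty_iff_ne_empty] at hne
  have h3 := hex _ (cl_sub ω ∅) hne (by omega)
  rw [subset_empty] at h2
  rw [h2, card_empty] at h3
  omega

include hex in
/-- small sets of clauses outside the closure can be satisfied outside `S` and the variables of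
the closure -/
theorem exists_sat {S : Finset V} (hS : 2 * S.card ≤ k * R) (n : ℕ) :
    ∀ D : Finset (Finset (V × Bool)), D.card = n → D ⊆ G → D.card ≤ R →
      Disjoint D (Cl ω G R S) →
      ∃ (Z : Finset V) (ρ : V → Bool), (∀ x ∈ Z, 2 ≤ (ω x : ℕ) ∧ x ∈ vblS D ∧
        x ∉ S ∪ vblS (Cl ω G R S)) ∧ ∀ C ∈ D, ∃ l ∈ C, l.1 ∈ Z ∧ ρ l.1 = l.2 := by
  classical
  induction n with
  | zero =>
    intro D hD _ _ _
    rw [card_eq_zero] at hD
    subst hD
    exact ⟨∅, fun _ => true, by simp, by simp⟩
  | succ n ih =>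
    intro D hD hDG hDR hdis
    have hne : D.Nonempty := by rw [← card_pos]; omega
    have h1 : ¬ bdry ω D ⊆ S ∪ vblS (Cl ω G R S) := by
      intro h
      have h2 := absorb ω hex hS hDG hDR h
      obtain ⟨C, hC⟩ := hne
      exact (Finset.disjoint_left.mp hdis) hC (h2 hC)
    rw [Finset.not_subset] at h1
    obtain ⟨y, hy, hyn⟩ := h1
    rw [mem_bdry] at hy
    obtain ⟨hf, C, hC, hyC, hu⟩ := hy
    have hc := card_erase_of_mem hC
    obtain ⟨Z, ρ, hZ, hρ⟩ := ih (D.erase C) (by omega) ((erase_subset _ _).trans hDG)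
      (by omega) (hdis.mono_left (erase_subset _ _))
    rw [mem_vbl] at hyC
    obtain ⟨b, hb⟩ := hyC
    have hyZ : y ∉ Z := by
      intro h
      have h3 := (hZ y h).2.1
      unfold vblS at h3
      rw [mem_biUnion] at h3
      obtain ⟨C', hC', hyC'⟩ := h3
      rw [mem_erase] at hC'
      exact hC'.1 (hu C' hC'.2 hyC')
    refine ⟨insert y Z, fun x => if x = y then b else ρ x, ?_, ?_⟩
    · intro x hx
      rw [mem_insert] at hx
      rcases hx with rfl | hx
      · refine ⟨hf, ?_, hyn⟩
        unfold vblS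
        rw [mem_biUnion]
        exact ⟨C, hC, (mem_vbl C x).mpr ⟨b, hb⟩⟩
      · obtain ⟨h3, h4, h5⟩ := hZ x hx
        refine ⟨h3, ?_, h5⟩
        unfold vblS at h4 ⊢
        rw [mem_biUnion] at h4 ⊢
        obtain ⟨C', hC', hx'⟩ := h4
        exact ⟨C', mem_of_mem_erase hC', hx'⟩
    · intro C' hC'
      by_cases he : C' = C
      · subst he
        exact ⟨(y, b), hb, mem_insert_self _ _, by simp⟩
      · obtain ⟨l, hl, hlZ, hlρ⟩ := hρ C' (mem_erase.mpr ⟨he, hC'⟩)
        refine ⟨l, hl, mem_insert_of_mem hlZ, ?_⟩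
        have h6 : l.1 ≠ y := fun h => hyZ (h ▸ hlZ)
        simp only
        rw [if_neg h6]
        exact hlρ

end

end Pool.Agent.LKCNF
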