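import Pool.Agent.LKCNF.Defs

set_option autoImplicit false

namespace Pool.Agent.LKCNF

/-- the monomial `∏ x ∈ S, x` as a `K`-valued function on assignments (true is 1, false is 0) -/
def monoK (K : Type) [Field K] {V : Type} (S : Finset V) (a : V → Bool) : K :=
  if ∀ x ∈ S, a x = true then 1 else 0

/-- the `K`-valued functions on assignments given by a multilinear polynomial of degree at
most `d` -/
def DegLEK (K : Type) [Field K] {V : Type} (d : ℕ) (f : (V → Bool) → K) : Prop :=
  f ∈ Submodule.span K {g : (V → Bool) → K | ∃ S : Finset V, S.card ≤ d ∧ g = monoK K S}

/-- the polynomial that is 1 on the assignments falsifying the clause `C`, and 0 otherwise -/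
def violK (K : Type) [Field K] {V : Type} (C : Finset (V × Bool)) (a : V → Bool) : K :=
  if ∀ l ∈ C, a l.1 ≠ l.2 then 1 else 0

/-- the polynomials derivable from the axioms `viol C`, `C ∈ F`, in the polynomial calculus over
the field `K` with all lines of degree at most `d`; lines are multilinear polynomials (polynomials
modulo `x² = x`), that is functions on assignments; a line is an axiom, a linear combination of
earlier lines or the product of an earlier line with a variable -/
inductive PCDerivable (K : Type) [Field K] {V : Type} (d : ℕ) (F : Finset (Finset (V × Bool))) :
    ((V → Bool) → K) → Prop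
  | ax (C : Finset (V × Bool)) (hC : C ∈ F) (hd : DegLEK K d (violK K C)) :
      PCDerivable K d F (violK K C)
  | lin (α β : K) (f g : (V → Bool) → K) (hf : PCDerivable K d F f)
      (hg : PCDerivable K d F g) : PCDerivable K d F (fun a => α * f a + β * g a)
  | mul (x : V) (f : (V → Bool) → K) (hf : PCDerivable K d F f)
      (hd : DegLEK K d (fun a => monoK K {x} a * f a)) :
      PCDerivable K d F (fun a => monoK K {x} a * f a)

/-- a polynomial calculus refutation over `K` of degree at most `d`: a derivation of `1` -/
def PCRefutable (K : Type) [Field K] {V : Type} (d : ℕ) (F : Finset (Finset (V × Bool))) :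
    Prop :=
  PCDerivable K d F (fun _ => 1)

end Pool.Agent.LKCNF
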