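import Pool.Agent.LKCNF.PCLin
import Pool.Agent.LKCNF.PCClos
import Pool.Agent.LKCNF.PCDefs

set_option autoImplicit false
set_option linter.unusedSectionVars false

/-
Functions on the cube: monomials, substitutions, vanishing ideals.
-/

namespace Pool.Agent.LKCNF

open Finset

variable {K : Type} [Field K] {V : Type} [Fintype V] [DecidableEq V]

/-! ### the weight -/

/-- a graded injective weight on sets of variables -/
noncomputable def wt (S : Finset V) : ℕ :=
  S.card * Fintype.card (Finset V) + (Fintype.equivFin (Finset V) S : ℕ)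

theorem wt_lt {S T : Finset V} (h : S.card < T.card) : wt S < wt T := by
  unfold wt
  have h1 := (Fintype.equivFin (Finset V) S).isLt
  have h2 : (S.card + 1) * Fintype.card (Finset V) ≤ T.card * Fintype.card (Finset V) :=
    Nat.mul_le_mul_right _ h
  rw [add_mul, one_mul] at h2
  omega

theorem wt_inj : Function.Injective (wt : Finset V → ℕ) := by
  intro S T h
  have hc : S.card = T.card := by
    rcases lt_trichotomy S.card T.card with h1 | h1 | h1
    · have := wt_lt h1; omega
    · exact h1
    · have := wt_lt h1; omega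
  unfold wt at h
  rw [hc] at h
  have h1 : (Fintype.equivFin (Finset V) S : ℕ) = (Fintype.equivFin (Finset V) T : ℕ) := by omega
  exact (Fintype.equivFin (Finset V)).injective (Fin.ext h1)

theorem wt_card {S T : Finset V} (h : wt S ≤ wt T) : S.card ≤ T.card := by
  by_contra hc
  push Not at hc
  have := wt_lt hc
  omega

theorem wt_sub {S T : Finset V} (h : S ⊆ T) : wt S ≤ wt T := by
  by_cases he : S = T
  · rw [he]
  · exact (wt_lt (card_lt_card (Finset.ssubset_iff_subset_ne.mpr ⟨h, he⟩))).le

/-! ### monomials -/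

theorem monoK_mul (S T : Finset V) (a : V → Bool) :
    monoK K S a * monoK K T a = monoK K (S ∪ T) a := by
  unfold monoK
  by_cases h1 : ∀ x ∈ S, a x = true
  · by_cases h2 : ∀ x ∈ T, a x = true
    · rw [if_pos h1, if_pos h2, if_pos, one_mul]
      intro x hx
      rcases mem_union.mp hx with h | h
      · exact h1 x h
      · exact h2 x h
    · rw [if_pos h1, if_neg h2, if_neg, mul_zero]
      intro h
      exact h2 (fun x hx => h x (mem_union_right _ hx))
  · rw [if_neg h1, zero_mul, if_neg]
    intro h
    exact h1 (fun x hx => h x (mem_union_left _ hx))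

theorem monoK_empty (a : V → Bool) : monoK K (∅ : Finset V) a = 1 := by
  unfold monoK; simp

theorem monoK_li : LinearIndependent K (fun S : Finset V => (monoK K S : (V → Bool) → K)) := by
  classical
  rw [Fintype.linearIndependent_iff]
  intro g hg
  by_contra hcon
  push Not at hcon
  obtain ⟨S0, hS0⟩ := hcon
  obtain ⟨S, hS, hmin⟩ := exists_min_image (univ.filter (fun S : Finset V => g S ≠ 0)) card
    ⟨S0, by simp [hS0]⟩
  rw [mem_filter] at hS
  have h1 := congrFun hg (fun x => decide (x ∈ S))
  rw [Finset.sum_apply] at h1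
  rw [sum_eq_single S] at h1
  · apply hS.2
    have h2 : monoK K S (fun x => decide (x ∈ S)) = 1 := by
      unfold monoK
      rw [if_pos]
      intro x hx
      simp [hx]
    simp only [Pi.smul_apply, smul_eq_mul, Pi.zero_apply] at h1
    rw [h2, mul_one] at h1
    exact h1
  · intro T _ hT
    simp only [Pi.smul_apply, smul_eq_mul]
    by_cases hTS : T ⊆ S
    · have h3 : g T = 0 := by
        by_contra h3
        have h4 := hmin T (by simp [h3])
        exact hT (eq_of_subset_of_card_le hTS h4)
      rw [h3, zero_mul]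
    · have h2 : monoK K T (fun x => decide (x ∈ S)) = 0 := by
        unfold monoK
        rw [if_neg]
        intro h
        apply hTS
        intro x hx
        simpa using h x hx
      rw [h2, mul_zero]
  · intro h; exact absurd (mem_univ _) h

/-- the basis of monomials -/
noncomputable def monoB (K : Type) [Field K] (V : Type) [Fintype V] [DecidableEq V] :
    Module.Basis (Finset V) K ((V → Bool) → K) :=
  basisOfLinearIndependentOfCardEqFinrank (monoK_li (K := K) (V := V)) (by
    rw [Module.finrank_fintype_fun_eq_card, Fintype.card_fun, Fintype.card_bool,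
      Fintype.card_finset])

theorem monoB_apply (S : Finset V) : monoB K V S = monoK K S := by
  unfold monoB
  rw [coe_basisOfLinearIndependentOfCardEqFinrank]

theorem monoK_span : Submodule.span K (Set.range (fun S : Finset V =>
    (monoK K S : (V → Bool) → K))) = ⊤ := by
  have h := (monoB K V).span_eq
  have h2 : (fun S : Finset V => (monoK K S : (V → Bool) → K)) = ⇑(monoB K V) := by
    funext S; rw [monoB_apply]
  rw [h2]
  exact h

/-! ### substitutions -/

/-- overwrite `a` by `ρ` on `Z` -/
def ovw (Z : Finset V) (ρ a : V → Bool) : V → Bool := fun x => if x ∈ Z then ρ x else a x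

/-- the substitution -/
def Sub (K : Type) [Field K] (Z : Finset V) (ρ : V → Bool) :
    ((V → Bool) → K) →ₗ[K] ((V → Bool) → K) where
  toFun f := fun a => f (ovw Z ρ a)
  map_add' _ _ := rfl
  map_smul' _ _ := rfl

theorem Sub_mono (Z : Finset V) (ρ : V → Bool) (S : Finset V) :
    Sub K Z ρ (monoK K S) = monoK K (S \ Z) ∨ Sub K Z ρ (monoK K S) = 0 := by
  classical
  by_cases h : ∀ x ∈ S, x ∈ Z → ρ x = true
  · left
    funext a
    show monoK K S (ovw Z ρ a) = monoK K (S \ Z) a
    unfold monoK
    congr 1
    rw [eq_iff_iff]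
    constructor
    · intro h1 x hx
      rw [mem_sdiff] at hx
      have h2 := h1 x hx.1
      unfold ovw at h2
      rw [if_neg hx.2] at h2
      exact h2
    · intro h1 x hx
      unfold ovw
      split_ifs with h2
      · exact h x hx h2
      · exact h1 x (mem_sdiff.mpr ⟨hx, h2⟩)
  · right
    push Not at h
    obtain ⟨x, hx, hxZ, hρ⟩ := h
    funext a
    show monoK K S (ovw Z ρ a) = 0
    unfold monoK
    rw [if_neg]
    intro h1
    have h2 := h1 x hx
    unfold ovw at h2
    rw [if_pos hxZ] at h2
    exact hρ h2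

theorem Sub_mono_disj (Z : Finset V) (ρ : V → Bool) (S : Finset V) (h : Disjoint S Z) :
    Sub K Z ρ (monoK K S) = monoK K S := by
  classical
  funext a
  show monoK K S (ovw Z ρ a) = monoK K S a
  unfold monoK
  congr 1
  rw [eq_iff_iff]
  apply forall₂_congr
  intro x hx
  unfold ovw
  rw [if_neg (Finset.disjoint_left.mp h hx)]

theorem Sub_mono_false (Z : Finset V) (S : Finset V) (h : ¬ Disjoint S Z) :
    Sub K Z (fun _ => false) (monoK K S) = 0 := by
  classical
  rw [Finset.not_disjoint_iff] at h
  obtain ⟨x, hx, hxZ⟩ := h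
  funext a
  show monoK K S (ovw Z (fun _ => false) a) = 0
  unfold monoK
  rw [if_neg]
  intro h1
  have h2 := h1 x hx
  unfold ovw at h2
  rw [if_pos hxZ] at h2
  simp at h2

/-! ### vanishing ideals -/

section

variable {q : ℕ} (ω : V → Fin q)

/-- the assignments that extend the restriction and satisfy the clauses of `I` -/
def SatI (I : Finset (Finset (V × Bool))) (a : V → Bool) : Prop :=
  (∀ x, (ω x : ℕ) < 2 → a x = decide ((ω x : ℕ) = 1)) ∧ ∀ C ∈ I, SatC a C

/-- the functions that vanish on these assignments -/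
def Van (K : Type) [Field K] (I : Finset (Finset (V × Bool))) : Submodule K ((V → Bool) → K) where
  carrier := {f | ∀ a, SatI ω I a → f a = 0}
  add_mem' := by
    intro f g hf hg a ha
    show f a + g a = 0
    rw [hf a ha, hg a ha, add_zero]
  zero_mem' := fun _ _ => rfl
  smul_mem' := by
    intro c f hf a ha
    show c * f a = 0
    rw [hf a ha, mul_zero]

theorem mem_Van (I : Finset (Finset (V × Bool))) (f : (V → Bool) → K) :
    f ∈ Van ω K I ↔ ∀ a, SatI ω I a → f a = 0 := Iff.rfl

theorem Van_mono {I J : Finset (Finset (V × Bool))} (h : I ⊆ J) : Van ω K I ≤ Van ω K J := by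
  intro f hf
  rw [mem_Van] at hf ⊢
  intro a ha
  exact hf a ⟨ha.1, fun C hC => ha.2 C (h hC)⟩

theorem Van_mul {I : Finset (Finset (V × Bool))} (g f : (V → Bool) → K) (hf : f ∈ Van ω K I) :
    (fun a => g a * f a) ∈ Van ω K I := by
  rw [mem_Van] at hf ⊢
  intro a ha
  rw [hf a ha, mul_zero]

/-- substitutions of free variables outside `I` that satisfy `J \ I` -/
theorem Sub_Van {I J : Finset (Finset (V × Bool))} (Z : Finset V) (ρ : V → Bool)
    (hZ : ∀ x ∈ Z, 2 ≤ (ω x : ℕ) ∧ x ∉ vblS I)
    (hJ : ∀ C ∈ J, C ∈ I ∨ ∃ l ∈ C, l.1 ∈ Z ∧ ρ l.1 = l.2) (f : (V → Bool) → K)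
    (hf : f ∈ Van ω K J) : Sub K Z ρ f ∈ Van ω K I := by
  classical
  rw [mem_Van] at hf ⊢
  intro a ha
  show f (ovw Z ρ a) = 0
  apply hf
  refine ⟨?_, ?_⟩
  · intro x hx
    unfold ovw
    rw [if_neg]
    · exact ha.1 x hx
    · intro h
      have := (hZ x h).1
      omega
  · intro C hC
    rcases hJ C hC with h | ⟨l, hl, hlZ, hlρ⟩
    · obtain ⟨l, hl, hla⟩ := ha.2 C h
      refine ⟨l, hl, ?_⟩
      unfold ovw
      rw [if_neg]
      · exact hla
      · intro hlZ
        apply (hZ l.1 hlZ).2
        unfold vblS
        rw [mem_biUnion]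
        exact ⟨C, h, (mem_vbl C l.1).mpr ⟨l.2, hl⟩⟩
    · refine ⟨l, hl, ?_⟩
      unfold ovw
      rw [if_pos hlZ]
      exact hlρ

end

end Pool.Agent.LKCNF
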