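import Mathlib

set_option autoImplicit false
set_option linter.unusedSectionVars false

/-
Standard monomials of a subspace with respect to a weight.
-/

namespace Pool.Agent.LKCNF

open Finset

section

variable {K : Type} [Field K] {ι : Type} {E : Type} [AddCommGroup E] [Module K E]
  (w : ι → ℕ) (m : ι → E)

/-- `i` is reducible modulo `A` -/
def Red (A : Submodule K E) (i : ι) : Prop :=
  m i ∈ A ⊔ Submodule.span K (m '' {j | w j < w i})

/-- the span of the irreducible monomials -/
def Irr (A : Submodule K E) : Submodule K E := Submodule.span K (m '' {j | ¬ Red w m A j})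

theorem Red_mono {A B : Submodule K E} (h : A ≤ B) {i : ι} (hi : Red w m A i) : Red w m B i := by
  unfold Red at hi ⊢
  exact sup_le_sup_right h _ hi

theorem exists_nf (A : Submodule K E) (i : ι) :
    m i ∈ A ⊔ Submodule.span K (m '' {j | w j ≤ w i ∧ ¬ Red w m A j}) := by
  suffices h : ∀ n : ℕ, ∀ i : ι, w i = n →
      m i ∈ A ⊔ Submodule.span K (m '' {j | w j ≤ w i ∧ ¬ Red w m A j}) from h _ i rfl
  intro n
  induction n using Nat.strong_induction_on with
  | _ n ih =>
    intro i hi
    by_cases hr : Red w m A i
    · have h1 : A ⊔ Submodule.span K (m '' {j | w j < w i}) ≤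
          A ⊔ Submodule.span K (m '' {j | w j ≤ w i ∧ ¬ Red w m A j}) := by
        apply sup_le le_sup_left
        rw [Submodule.span_le]
        rintro _ ⟨j, hj, rfl⟩
        have hj' : w j < w i := hj
        have h2 := ih (w j) (by omega) j rfl
        refine (sup_le_sup_left (Submodule.span_mono ?_) A) h2
        apply Set.image_mono
        rintro l ⟨hl, hl'⟩
        exact ⟨by omega, hl'⟩
      exact h1 hr
    · apply (le_sup_right : _ ≤ A ⊔ Submodule.span K (m '' {j | w j ≤ w i ∧ ¬ Red w m A j}))
      exact Submodule.subset_span ⟨i, ⟨le_refl _, hr⟩, rfl⟩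

variable (hw : Function.Injective w)

include hw in
theorem irr_disj (A : Submodule K E) : Disjoint (Irr w m A) A := by
  classical
  rw [Submodule.disjoint_def]
  intro x hx hxA
  unfold Irr at hx
  rw [Finsupp.mem_span_image_iff_linearCombination] at hx
  obtain ⟨l, hl, hlx⟩ := hx
  by_contra hne
  have hl0 : l ≠ 0 := by
    rintro rfl
    apply hne
    rw [← hlx, map_zero]
  have hsn : l.support.Nonempty := Finsupp.support_nonempty_iff.mpr hl0
  obtain ⟨i, hi, hmax⟩ := exists_max_image l.support w hsn
  have hli : l i ≠ 0 := Finsupp.mem_support_iff.mp hi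
  have hnr : ¬ Red w m A i := (Finsupp.mem_supported K l).mp hl (mem_coe.mpr hi)
  apply hnr
  unfold Red
  have h1 : x = l i • m i + ∑ j ∈ l.support.erase i, l j • m j := by
    rw [← hlx, Finsupp.linearCombination_apply, Finsupp.sum, ← add_sum_erase _ _ hi]
  have h2 : m i = (l i)⁻¹ • x + (-(l i)⁻¹) • ∑ j ∈ l.support.erase i, l j • m j := by
    rw [h1, smul_add, smul_smul, inv_mul_cancel₀ hli, one_smul, neg_smul]
    abel
  rw [h2]
  apply Submodule.add_mem
  · exact Submodule.mem_sup_left (A.smul_mem _ hxA)
  · apply Submodule.mem_sup_right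
    apply Submodule.smul_mem
    apply Submodule.sum_mem
    intro j hj
    apply Submodule.smul_mem
    apply Submodule.subset_span
    refine ⟨j, ?_, rfl⟩
    rw [mem_erase] at hj
    have h3 := hmax j hj.2
    have h4 : w j ≠ w i := fun h => hj.1 (hw h)
    show w j < w i
    omega

theorem irr_codisj (hm : Submodule.span K (Set.range m) = ⊤) (A : Submodule K E) :
    Codisjoint (Irr w m A) A := by
  rw [codisjoint_iff, eq_top_iff, ← hm, Submodule.span_le]
  rintro _ ⟨i, rfl⟩
  have h := exists_nf w m A i
  rw [SetLike.mem_coe, sup_comm]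
  refine (sup_le_sup_left (Submodule.span_mono ?_) A) h
  apply Set.image_mono
  rintro l ⟨_, hl⟩
  exact hl

include hw in
theorem irr_compl (hm : Submodule.span K (Set.range m) = ⊤) (A : Submodule K E) :
    IsCompl (Irr w m A) A :=
  ⟨irr_disj w m hw A, irr_codisj w m hm A⟩

/-- the normal form modulo `A` -/
noncomputable def NF (hm : Submodule.span K (Set.range m) = ⊤) (A : Submodule K E) : E →ₗ[K] E :=
  (Irr w m A).projection A (irr_compl w m hw hm A)

theorem NF_irr (hm : Submodule.span K (Set.range m) = ⊤) (A : Submodule K E) (f : E)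
    (hf : f ∈ Irr w m A) : NF w m hw hm A f = f :=
  Submodule.projection_apply_of_mem_left _ hf

theorem NF_zero (hm : Submodule.span K (Set.range m) = ⊤) (A : Submodule K E) (f : E)
    (hf : f ∈ A) : NF w m hw hm A f = 0 :=
  Submodule.projection_apply_of_mem_right _ hf

end

end Pool.Agent.LKCNF
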