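import Pool.Agent.LKCNF.Defs

set_option autoImplicit false

namespace Pool.Agent.LKCNF

/-- the product of the polynomial `f` with the monomial `m`. A monomial is a finite set of
literals (the variable `(x, b)` stands for `x = b`), a polynomial over `K` is given by its
coefficients `f m`; powers are reduced (`l * l = l`) -/
def mulMon {K V : Type} [Field K] [Fintype V] [DecidableEq V] (m : Finset (V × Bool))
    (f : Finset (V × Bool) → K) : Finset (V × Bool) → K :=
  fun M => ∑ s : Finset (V × Bool), if m ∪ s = M then f s else 0

/-- the polynomial with the single monomial `m` -/
def monP (K : Type) {V : Type} [Field K] [DecidableEq V] (m : Finset (V × Bool)) :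
    Finset (V × Bool) → K :=
  fun M => if M = m then 1 else 0

/-- the monomial that is 1 exactly on the assignments that falsify the clause `C` -/
def negC {V : Type} [DecidableEq V] (C : Finset (V × Bool)) : Finset (V × Bool) :=
  C.image (fun l => (l.1, !l.2))

/-- derivations in the polynomial calculus with resolution (PCR) over the field `K` from the
clauses of `F`, as lists of polynomials, the newest first: a line is the monomial `negC C` of a
clause `C ∈ F`, or a complementarity axiom `x + x̄ - 1`, or a linear combination of two earlier
lines, or the product of an earlier line with a monomial -/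
inductive PCRDerivation (K : Type) [Field K] {V : Type} [Fintype V] [DecidableEq V]
    (F : Finset (Finset (V × Bool))) : List (Finset (V × Bool) → K) → Prop
  | nil : PCRDerivation K F []
  | ax (L : List (Finset (V × Bool) → K)) (C : Finset (V × Bool)) (hL : PCRDerivation K F L)
      (hC : C ∈ F) : PCRDerivation K F (monP K (negC C) :: L)
  | compl (L : List (Finset (V × Bool) → K)) (x : V) (hL : PCRDerivation K F L) :
      PCRDerivation K F ((monP K {(x, true)} + monP K {(x, false)} - monP K ∅) :: L)
  | lin (L : List (Finset (V × Bool) → K)) (α β : K) (f g : Finset (V × Bool) → K)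
      (hL : PCRDerivation K F L) (hf : f ∈ L) (hg : g ∈ L) :
      PCRDerivation K F ((α • f + β • g) :: L)
  | mul (L : List (Finset (V × Bool) → K)) (m : Finset (V × Bool)) (f : Finset (V × Bool) → K)
      (hL : PCRDerivation K F L) (hf : f ∈ L) : PCRDerivation K F (mulMon m f :: L)

/-- a PCR refutation of `F`: a derivation that contains the polynomial `1` -/
def IsPCRRefutation (K : Type) [Field K] {V : Type} [Fintype V] [DecidableEq V]
    (F : Finset (Finset (V × Bool))) (L : List (Finset (V × Bool) → K)) : Prop :=
  PCRDerivation K F L ∧ monP K ∅ ∈ L

open Classical in
/-- the monomials that occur in the lines of `L` -/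
noncomputable def mons {K V : Type} [Field K] [Fintype V] [DecidableEq V]
    (L : List (Finset (V × Bool) → K)) : Finset (Finset (V × Bool)) :=
  Finset.univ.filter (fun m => ∃ f ∈ L, f m ≠ 0)

end Pool.Agent.LKCNF
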