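import Pool.Agent.LKCNF.PC
import Pool.Agent.LKCNF.PCRDefs

set_option autoImplicit false
set_option linter.unusedSectionVars false

/-
Size and degree bounds for the polynomial calculus with resolution.
-/

namespace Pool.Agent.LKCNF

open Finset

variable (K : Type) [Field K] {V : Type} [Fintype V] [DecidableEq V]

/-- the value of a monomial in the literals -/
def litK (m : Finset (V × Bool)) (a : V → Bool) : K := if ∀ l ∈ m, a l.1 = l.2 then 1 else 0

theorem litK_union (m s : Finset (V × Bool)) :
    (litK K (m ∪ s) : (V → Bool) → K) = fun a => litK K m a * litK K s a := by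
  funext a
  unfold litK
  by_cases h1 : ∀ l ∈ m, a l.1 = l.2
  · by_cases h2 : ∀ l ∈ s, a l.1 = l.2
    · rw [if_pos h1, if_pos h2, if_pos, one_mul]
      intro l hl
      rcases mem_union.mp hl with h | h
      · exact h1 l h
      · exact h2 l h
    · rw [if_pos h1, if_neg h2, if_neg, mul_zero]
      intro h
      exact h2 (fun l hl => h l (mem_union_right _ hl))
  · rw [if_neg h1, zero_mul, if_neg]
    intro h
    exact h1 (fun l hl => h l (mem_union_left _ hl))

theorem litK_empty : (litK K (∅ : Finset (V × Bool)) : (V → Bool) → K) = monoK K ∅ := by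
  funext a; simp [litK, monoK]

theorem litK_negC (C : Finset (V × Bool)) :
    (litK K (negC C) : (V → Bool) → K) = violK K C := by
  funext a
  unfold litK violK negC
  congr 1
  rw [eq_iff_iff]
  constructor
  · intro h l hl
    have h1 := h (l.1, !l.2) (mem_image_of_mem _ hl)
    simp only at h1
    rw [h1]
    cases l.2 <;> simp
  · intro h l hl
    rw [mem_image] at hl
    obtain ⟨l', hl', rfl⟩ := hl
    have h1 := h l' hl'
    simp only
    cases h2 : a l'.1 <;> cases h3 : l'.2 <;> rw [h2, h3] at h1 <;> simp at h1 ⊢

theorem litK_single (l : V × Bool) (a : V → Bool) :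
    litK K {l} a = if l.2 then monoK K {l.1} a else 1 - monoK K {l.1} a := by
  unfold litK monoK
  simp only [mem_singleton, forall_eq]
  cases h : l.2
  · cases h2 : a l.1 <;> simp
  · simp

theorem vbl_negC (C : Finset (V × Bool)) : vbl (negC C) = vbl C := by
  ext x
  rw [mem_vbl, mem_vbl]
  unfold negC
  constructor
  · rintro ⟨b, hb⟩
    rw [mem_image] at hb
    obtain ⟨l, hl, he⟩ := hb
    exact ⟨l.2, by
      have : l.1 = x := congrArg Prod.fst he
      rw [← this]; exact hl⟩
  · rintro ⟨b, hb⟩
    exact ⟨!b, mem_image.mpr ⟨(x, b), hb, rfl⟩⟩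

theorem vbl_mono {m M : Finset (V × Bool)} (h : m ⊆ M) : vbl m ⊆ vbl M :=
  image_subset_image h

theorem degLEK_mono {d e : ℕ} (h : d ≤ e) {f : (V → Bool) → K} (hf : DegLEK K d f) :
    DegLEK K e f := by
  unfold DegLEK at hf ⊢
  refine Submodule.span_mono ?_ hf
  rintro g ⟨S, hS, rfl⟩
  exact ⟨S, hS.trans h, rfl⟩

theorem degLEK_mul (x : V) {d : ℕ} {f : (V → Bool) → K} (hf : DegLEK K d f) :
    DegLEK K (d + 1) (fun a => monoK K {x} a * f a) := by
  unfold DegLEK at hf ⊢
  have h : Submodule.span K {g : (V → Bool) → K | ∃ S : Finset V, S.card ≤ d ∧ g = monoK K S} ≤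
      (Submodule.span K {g : (V → Bool) → K | ∃ S : Finset V, S.card ≤ d + 1 ∧
        g = monoK K S}).comap (LinearMap.mulLeft K (monoK K {x} : (V → Bool) → K)) := by
    rw [Submodule.span_le]
    rintro _ ⟨S, hS, rfl⟩
    rw [SetLike.mem_coe, Submodule.mem_comap]
    apply Submodule.subset_span
    refine ⟨{x} ∪ S, ?_, ?_⟩
    · have := card_union_le {x} S
      rw [card_singleton] at this
      omega
    · funext a
      show monoK K {x} a * monoK K S a = _
      rw [monoK_mul]
  exact h hf

theorem degLEK_lit (l : V × Bool) {d : ℕ} {f : (V → Bool) → K} (hf : DegLEK K d f) :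
    DegLEK K (d + 1) (fun a => litK K {l} a * f a) := by
  have h1 := degLEK_mul K l.1 hf
  have h2 := degLEK_mono K (Nat.le_succ d) hf
  by_cases hb : l.2 = true
  · have e : (fun a => litK K {l} a * f a) = (fun a => monoK K {l.1} a * f a) := by
      funext a; rw [litK_single, if_pos hb]
    rw [e]; exact h1
  · have e : (fun a => litK K {l} a * f a) = f - (fun a => monoK K {l.1} a * f a) := by
      funext a
      rw [litK_single, if_neg hb]
      simp only [Pi.sub_apply]
      ring
    rw [e]
    exact Submodule.sub_mem _ h2 h1

/-- the degree of a monomial is at most the number of its variables -/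
theorem degLEK_litK (m : Finset (V × Bool)) : DegLEK K (vbl m).card (litK K m) := by
  classical
  induction m using Finset.induction_on with
  | empty =>
    rw [litK_empty]
    apply Submodule.subset_span
    exact ⟨∅, by simp, rfl⟩
  | insert l m hl ih =>
    have e : (litK K (insert l m) : (V → Bool) → K) = fun a => litK K {l} a * litK K m a := by
      rw [insert_eq, litK_union]
    by_cases hx : l.1 ∈ vbl m
    · -- the variable occurs already
      have hv : vbl (insert l m) = vbl m := by
        unfold vbl at hx ⊢
        rw [image_insert, insert_eq_self.mpr hx]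
      rw [hv]
      -- litK {l} * litK m is litK m or 0
      rw [mem_vbl] at hx
      obtain ⟨b, hb⟩ := hx
      have hb2 : b ≠ l.2 := by
        intro h
        apply hl
        rw [h] at hb
        exact hb
      have h0 : (litK K (insert l m) : (V → Bool) → K) = 0 := by
        funext a
        unfold litK
        rw [if_neg]
        · rfl
        · intro h
          have h1 := h l (mem_insert_self _ _)
          have h2 := h (l.1, b) (mem_insert_of_mem hb)
          simp only at h2
          exact hb2 (h2.symm.trans h1)
      rw [h0]
      exact Submodule.zero_mem _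
    · have hv : (vbl (insert l m)).card = (vbl m).card + 1 := by
        unfold vbl at hx ⊢
        rw [image_insert, card_insert_of_notMem hx]
      rw [hv, e]
      exact degLEK_lit K l ih

section

variable {q : ℕ} (ω : V → Fin q) {G : Finset (Finset (V × Bool))} {k R : ℕ}

/-- no literal of the monomial `m` is falsified by the restriction -/
def alive (m : Finset (V × Bool)) : Prop := surv ω (negC m)

theorem alive_union (m s : Finset (V × Bool)) : alive ω (m ∪ s) ↔ alive ω m ∧ alive ω s := by
  unfold alive surv negC
  rw [image_union]
  constructor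
  · intro h
    exact ⟨fun l hl => h l (mem_union_left _ hl), fun l hl => h l (mem_union_right _ hl)⟩
  · rintro ⟨h1, h2⟩ l hl
    rcases mem_union.mp hl with h | h
    · exact h1 l h
    · exact h2 l h

open Classical in
/-- the restricted value of a polynomial -/
noncomputable def EW : (Finset (V × Bool) → K) →ₗ[K] ((V → Bool) → K) :=
  ∑ m ∈ univ.filter (fun m => alive ω m),
    (LinearMap.proj m : (Finset (V × Bool) → K) →ₗ[K] K).smulRight (litK K m)

open Classical in
theorem EW_apply (f : Finset (V × Bool) → K) :
    EW K ω f = ∑ m ∈ univ.filter (fun m => alive ω m), f m • (litK K m : (V → Bool) → K) := by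
  unfold EW
  rw [LinearMap.sum_apply]
  rfl

theorem EW_mon (m : Finset (V × Bool)) (h : alive ω m) : EW K ω (monP K m) = litK K m := by
  classical
  rw [EW_apply, sum_eq_single m]
  · unfold monP; simp
  · intro M _ hM
    unfold monP
    rw [if_neg hM, zero_smul]
  · intro h'
    exact absurd (by rw [mem_filter]; exact ⟨mem_univ _, h⟩) h'

theorem EW_mon_dead (m : Finset (V × Bool)) (h : ¬ alive ω m) : EW K ω (monP K m) = 0 := by
  classical
  rw [EW_apply]
  apply sum_eq_zero
  intro M hM
  unfold monP
  rw [if_neg, zero_smul]
  rintro rfl
  exact h (mem_filter.mp hM).2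

theorem EW_mul (m : Finset (V × Bool)) (f : Finset (V × Bool) → K) (h : alive ω m) :
    EW K ω (mulMon m f) = fun a => litK K m a * (EW K ω f) a := by
  classical
  rw [EW_apply, EW_apply]
  have h1 : ∀ M ∈ univ.filter (fun M => alive ω M), mulMon m f M • (litK K M : (V → Bool) → K) =
      ∑ s : Finset (V × Bool), if m ∪ s = M then f s • (litK K M : (V → Bool) → K) else 0 := by
    intro M _
    unfold mulMon
    rw [sum_smul]
    apply sum_congr rfl
    intro s _
    split_ifs
    · rfl
    · rw [zero_smul]
  rw [sum_congr rfl h1, sum_comm]
  have h2 : ∀ s : Finset (V × Bool), (∑ M ∈ univ.filter (fun M => alive ω M),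
      if m ∪ s = M then f s • (litK K M : (V → Bool) → K) else 0) =
      if alive ω s then f s • (litK K (m ∪ s) : (V → Bool) → K) else 0 := by
    intro s
    rw [sum_ite_eq]
    congr 1
    rw [mem_filter, eq_iff_iff, alive_union]
    simp [h]
  rw [sum_congr rfl (fun s _ => h2 s), ← sum_filter]
  funext a
  rw [Finset.sum_apply, Finset.sum_apply, mul_sum]
  apply sum_congr rfl
  intro s _
  rw [litK_union]
  simp only [Pi.smul_apply, smul_eq_mul]
  ring

theorem EW_mul_dead (m : Finset (V × Bool)) (f : Finset (V × Bool) → K) (h : ¬ alive ω m) :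
    EW K ω (mulMon m f) = 0 := by
  classical
  rw [EW_apply]
  apply sum_eq_zero
  intro M hM
  have h1 : mulMon m f M = 0 := by
    unfold mulMon
    apply sum_eq_zero
    intro s _
    rw [if_neg]
    rintro rfl
    exact h ((alive_union ω m s).mp (mem_filter.mp hM).2).1
  rw [h1, zero_smul]

/-- all alive monomials of `f` have fewer than `w` variables -/
def narrow (w : ℕ) (f : Finset (V × Bool) → K) : Prop :=
  ∀ m, f m ≠ 0 → alive ω m → (vbl m).card < w

theorem EW_deg {w : ℕ} {f : Finset (V × Bool) → K} (hf : narrow K ω w f) :
    DegLEK K w (EW K ω f) := by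
  classical
  rw [EW_apply]
  apply Submodule.sum_mem
  intro m hm
  by_cases h0 : f m = 0
  · rw [h0, zero_smul]
    exact Submodule.zero_mem _
  · apply Submodule.smul_mem
    exact degLEK_mono K (hf m h0 (mem_filter.mp hm).2).le (degLEK_litK K m)

variable
  (hex : ∀ D ⊆ G, D.Nonempty → D.card ≤ 2 * R → k * D.card < 2 * (bdry ω D).card)

include hex in
theorem RO_lit (l : V × Bool) {d : ℕ} (hd : 2 * (d + 1) ≤ k * R) {f : (V → Bool) → K}
    (hf : DegLEK K d f) (hR : RO K ω G R f = 0) :
    RO K ω G R (fun a => litK K {l} a * f a) = 0 := by
  have h1 : RO K ω G R (fun a => monoK K {l.1} a * f a) = 0 := by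
    rw [RO_mul K ω hex l.1 hd f hf, hR]
    have e : (fun a => monoK K {l.1} a * (0 : (V → Bool) → K) a) = 0 := by
      funext a
      simp
    rw [e, map_zero]
  by_cases hb : l.2 = true
  · have e : (fun a => litK K {l} a * f a) = (fun a => monoK K {l.1} a * f a) := by
      funext a; rw [litK_single, if_pos hb]
    rw [e]; exact h1
  · have e : (fun a => litK K {l} a * f a) = f - (fun a => monoK K {l.1} a * f a) := by
      funext a
      rw [litK_single, if_neg hb]
      simp only [Pi.sub_apply]
      ring
    rw [e, map_sub, h1, hR, sub_zero]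

include hex in
/-- multiplication by a monomial with few variables -/
theorem RO_litm (m : Finset (V × Bool)) {d : ℕ} {f : (V → Bool) → K}
    (hf : DegLEK K d f) (hR : RO K ω G R f = 0) (hd : 2 * (d + (vbl m).card) ≤ k * R) :
    DegLEK K (d + (vbl m).card) (fun a => litK K m a * f a) ∧
      RO K ω G R (fun a => litK K m a * f a) = 0 := by
  classical
  induction m using Finset.induction_on with
  | empty =>
    have e : (fun a => litK K (∅ : Finset (V × Bool)) a * f a) = f := by
      funext a
      rw [litK_empty, monoK_empty, one_mul]
    rw [e]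
    exact ⟨degLEK_mono K (Nat.le_add_right _ _) hf, hR⟩
  | insert l m hl ih =>
    have e : (fun a => litK K (insert l m) a * f a) =
        fun a => litK K {l} a * (litK K m a * f a) := by
      rw [insert_eq, litK_union]
      funext a
      ring
    by_cases hx : l.1 ∈ vbl m
    · rw [mem_vbl] at hx
      obtain ⟨b, hb⟩ := hx
      have hb2 : b ≠ l.2 := by
        intro h
        apply hl
        rw [h] at hb
        exact hb
      have h0 : (fun a => litK K (insert l m) a * f a) = (0 : (V → Bool) → K) := by
        funext a
        have : (litK K (insert l m) a : K) = 0 := by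
          unfold litK
          rw [if_neg]
          intro h
          have h1 := h l (mem_insert_self _ _)
          have h2 := h (l.1, b) (mem_insert_of_mem hb)
          simp only at h2
          exact hb2 (h2.symm.trans h1)
        rw [this, zero_mul]
        rfl
      rw [h0, map_zero]
      exact ⟨Submodule.zero_mem _, rfl⟩
    · have hv : (vbl (insert l m)).card = (vbl m).card + 1 := by
        unfold vbl at hx ⊢
        rw [image_insert, card_insert_of_notMem hx]
      rw [hv] at hd ⊢
      obtain ⟨h1, h2⟩ := ih (by omega)
      rw [e]
      exact ⟨degLEK_lit K l h1, RO_lit K ω hex l (by omega) h1 h2⟩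

include hex in
/-- the operator kills the complementarity axioms -/
theorem RO_compl (hkR : 2 ≤ k * R) (x : V) :
    RO K ω G R (EW K ω (monP K {(x, true)} + monP K {(x, false)} - monP K ∅)) = 0 := by
  classical
  have hemp : alive ω (∅ : Finset (V × Bool)) := by
    unfold alive surv negC
    simp
  rw [map_sub, map_add, EW_mon K ω ∅ hemp]
  have hsum : (litK K {(x, true)} + litK K {(x, false)} : (V → Bool) → K) = litK K ∅ := by
    funext a
    simp only [Pi.add_apply]
    rw [litK_single, litK_single, litK_empty, monoK_empty]
    simp
  have hal : ∀ b : Bool, alive ω ({(x, b)} : Finset (V × Bool)) ↔ (ω x : ℕ) ≠ (!b).toNat := by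
    intro b
    unfold alive surv negC
    simp
  -- a function in the vanishing ideal supported on `x`
  have hvan : ∀ f : (V → Bool) → K, f ∈ Van ω K ∅ → f ∈ Submodule.span K
      ((fun S : Finset V => (monoK K S : (V → Bool) → K)) '' {T | T ⊆ ({x} : Finset V)}) →
      RO K ω G R f = 0 := by
    intro f hf hf2
    rw [RO_sub K ω hex (W := {x}) (by rw [card_singleton]; omega) f hf2]
    exact NFI_zero K ω _ f (Van_mono ω (empty_subset _) hf)
  have hm1 : (monoK K ({x} : Finset V) : (V → Bool) → K) ∈ Submodule.span K
      ((fun S : Finset V => (monoK K S : (V → Bool) → K)) '' {T | T ⊆ ({x} : Finset V)}) :=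
    Submodule.subset_span ⟨{x}, Subset.refl _, rfl⟩
  have hm0 : (monoK K (∅ : Finset V) : (V → Bool) → K) ∈ Submodule.span K
      ((fun S : Finset V => (monoK K S : (V → Bool) → K)) '' {T | T ⊆ ({x} : Finset V)}) :=
    Submodule.subset_span ⟨∅, empty_subset _, rfl⟩
  by_cases h1 : alive ω ({(x, true)} : Finset (V × Bool))
  · by_cases h2 : alive ω ({(x, false)} : Finset (V × Bool))
    · rw [EW_mon K ω _ h1, EW_mon K ω _ h2, hsum, sub_self, map_zero]
    · rw [EW_mon K ω _ h1, EW_mon_dead K ω _ h2, add_zero]
      rw [hal] at h2
      push Not at h2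
      simp only [Bool.not_false, Bool.toNat_true] at h2
      have e : (litK K {(x, true)} - litK K ∅ : (V → Bool) → K) =
          monoK K {x} - monoK K ∅ := by
        funext a
        simp only [Pi.sub_apply]
        rw [litK_single, litK_empty]
        simp
      rw [e]
      apply hvan
      · rw [mem_Van]
        intro a ha
        have h3 := ha.1 x (by omega)
        rw [h2] at h3
        simp only [decide_true] at h3
        simp only [Pi.sub_apply]
        rw [monoK_empty]
        unfold monoK
        simp [h3]
      · exact Submodule.sub_mem _ hm1 hm0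
  · have h1' := h1
    rw [hal] at h1'
    push Not at h1'
    simp only [Bool.not_true, Bool.toNat_false] at h1'
    have h2 : alive ω ({(x, false)} : Finset (V × Bool)) := by
      rw [hal, h1']
      simp
    rw [EW_mon_dead K ω _ h1, EW_mon K ω _ h2, zero_add]
    have e : (litK K {(x, false)} - litK K ∅ : (V → Bool) → K) = -monoK K {x} := by
      funext a
      simp only [Pi.sub_apply, Pi.neg_apply]
      rw [litK_single, litK_empty, monoK_empty]
      simp
    rw [e]
    apply hvan
    · rw [mem_Van]
      intro a ha
      have h3 := ha.1 x (by omega)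
      rw [h1'] at h3
      simp only [zero_ne_one, decide_false] at h3
      simp only [Pi.neg_apply]
      unfold monoK
      simp [h3]
    · exact Submodule.neg_mem _ hm1

include hex in
/-- no narrow refutation -/
theorem no_pcr {F : Finset (Finset (V × Bool))} (hG : ∀ C, C ∈ G ↔ C ∈ F ∧ surv ω C)
    (hk : IsKCNF k F) (hR : 2 ≤ R) {w : ℕ} (hw1 : 1 ≤ w) (hw : 4 * w ≤ k * R)
    (L : List (Finset (V × Bool) → K)) (hL : PCRDerivation K F L)
    (hn : ∀ f ∈ L, narrow K ω w f) : ∀ f ∈ L, RO K ω G R (EW K ω f) = 0 := by
  classical
  induction hL with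
  | nil => intro f hf; simp at hf
  | ax L C hL hC ih =>
    intro f hf
    rcases List.mem_cons.mp hf with rfl | hf
    · by_cases h : alive ω (negC C)
      · rw [EW_mon K ω _ h, litK_negC]
        exact RO_ax K ω hex hG hk hR C hC
      · rw [EW_mon_dead K ω _ h, map_zero]
    · exact ih (fun g hg => hn g (List.mem_cons_of_mem _ hg)) f hf
  | compl L x hL ih =>
    intro f hf
    rcases List.mem_cons.mp hf with rfl | hf
    · exact RO_compl K ω hex (by omega) x
    · exact ih (fun g hg => hn g (List.mem_cons_of_mem _ hg)) f hf
  | lin L α β g h hL hg hh ih =>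
    intro f hf
    have ih' := ih (fun g hg => hn g (List.mem_cons_of_mem _ hg))
    rcases List.mem_cons.mp hf with rfl | hf
    · rw [map_add, map_smul, map_smul, map_add, map_smul, map_smul, ih' g hg, ih' h hh,
        smul_zero, smul_zero, add_zero]
    · exact ih' f hf
  | mul L m g hL hg ih =>
    intro f hf
    have ih' := ih (fun g hg => hn g (List.mem_cons_of_mem _ hg))
    rcases List.mem_cons.mp hf with rfl | hf
    · by_cases hal : alive ω m
      · by_cases hwm : (vbl m).card < w
        · rw [EW_mul K ω m g hal]
          exact (RO_litm K ω hex m (EW_deg K ω (hn g (List.mem_cons_of_mem _ hg))) (ih' g hg)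
            (by omega)).2
        · have h0 : EW K ω (mulMon m g) = 0 := by
            rw [EW_apply]
            apply sum_eq_zero
            intro M hM
            have h1 : mulMon m g M = 0 := by
              by_contra h1
              have h2 := hn (mulMon m g) (List.mem_cons_self) M h1 (mem_filter.mp hM).2
              have h3 : m ⊆ M := by
                by_contra h3
                apply h1
                unfold mulMon
                apply sum_eq_zero
                intro s _
                rw [if_neg]
                rintro rfl
                exact h3 subset_union_left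
              have h4 := card_le_card (vbl_mono h3)
              omega
            rw [h1, zero_smul]
          rw [h0, map_zero]
      · rw [EW_mul_dead K ω m g hal, map_zero]
    · exact ih' f hf

end

end Pool.Agent.LKCNF
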