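import Pool.Agent.LKCNF.PCR

set_option autoImplicit false
set_option linter.unusedSectionVars false

/-
Size and degree bounds for the polynomial calculus with resolution.
-/

namespace Pool.Agent.LKCNF

open Finset

theorem w_ge4 (c k : ℕ) (hk : kk c ≤ k) : 4 * yy c k - 1 ≤ ((k * RR c k / 4 : ℕ) : ℝ) / qq c := by
  obtain ⟨_, _, h4'⟩ := kk_big c k hk
  have hq := qq_pos c
  have h32 : 32 * qq c ≤ k := by
    have h1 : 32 * qq c ≤ (32 * qq c) ^ 2 := Nat.le_self_pow (by norm_num) _
    omega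
  have hqr : (4096 : ℝ) ≤ qq c := by exact_mod_cast hq
  have h32r : 32 * (qq c : ℝ) ≤ k := by exact_mod_cast h32
  have h1 : (k : ℝ) * RR c k / 4 - 1 ≤ ((k * RR c k / 4 : ℕ) : ℝ) := by
    have h2 : k * RR c k ≤ 4 * (k * RR c k / 4) + 3 := by omega
    have h3 : (k : ℝ) * RR c k ≤ 4 * ((k * RR c k / 4 : ℕ) : ℝ) + 3 := by exact_mod_cast h2
    linarith
  have h4 := RR_ge c k
  have h5 := yy_ge c k
  rw [le_div_iff₀ (by linarith)]
  have h6 : 4 * yy c k * qq c ≤ (k : ℝ) * RR c k / 4 := by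
    have h7 : 32 * (qq c : ℝ) * yy c k ≤ k * (2 * RR c k) :=
      mul_le_mul h32r h4 (by linarith) (by linarith)
    linarith
  have e : (4 * yy c k - 1) * (qq c : ℝ) = 4 * yy c k * qq c - qq c := by ring
  rw [e]
  linarith

theorem num_h4 (c k : ℕ) (hk : kk c ≤ k) (S : ℕ) (hS : (S : ℝ) < (2 : ℝ) ^ (yy c k)) :
    (S : ℝ) * Real.exp (-((k * RR c k / 4 : ℕ) : ℝ) / qq c) ≤ 1 / 4 := by
  have h1 := w_ge4 c k hk
  have h2 := yy_ge c k
  have h3 : (2 : ℝ) ^ (yy c k) ≤ Real.exp (0.7 * yy c k) := by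
    rw [Real.rpow_def_of_pos (by norm_num)]
    apply Real.exp_le_exp.mpr
    have := Real.log_two_lt_d9
    exact mul_le_mul_of_nonneg_right (by linarith) (by linarith)
  have h4 : Real.exp (-((k * RR c k / 4 : ℕ) : ℝ) / qq c) ≤ Real.exp (-(4 * yy c k - 1)) := by
    apply Real.exp_le_exp.mpr
    rw [neg_div]
    linarith
  calc (S : ℝ) * Real.exp (-((k * RR c k / 4 : ℕ) : ℝ) / qq c)
      ≤ Real.exp (0.7 * yy c k) * Real.exp (-(4 * yy c k - 1)) := by
        apply mul_le_mul (hS.le.trans h3) h4 (Real.exp_nonneg _) (Real.exp_nonneg _)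
    _ = Real.exp (1 - 3.3 * yy c k) := by rw [← Real.exp_add]; congr 1; ring
    _ ≤ Real.exp (-2.3) := by apply Real.exp_le_exp.mpr; linarith
    _ ≤ 1 / 4 := by
        have h5 : (4 : ℝ) ≤ Real.exp 2.3 := by
          have h6 : (2 : ℝ) * Real.log 2 = Real.log 4 := by
            rw [show (4 : ℝ) = 2 ^ 2 by norm_num, Real.log_pow]; norm_num
          rw [← Real.exp_log (by norm_num : (0 : ℝ) < 4), ← h6]
          apply Real.exp_le_exp.mpr
          have := Real.log_two_lt_d9
          linarith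
        rw [Real.exp_neg, one_div]
        exact inv_anti₀ (by norm_num) h5

variable (K : Type) [Field K] {V : Type} [Fintype V] [DecidableEq V]

theorem mem_mons (L : List (Finset (V × Bool) → K)) (m : Finset (V × Bool)) :
    m ∈ mons L ↔ ∃ f ∈ L, f m ≠ 0 := by
  classical
  unfold mons
  rw [mem_filter]
  simp

/-- no restriction can leave all alive monomials of a refutation narrow -/
theorem pcr_core (c k : ℕ) (hk0 : kk c ≤ k) (F : Finset (Finset (V × Bool)))
    (hk : IsKCNF k F) (hl : IsLinear F) (hM : F.card ≤ 2 ^ (c * k))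
    (L : List (Finset (V × Bool) → K)) (hL : IsPCRRefutation K F L)
    (Q : Finset (Finset (V × Bool)))
    (hQ : ∀ m ∈ mons L, negC m ∈ Q ∨ (vbl m).card < k * RR c k / 4)
    (hQc : (Q.card : ℝ) * Real.exp (-((k * RR c k / 4 : ℕ) : ℝ) / qq c) ≤ 1 / 4) : False := by
  classical
  obtain ⟨h8, _, h4⟩ := kk_big c k hk0
  have hq := qq_pos c
  have ht3 : 3 ≤ tt c := by have := tt_ge c; omega
  have hRpos : 8 ≤ RR c k := by
    unfold RR
    have h1 : 3 ≤ k / (32 * qq c) := by
      rw [Nat.le_div_iff_mul_le (by omega)]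
      have : 32 * qq c ≤ (32 * qq c) ^ 2 := Nat.le_self_pow (by norm_num) _
      omega
    calc 8 = 2 ^ 3 := by norm_num
      _ ≤ 2 ^ (k / (32 * qq c)) := Nat.pow_le_pow_right (by norm_num) h1
  obtain ⟨ω, hω1, hω2, hω3⟩ := exists_restr k (qq c) (tt c) (RR c k) F hk hl (by omega)
    (by omega) ht3 (num_mt c k hk0) (fun s h2 hs => num_h1 c k F.card hk0 hM s h2 hs)
    (num_h2 c k F.card hM) Q (k * RR c k / 4) hQc
  have hbd : ∀ D ⊆ F.filter (fun C => surv ω C), D.Nonempty → D.card ≤ 2 * RR c k →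
      k * D.card < 2 * (bdry ω D).card := by
    intro D hDF hne hDR
    have hs : ∀ C ∈ D, surv ω C := fun C hC => (mem_filter.mp (hDF hC)).2
    have hDF' : D ⊆ F := fun C hC => (mem_filter.mp (hDF hC)).1
    apply bdry_card k F hk ω D hDF' (hω1 D hDF' hne hDR hs)
    intro C hC
    exact hω2 C (hDF' hC) (hs C hC)
  have h64 : 64 ≤ k * RR c k := by nlinarith
  have hnar : ∀ f ∈ L, narrow K ω (k * RR c k / 4) f := by
    intro f hf m hm hal
    rcases hQ m ((mem_mons K L m).mpr ⟨f, hf, hm⟩) with h | h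
    · have h1 := hω3 (negC m) h hal
      rw [vbl_negC] at h1
      exact h1
    · exact h
  have h1 := no_pcr K ω hbd (fun C => mem_filter) hk (by omega)
    (w := k * RR c k / 4) (by omega) (by omega) L hL.1 hnar _ hL.2
  have hemp : alive ω (∅ : Finset (V × Bool)) := by
    unfold alive surv negC
    simp
  rw [EW_mon K ω _ hemp, litK_empty, RO_one K ω hbd] at h1
  have h2 := congrFun h1 (fun _ => true)
  rw [monoK_empty] at h2
  exact one_ne_zero h2

/-- the size bound and the degree bound -/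
theorem pcr_bound (c k : ℕ) (hk0 : kk c ≤ k) (F : Finset (Finset (V × Bool)))
    (hk : IsKCNF k F) (hl : IsLinear F) (hM : F.card ≤ 2 ^ (c * k))
    (L : List (Finset (V × Bool) → K)) (hL : IsPCRRefutation K F L) :
    (2 : ℝ) ^ ((2 : ℝ) ^ ((k : ℝ) / 2 ^ (4 * c + 17))) ≤ (mons L).card ∧
      ∃ m ∈ mons L, (2 : ℝ) ^ ((k : ℝ) / 2 ^ (4 * c + 17)) < (vbl m).card := by
  classical
  constructor
  · by_contra hcon
    push Not at hcon
    apply pcr_core K c k hk0 F hk hl hM L hL ((mons L).image negC)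
    · intro m hm
      left
      exact mem_image_of_mem _ hm
    · apply num_h4 c k hk0
      have h1 : (((mons L).image negC).card : ℝ) ≤ (mons L).card := by
        exact_mod_cast card_image_le
      unfold yy
      exact lt_of_le_of_lt h1 hcon
  · by_contra hcon
    push Not at hcon
    apply pcr_core K c k hk0 F hk hl hM L hL ∅
    · intro m hm
      right
      have h1 := hcon m hm
      have h2 := RR_ge c k
      unfold yy at h2
      have h3 : ((vbl m).card : ℝ) ≤ 2 * RR c k := h1.trans h2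
      have h4 : (vbl m).card ≤ 2 * RR c k := by exact_mod_cast h3
      obtain ⟨_, h16, h5⟩ := kk_big c k hk0
      have hq := qq_pos c
      have hR : 1 ≤ RR c k := by
        unfold RR
        exact Nat.one_le_two_pow
      have h6 : 16 * RR c k ≤ k * RR c k := Nat.mul_le_mul_right _ (by omega)
      omega
    · simp
end Pool.Agent.LKCNF
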