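import Pool.Agent.LKCNF.Defs

set_option autoImplicit false
set_option linter.unusedSectionVars false

/-
Counting functions `ω : α → Fin q`: the share of those that avoid (or take) a given value on a
given set.
-/

namespace Pool.Agent.LKCNF

open Finset

variable {α : Type} [Fintype α] [DecidableEq α]

/-- the share of a set of functions -/
noncomputable def P {q : ℕ} (A : Finset (α → Fin q)) : ℝ :=
  (A.card : ℝ) / (q : ℝ) ^ (Fintype.card α)

theorem P_nonneg {q : ℕ} (A : Finset (α → Fin q)) : 0 ≤ P A := by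
  unfold P; positivity

theorem P_mono {q : ℕ} {A B : Finset (α → Fin q)} (h : A ⊆ B) : P A ≤ P B := by
  unfold P
  have : (A.card : ℝ) ≤ B.card := by exact_mod_cast card_le_card h
  gcongr

theorem P_union {q : ℕ} (A B : Finset (α → Fin q)) : P (A ∪ B) ≤ P A + P B := by
  unfold P
  rw [← add_div]
  have : ((A ∪ B).card : ℝ) ≤ (A.card : ℝ) + B.card := by exact_mod_cast card_union_le A B
  gcongr

theorem P_biUnion {q : ℕ} {ι : Type} (s : Finset ι) (A : ι → Finset (α → Fin q))
    [DecidableEq (α → Fin q)] :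
    P (s.biUnion A) ≤ ∑ i ∈ s, P (A i) := by
  unfold P
  rw [← Finset.sum_div]
  have : ((s.biUnion A).card : ℝ) ≤ ∑ i ∈ s, ((A i).card : ℝ) := by
    exact_mod_cast card_biUnion_le
  gcongr

/-- if the share is less than one, some function is outside -/
theorem exists_not_mem {q : ℕ} (hq : 0 < q) (A : Finset (α → Fin q)) (h : P A < 1) :
    ∃ ω, ω ∉ A := by
  by_contra hcon
  push Not at hcon
  have hA : A = univ := by
    ext ω; simp [hcon ω]
  have : P A = 1 := by
    unfold P
    rw [hA, card_univ, Fintype.card_fun, Fintype.card_fin]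
    push_cast
    have : (0 : ℝ) < q := by exact_mod_cast hq
    field_simp
  linarith

theorem card_pi (q : ℕ) (S : α → Finset (Fin q)) :
    (univ.filter (fun ω : α → Fin q => ∀ x, ω x ∈ S x)).card = ∏ x, (S x).card := by
  classical
  rw [← Fintype.card_piFinset]
  congr 1
  ext ω
  simp [Fintype.mem_piFinset]

/-- the share of functions avoiding the value `t x` at every `x ∈ U` -/
theorem P_avoid {q : ℕ} (hq : 0 < q) (U : Finset α) (t : α → Fin q) :
    P (univ.filter (fun ω : α → Fin q => ∀ x ∈ U, ω x ≠ t x)) = (1 - 1 / (q : ℝ)) ^ U.card := by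
  classical
  have h1 : (univ.filter (fun ω : α → Fin q => ∀ x ∈ U, ω x ≠ t x)) =
      univ.filter (fun ω : α → Fin q => ∀ x, ω x ∈ (if x ∈ U then univ.erase (t x) else univ)) := by
    ext ω
    simp only [mem_filter, mem_univ, true_and]
    apply forall_congr'
    intro x
    by_cases hx : x ∈ U
    · simp [hx]
    · simp [hx]
  have hqr : (0 : ℝ) < q := by exact_mod_cast hq
  unfold P
  rw [h1, card_pi]
  push_cast
  have h2 : ∀ x, (((if x ∈ U then univ.erase (t x) else univ : Finset (Fin q)).card : ℕ) : ℝ) =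
      q * (if x ∈ U then (1 - 1 / (q : ℝ)) else 1) := by
    intro x
    by_cases hx : x ∈ U
    · simp only [hx, if_true]
      rw [card_erase_of_mem (mem_univ _), card_univ, Fintype.card_fin, Nat.cast_sub (by omega)]
      push_cast
      field_simp
    · simp only [hx, if_false]
      rw [card_univ, Fintype.card_fin]
      ring
  rw [prod_congr rfl (fun x _ => h2 x), prod_mul_distrib, prod_const, card_univ]
  rw [mul_comm, mul_div_assoc, div_self (by positivity), mul_one]
  rw [prod_ite_mem, univ_inter, prod_const]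

/-- the share of functions taking the value `t x` at every `x ∈ U` -/
theorem P_hit {q : ℕ} (hq : 0 < q) (U : Finset α) (t : α → Fin q) :
    P (univ.filter (fun ω : α → Fin q => ∀ x ∈ U, ω x = t x)) = (1 / (q : ℝ)) ^ U.card := by
  classical
  have h1 : (univ.filter (fun ω : α → Fin q => ∀ x ∈ U, ω x = t x)) =
      univ.filter (fun ω : α → Fin q => ∀ x, ω x ∈ (if x ∈ U then {t x} else univ)) := by
    ext ω
    simp only [mem_filter, mem_univ, true_and]
    apply forall_congr'
    intro x
    by_cases hx : x ∈ U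
    · simp [hx]
    · simp [hx]
  have hqr : (0 : ℝ) < q := by exact_mod_cast hq
  unfold P
  rw [h1, card_pi]
  push_cast
  have h2 : ∀ x, (((if x ∈ U then {t x} else univ : Finset (Fin q)).card : ℕ) : ℝ) =
      q * (if x ∈ U then (1 / (q : ℝ)) else 1) := by
    intro x
    by_cases hx : x ∈ U
    · simp only [hx, if_true]
      rw [card_singleton]
      push_cast
      field_simp
    · simp only [hx, if_false]
      rw [card_univ, Fintype.card_fin]
      ring
  rw [prod_congr rfl (fun x _ => h2 x), prod_mul_distrib, prod_const, card_univ]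
  rw [mul_comm, mul_div_assoc, div_self (by positivity), mul_one]
  rw [prod_ite_mem, univ_inter, prod_const]

theorem pow_le_exp (q : ℕ) (hq : 0 < q) (n : ℕ) :
    (1 - 1 / (q : ℝ)) ^ n ≤ Real.exp (-(n : ℝ) / q) := by
  have hqr : (1 : ℝ) ≤ q := by exact_mod_cast hq
  have h0 : 0 ≤ 1 - 1 / (q : ℝ) := by
    rw [sub_nonneg, div_le_one (by linarith)]
    exact hqr
  have h1 : 1 - 1 / (q : ℝ) ≤ Real.exp (-(1 / (q : ℝ))) := by
    have := Real.add_one_le_exp (-(1 / (q : ℝ)))
    linarith
  calc (1 - 1 / (q : ℝ)) ^ n ≤ (Real.exp (-(1 / (q : ℝ)))) ^ n := pow_le_pow_left₀ h0 h1 n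
    _ = Real.exp (-(n : ℝ) / q) := by
      rw [← Real.exp_nat_mul]
      congr 1
      ring

/-- sets of functions of small total share: an averaging argument -/
theorem exists_small {q : ℕ} (hq : 0 < q) (f : (α → Fin q) → ℝ) (b : ℝ)
    (h : (∑ ω, f ω) / (q : ℝ) ^ (Fintype.card α) ≤ b) : ∃ ω, f ω ≤ b := by
  by_contra hcon
  push Not at hcon
  have hne : Nonempty (α → Fin q) := ⟨fun _ => ⟨0, hq⟩⟩
  have h1 : ∑ _ω : (α → Fin q), b < ∑ ω, f ω :=
    sum_lt_sum_of_nonempty univ_nonempty (fun ω _ => hcon ω)
  rw [sum_const, card_univ, Fintype.card_fun, Fintype.card_fin, nsmul_eq_mul] at h1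
  push_cast at h1
  have hqr : (0 : ℝ) < q := by exact_mod_cast hq
  rw [div_le_iff₀ (by positivity)] at h
  linarith

end Pool.Agent.LKCNF
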