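import Pool.Agent.LKCNF.Num

set_option autoImplicit false
set_option linter.unusedSectionVars false

/-
The width argument over the assignments that extend the restriction, and the size bound.
-/

namespace Pool.Agent.LKCNF

open Finset

variable {V : Type} [Fintype V] [DecidableEq V]

/-- the assignment `a` extends the restriction `ω` -/
def Ext {q : ℕ} (ω : V → Fin q) (a : V → Bool) : Prop :=
  ∀ x, (ω x : ℕ) < 2 → (ω x : ℕ) = (a x).toNat

/-- `F'` implies the clause `C` over the assignments that extend `ω` -/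
def Imp {q : ℕ} (ω : V → Fin q) (F' : Finset (Finset (V × Bool))) (C : Finset (V × Bool)) :
    Prop := ∀ a : V → Bool, Ext ω a → (∀ D ∈ F', SatC a D) → SatC a C

/-- the boundary of a minimal implying set lies in the clause -/
theorem bdry_sub {q : ℕ} (ω : V → Fin q) (F' : Finset (Finset (V × Bool)))
    (C : Finset (V × Bool)) (hI : Imp ω F' C) (hmin : ∀ D ∈ F', ¬ Imp ω (F'.erase D) C) :
    bdry ω F' ⊆ vbl C := by
  classical
  intro x hx
  rw [mem_bdry] at hx
  obtain ⟨hfree, D, hD, hxD, huniq⟩ := hx
  by_contra hxC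
  apply hmin D hD
  intro a ha hsat
  rw [mem_vbl] at hxD
  obtain ⟨b, hb⟩ := hxD
  -- flip x
  set a' : V → Bool := Function.update a x b with ha'
  have hext : Ext ω a' := by
    intro y hy
    by_cases hyx : y = x
    · rw [hyx] at hy; omega
    · rw [ha', Function.update_of_ne hyx]
      exact ha y hy
  have hsat' : ∀ E ∈ F', SatC a' E := by
    intro E hE
    by_cases hED : E = D
    · rw [hED]
      exact ⟨(x, b), hb, by rw [ha']; simp⟩
    · obtain ⟨l, hl, hal⟩ := hsat E (mem_erase.mpr ⟨hED, hE⟩)
      refine ⟨l, hl, ?_⟩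
      have hlx : l.1 ≠ x := by
        intro h
        apply hED
        apply huniq E hE
        rw [← h, mem_vbl]
        exact ⟨l.2, hl⟩
      rw [ha', Function.update_of_ne hlx]
      exact hal
  obtain ⟨l, hl, hal⟩ := hI a' hext hsat'
  refine ⟨l, hl, ?_⟩
  have hlx : l.1 ≠ x := by
    intro h
    apply hxC
    rw [← h, mem_vbl]
    exact ⟨l.2, hl⟩
  rw [ha', Function.update_of_ne hlx] at hal
  exact hal

/-- a minimal implying subset of surviving clauses -/
theorem exists_minimal_imp {q : ℕ} (ω : V → Fin q) (F' : Finset (Finset (V × Bool)))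
    (C : Finset (V × Bool)) (hI : Imp ω F' C) :
    ∃ E ⊆ F', Imp ω E C ∧ ∀ D ∈ E, ¬ Imp ω (E.erase D) C := by
  classical
  induction hn : F'.card using Nat.strong_induction_on generalizing F' with
  | _ n ih =>
    by_cases h : ∀ D ∈ F', ¬ Imp ω (F'.erase D) C
    · exact ⟨F', Subset.refl _, hI, h⟩
    · push Not at h
      obtain ⟨D, hD, hd⟩ := h
      have hlt : (F'.erase D).card < n := by rw [← hn]; exact card_erase_lt_of_mem hD
      obtain ⟨E, hE, h1, h2⟩ := ih _ hlt (F'.erase D) hd rfl
      exact ⟨E, hE.trans (erase_subset _ _), h1, h2⟩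

theorem surv_of_minimal {q : ℕ} (ω : V → Fin q) (F' : Finset (Finset (V × Bool)))
    (C : Finset (V × Bool)) (hI : Imp ω F' C) (hmin : ∀ D ∈ F', ¬ Imp ω (F'.erase D) C) :
    ∀ D ∈ F', surv ω D := by
  classical
  intro D hD l hl heq
  apply hmin D hD
  intro a ha hsat
  apply hI a ha
  intro E hE
  by_cases hED : E = D
  · rw [hED]
    refine ⟨l, hl, ?_⟩
    have h2 : (ω l.1 : ℕ) < 2 := by rw [heq]; cases l.2 <;> simp
    have h3 := ha l.1 h2
    rw [heq] at h3
    cases h4 : l.2 <;> cases h5 : a l.1 <;> rw [h4, h5] at h3 <;> simp at h3 ⊢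
  · exact hsat E (mem_erase.mpr ⟨hED, hE⟩)

/-- the clause `C` is implied by at most `r` clauses of `F` -/
def Low {q : ℕ} (ω : V → Fin q) (F : Finset (Finset (V × Bool))) (r : ℕ) (C : Finset (V × Bool)) :
    Prop := ∃ F' ⊆ F, F'.card ≤ r ∧ Imp ω F' C

theorem Low.mono {q : ℕ} {ω : V → Fin q} {F : Finset (Finset (V × Bool))} {r r' : ℕ}
    {C : Finset (V × Bool)} (h : Low ω F r C) (hr : r ≤ r') : Low ω F r' C := by
  obtain ⟨F', h1, h2, h3⟩ := h
  exact ⟨F', h1, h2.trans hr, h3⟩

theorem sat_resolve (a : V → Bool) (A B : Finset (V × Bool)) (x : V) (hA : SatC a A)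
    (hB : SatC a B) : SatC a (A.erase (x, true) ∪ B.erase (x, false)) := by
  obtain ⟨l, hl, hal⟩ := hA
  obtain ⟨m, hm, ham⟩ := hB
  by_cases h1 : l = (x, true)
  · by_cases h2 : m = (x, false)
    · rw [h1] at hal
      rw [h2] at ham
      simp only at hal ham
      rw [hal] at ham
      exact absurd ham (by decide)
    · exact ⟨m, by rw [mem_union, mem_erase, mem_erase]; right; exact ⟨h2, hm⟩, ham⟩
  · exact ⟨l, by rw [mem_union, mem_erase, mem_erase]; left; exact ⟨h1, hl⟩, hal⟩

/-- in a derivation, either all clauses are low, or some clause is medium -/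
theorem medium {q : ℕ} (ω : V → Fin q) (F : Finset (Finset (V × Bool))) (R : ℕ) (hR : 1 ≤ R)
    (L : List (Finset (V × Bool))) (hL : Derivation F L) :
    (∀ C ∈ L, Low ω F R C) ∨ (∃ C ∈ L, Low ω F (2 * R) C ∧ ¬ Low ω F R C) := by
  classical
  induction hL with
  | nil => left; intro C hC; simp at hC
  | ax L C hL hC ih =>
    rcases ih with ih | ih
    · left
      intro D hD
      rw [List.mem_cons] at hD
      rcases hD with rfl | hD
      · refine ⟨{D}, by rw [singleton_subset_iff]; exact hC, by rw [card_singleton]; exact hR, ?_⟩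
        intro a _ hs
        exact hs D (mem_singleton_self D)
      · exact ih D hD
    · right
      obtain ⟨D, hD, h⟩ := ih
      exact ⟨D, List.mem_cons_of_mem _ hD, h⟩
  | weaken L A C hL hA hAC ih =>
    rcases ih with ih | ih
    · left
      intro D hD
      rw [List.mem_cons] at hD
      rcases hD with rfl | hD
      · obtain ⟨F', h1, h2, h3⟩ := ih A hA
        refine ⟨F', h1, h2, ?_⟩
        intro a ha hs
        obtain ⟨l, hl, hal⟩ := h3 a ha hs
        exact ⟨l, hAC hl, hal⟩
      · exact ih D hD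
    · right
      obtain ⟨D, hD, h⟩ := ih
      exact ⟨D, List.mem_cons_of_mem _ hD, h⟩
  | resolve L A B x hL hA hB hxA hxB ih =>
    rcases ih with ih | ih
    · by_cases hlow : Low ω F R (A.erase (x, true) ∪ B.erase (x, false))
      · left
        intro D hD
        rw [List.mem_cons] at hD
        rcases hD with rfl | hD
        · exact hlow
        · exact ih D hD
      · right
        refine ⟨_, List.mem_cons_self, ?_, hlow⟩
        obtain ⟨F1, h11, h12, h13⟩ := ih A hA
        obtain ⟨F2, h21, h22, h23⟩ := ih B hB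
        refine ⟨F1 ∪ F2, union_subset h11 h21, (card_union_le _ _).trans (by omega), ?_⟩
        intro a ha hs
        apply sat_resolve
        · exact h13 a ha (fun D hD => hs D (mem_union_left _ hD))
        · exact h23 a ha (fun D hD => hs D (mem_union_right _ hD))
    · right
      obtain ⟨D, hD, h⟩ := ih
      exact ⟨D, List.mem_cons_of_mem _ hD, h⟩

/-- the size bound -/
theorem size_bound (c k : ℕ) (hk0 : kk c ≤ k) (F : Finset (Finset (V × Bool)))
    (hk : IsKCNF k F) (hl : IsLinear F) (hM : F.card ≤ 2 ^ (c * k))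
    (L : List (Finset (V × Bool))) (hL : IsRefutation F L) :
    (2 : ℝ) ^ ((2 : ℝ) ^ ((k : ℝ) / 2 ^ (4 * c + 17))) ≤ (L.toFinset.card : ℝ) := by
  classical
  by_contra hcon
  push Not at hcon
  obtain ⟨h8, _, _⟩ := kk_big c k hk0
  have hq := qq_pos c
  have ht3 : 3 ≤ tt c := by have := tt_ge c; omega
  have hRpos : 1 ≤ RR c k := by unfold RR; exact Nat.one_le_two_pow
  obtain ⟨ω, hω1, hω2, hω3⟩ := exists_restr k (qq c) (tt c) (RR c k) F hk hl (by omega)
    (by omega) ht3 (num_mt c k hk0) (fun s h2 hs => num_h1 c k F.card hk0 hM s h2 hs)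
    (num_h2 c k F.card hM) L.toFinset (k * RR c k / 2) (num_h3 c k hk0 _ hcon)
  -- boundary of surviving sets
  have hbd : ∀ D ⊆ F, D.Nonempty → D.card ≤ 2 * RR c k → (∀ C ∈ D, surv ω C) →
      k * D.card < 2 * (bdry ω D).card := by
    intro D hDF hne hDR hs
    apply bdry_card k F hk ω D hDF (hω1 D hDF hne hDR hs)
    intro C hC
    exact hω2 C (hDF hC) (hs C hC)
  rcases medium ω F (RR c k) hRpos L hL.1 with hlow | ⟨C, hC, hC2, hC1⟩
  · -- the empty clause is not low
    obtain ⟨F', h1, h2, h3⟩ := hlow ∅ hL.2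
    obtain ⟨E, hE, hI, hmin⟩ := exists_minimal_imp ω F' ∅ h3
    have hsurv := surv_of_minimal ω E ∅ hI hmin
    have hb := bdry_sub ω E ∅ hI hmin
    have hEne : E.Nonempty := by
      rw [nonempty_iff_ne_empty]
      intro hemp
      rw [hemp] at hI
      obtain ⟨l, hl', _⟩ := hI (fun x => decide ((ω x : ℕ) = 1)) (by
        intro x hx
        interval_cases h : (ω x : ℕ) <;> simp [h]) (by intro D hD; simp at hD)
      simp at hl'
    have h5 := hbd E (hE.trans h1) hEne ((card_le_card hE).trans (by omega)) hsurv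
    have h6 : vbl (∅ : Finset (V × Bool)) = ∅ := by unfold vbl; simp
    rw [h6, subset_empty] at hb
    rw [hb, card_empty] at h5
    omega
  · obtain ⟨F', h1, h2, h3⟩ := hC2
    obtain ⟨E, hE, hI, hmin⟩ := exists_minimal_imp ω F' C h3
    have hsurv := surv_of_minimal ω E C hI hmin
    have hb := bdry_sub ω E C hI hmin
    have hER : RR c k < E.card := by
      by_contra h
      push Not at h
      exact hC1 ⟨E, hE.trans h1, h, hI⟩
    have hEne : E.Nonempty := by rw [← card_pos]; omega
    have h5 := hbd E (hE.trans h1) hEne ((card_le_card hE).trans h2) hsurv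
    have h6 : k * RR c k < 2 * (vbl C).card := by
      have h7 : k * RR c k ≤ k * E.card := Nat.mul_le_mul_left _ hER.le
      have h8 := card_le_card hb
      omega
    -- `C` is not satisfied by the restriction
    have hCs : surv ω C := by
      intro l hl' heq
      apply hC1
      refine ⟨∅, empty_subset _, by rw [card_empty]; omega, ?_⟩
      intro a ha _
      refine ⟨l, hl', ?_⟩
      have h2 : (ω l.1 : ℕ) < 2 := by rw [heq]; cases l.2 <;> simp
      have h3 := ha l.1 h2
      rw [heq] at h3
      cases h4 : l.2 <;> cases h5 : a l.1 <;> rw [h4, h5] at h3 <;> simp at h3 ⊢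
    have h9 := hω3 C (by rw [List.mem_toFinset]; exact hC) hCs
    omega

end Pool.Agent.LKCNF
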