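import Pool.Agent.LKCNF.Cluster

set_option autoImplicit false
set_option linter.unusedSectionVars false

/-
The random restriction: `ω x = 0` sets `x` to false, `ω x = 1` sets `x` to true, otherwise `x`
stays free. With positive probability all dense clusters of `F` are destroyed.
-/

namespace Pool.Agent.LKCNF

open Finset

variable {V : Type} [Fintype V] [DecidableEq V]

/-- no literal of `C` is set true -/
def surv {q : ℕ} (ω : V → Fin q) (C : Finset (V × Bool)) : Prop :=
  ∀ l ∈ C, (ω l.1 : ℕ) ≠ l.2.toNat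

/-- the variables of `C` that are not free -/
def setv {q : ℕ} (ω : V → Fin q) (C : Finset (V × Bool)) : Finset V :=
  (vbl C).filter (fun x => (ω x : ℕ) < 2)

theorem mem_vbl (C : Finset (V × Bool)) (x : V) : x ∈ vbl C ↔ ∃ b, (x, b) ∈ C := by
  unfold vbl
  rw [mem_image]
  constructor
  · rintro ⟨⟨y, b⟩, h, rfl⟩
    exact ⟨b, h⟩
  · rintro ⟨b, h⟩
    exact ⟨(x, b), h, rfl⟩

theorem P_surv {q : ℕ} (hq : 2 ≤ q) (D : Finset (Finset (V × Bool)))
    [DecidablePred (fun ω : V → Fin q => ∀ C ∈ D, surv ω C)] :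
    P (univ.filter (fun ω : V → Fin q => ∀ C ∈ D, surv ω C)) ≤
      Real.exp (-((vblS D).card : ℝ) / q) := by
  classical
  have hex : ∀ x, ∃ b : Bool, x ∈ vblS D → ∃ C ∈ D, (x, b) ∈ C := by
    intro x
    by_cases hx : x ∈ vblS D
    · have hx' := hx
      unfold vblS at hx'
      rw [mem_biUnion] at hx'
      obtain ⟨C, hC, hxC⟩ := hx'
      rw [mem_vbl] at hxC
      obtain ⟨b, hb⟩ := hxC
      exact ⟨b, fun _ => ⟨C, hC, hb⟩⟩
    · exact ⟨true, fun h => absurd h hx⟩
  choose b hb using hex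
  have hbt : ∀ b : Bool, b.toNat < q := by
    intro b; cases b <;> simp <;> omega
  have hsub : (univ.filter (fun ω : V → Fin q => ∀ C ∈ D, surv ω C)) ⊆
      (univ.filter (fun ω : V → Fin q => ∀ x ∈ vblS D, ω x ≠ ⟨(b x).toNat, hbt _⟩)) := by
    intro ω hω
    rw [mem_filter] at hω ⊢
    refine ⟨mem_univ _, ?_⟩
    intro x hx heq
    obtain ⟨C, hC, hxC⟩ := hb x hx
    have := hω.2 C hC (x, b x) hxC
    apply this
    simp only
    rw [heq]
  refine (P_mono hsub).trans ?_
  rw [P_avoid (by omega)]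
  exact pow_le_exp q (by omega) _

theorem P_surv_one {q : ℕ} (hq : 2 ≤ q) (C : Finset (V × Bool))
    [DecidablePred (fun ω : V → Fin q => surv ω C)] :
    P (univ.filter (fun ω : V → Fin q => surv ω C)) ≤
      Real.exp (-((vbl C).card : ℝ) / q) := by
  classical
  have h := P_surv hq ({C} : Finset (Finset (V × Bool)))
  have h1 : vblS ({C} : Finset (Finset (V × Bool))) = vbl C := by
    unfold vblS; rw [singleton_biUnion]
  rw [h1] at h
  refine le_trans (P_mono ?_) h
  intro ω hω
  rw [mem_filter] at hω ⊢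
  refine ⟨mem_univ _, ?_⟩
  intro C' hC'
  rw [mem_singleton] at hC'
  rw [hC']
  exact hω.2

theorem P_set {q : ℕ} (hq : 2 ≤ q) (C : Finset (V × Bool)) (j : ℕ)
    [DecidablePred (fun ω : V → Fin q => surv ω C ∧ j ≤ (setv ω C).card)] :
    P (univ.filter (fun ω : V → Fin q => surv ω C ∧ j ≤ (setv ω C).card)) ≤
      2 ^ (vbl C).card * (1 / (q : ℝ)) ^ j := by
  classical
  have hex : ∀ x, ∃ b : Bool, x ∈ vbl C → (x, b) ∈ C := by
    intro x
    by_cases hx : x ∈ vbl C
    · have hx' := hx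
      rw [mem_vbl] at hx'
      obtain ⟨b, hb⟩ := hx'
      exact ⟨b, fun _ => hb⟩
    · exact ⟨true, fun h => absurd h hx⟩
  choose b hb using hex
  have hbt : ∀ b : Bool, b.toNat < q := by
    intro b; cases b <;> simp <;> omega
  have hsub : (univ.filter (fun ω : V → Fin q => surv ω C ∧ j ≤ (setv ω C).card)) ⊆
      ((vbl C).powersetCard j).biUnion (fun J =>
        univ.filter (fun ω : V → Fin q => ∀ x ∈ J, ω x = ⟨(!(b x)).toNat, hbt _⟩)) := by
    intro ω hω
    rw [mem_filter] at hω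
    obtain ⟨_, hs, hj⟩ := hω
    obtain ⟨J, hJ, hJc⟩ := exists_subset_card_eq hj
    rw [mem_biUnion]
    refine ⟨J, ?_, ?_⟩
    · rw [mem_powersetCard]
      refine ⟨hJ.trans (filter_subset _ _), hJc⟩
    · rw [mem_filter]
      refine ⟨mem_univ _, ?_⟩
      intro x hx
      have h1 := hJ hx
      unfold setv at h1
      rw [mem_filter] at h1
      have h2 := hs (x, b x) (hb x h1.1)
      have h3 := h1.2
      apply Fin.ext
      simp only
      cases hbx : b x
      · rw [hbx] at h2
        simp only [Bool.toNat_false] at h2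
        simp only [Bool.not_false, Bool.toNat_true]
        omega
      · rw [hbx] at h2
        simp only [Bool.toNat_true] at h2
        simp only [Bool.not_true, Bool.toNat_false]
        omega
  refine (P_mono hsub).trans ((P_biUnion _ _).trans ?_)
  have h1 : ∀ J ∈ (vbl C).powersetCard j,
      P (univ.filter (fun ω : V → Fin q => ∀ x ∈ J, ω x = ⟨(!(b x)).toNat, hbt _⟩)) =
        (1 / (q : ℝ)) ^ j := by
    intro J hJ
    rw [P_hit (by omega), (mem_powersetCard.mp hJ).2]
  rw [sum_congr rfl h1, sum_const, card_powersetCard, nsmul_eq_mul]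
  apply mul_le_mul_of_nonneg_right _ (by positivity)
  have h2 : Nat.choose (vbl C).card j ≤ 2 ^ (vbl C).card := Nat.choose_le_two_pow _ _
  exact_mod_cast h2

theorem geom_small (n : ℕ) : ∑ i ∈ range n, (1 / 8 : ℝ) ^ (i + 2) ≤ 1 / 56 := by
  have h : ∀ n, ∑ i ∈ range n, (1 / 8 : ℝ) ^ (i + 2) = 1 / 56 - (1 / 56) * (1 / 8) ^ n := by
    intro n
    induction n with
    | zero => simp
    | succ n ih => rw [sum_range_succ, ih]; ring
  rw [h n]
  have : (0 : ℝ) ≤ (1 / 56) * (1 / 8) ^ n := by positivity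
  linarith

/-- the random restriction destroys all dense clusters, keeps all surviving clauses long, and
satisfies every wide clause of `Π` -/
theorem exists_restr (k q t R : ℕ) (F : Finset (Finset (V × Bool))) (hk : IsKCNF k F)
    (hl : IsLinear F) (hk1 : 1 ≤ k) (hq : 2 ≤ q) (ht : 3 ≤ t)
    (hmt : ((k / 8 + 1 : ℕ) : ℝ) * (1 - 1 / (t : ℝ)) ^ (k / 8) ≤ 1 / (t : ℝ))
    (h1 : ∀ s, 2 ≤ s → s ≤ 2 * R → ((F.card : ℝ) + 1) ^ (2 * s / t) * ((k : ℝ) * s) ^ (2 * s) *
      Real.exp (-(7 * (k * s) / 16) / q) ≤ (1 / 8) ^ s)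
    (h2 : (F.card : ℝ) * (2 ^ k * (1 / (q : ℝ)) ^ (k / 4 + 1)) ≤ 1 / 4)
    (Q : Finset (Finset (V × Bool))) (w : ℕ)
    (h3 : (Q.card : ℝ) * Real.exp (-(w : ℝ) / q) ≤ 1 / 4) :
    ∃ ω : V → Fin q,
      (∀ D ⊆ F, D.Nonempty → D.card ≤ 2 * R → (∀ C ∈ D, surv ω C) →
        7 * (k * D.card) < 8 * (vblS D).card) ∧
      (∀ C ∈ F, surv ω C → (setv ω C).card ≤ k / 4) ∧
      (∀ C ∈ Q, surv ω C → (vbl C).card < w) := by
  classical
  set B1 : Finset (V → Fin q) := (range (2 * R - 1)).biUnion (fun i =>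
    ((Fam F t (i + 2)).filter (fun D => 7 * (k * (i + 2)) ≤ 16 * (vblS D).card)).biUnion (fun D =>
      univ.filter (fun ω : V → Fin q => ∀ C ∈ D, surv ω C))) with hB1
  set B2 : Finset (V → Fin q) := F.biUnion (fun C =>
    univ.filter (fun ω : V → Fin q => surv ω C ∧ k / 4 + 1 ≤ (setv ω C).card)) with hB2
  set B3 : Finset (V → Fin q) := (Q.filter (fun C => w ≤ (vbl C).card)).biUnion (fun C =>
    univ.filter (fun ω : V → Fin q => surv ω C)) with hB3
  have hqr : (0 : ℝ) < q := by exact_mod_cast (by omega : 0 < q)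
  have hP1 : P B1 ≤ 1 / 56 := by
    rw [hB1]
    refine (P_biUnion _ _).trans (le_trans ?_ (geom_small (2 * R - 1)))
    apply sum_le_sum
    intro i hi
    rw [mem_range] at hi
    refine (P_biUnion _ _).trans ?_
    have hterm : ∀ D ∈ (Fam F t (i + 2)).filter
        (fun D => 7 * (k * (i + 2)) ≤ 16 * (vblS D).card),
        P (univ.filter (fun ω : V → Fin q => ∀ C ∈ D, surv ω C)) ≤
          Real.exp (-(7 * (k * ((i + 2 : ℕ) : ℝ)) / 16) / q) := by
      intro D hD
      refine (P_surv hq D).trans ?_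
      apply Real.exp_le_exp.mpr
      apply div_le_div_of_nonneg_right _ hqr.le
      have h := (mem_filter.mp hD).2
      have h' : (7 : ℝ) * (k * ((i + 2 : ℕ) : ℝ)) ≤ 16 * (vblS D).card := by exact_mod_cast h
      linarith
    refine (sum_le_sum hterm).trans ?_
    rw [sum_const, nsmul_eq_mul]
    have hc : (((Fam F t (i + 2)).filter
        (fun D => 7 * (k * (i + 2)) ≤ 16 * (vblS D).card)).card : ℝ) ≤
        ((F.card : ℝ) + 1) ^ (2 * (i + 2) / t) * ((k : ℝ) * ((i + 2 : ℕ) : ℝ)) ^ (2 * (i + 2)) := by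
      have h := (card_filter_le (Fam F t (i + 2))
        (fun D => 7 * (k * (i + 2)) ≤ 16 * (vblS D).card)).trans
        (Fam_card hk hl hk1 t (i + 2) ht (by omega))
      exact_mod_cast h
    refine (mul_le_mul_of_nonneg_right hc (Real.exp_nonneg _)).trans ?_
    exact h1 (i + 2) (by omega) (by omega)
  have hP2 : P B2 ≤ 1 / 4 := by
    rw [hB2]
    refine (P_biUnion _ _).trans (le_trans ?_ h2)
    rw [← nsmul_eq_mul, ← sum_const]
    apply sum_le_sum
    intro C hC
    have h := P_set hq C (k / 4 + 1)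
    rw [(hk C hC).2] at h
    exact h
  have hP3 : P B3 ≤ 1 / 4 := by
    rw [hB3]
    refine (P_biUnion _ _).trans (le_trans ?_ h3)
    have hterm : ∀ C ∈ Q.filter (fun C => w ≤ (vbl C).card),
        P (univ.filter (fun ω : V → Fin q => surv ω C)) ≤ Real.exp (-(w : ℝ) / q) := by
      intro C hC
      refine (P_surv_one hq C).trans ?_
      apply Real.exp_le_exp.mpr
      apply div_le_div_of_nonneg_right _ hqr.le
      have h := (mem_filter.mp hC).2
      have h' : (w : ℝ) ≤ (vbl C).card := by exact_mod_cast h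
      linarith
    refine (sum_le_sum hterm).trans ?_
    rw [sum_const, nsmul_eq_mul]
    apply mul_le_mul_of_nonneg_right _ (Real.exp_nonneg _)
    exact_mod_cast card_filter_le _ _
  have hP : P (B1 ∪ B2 ∪ B3) < 1 := by
    have h4 := P_union (B1 ∪ B2) B3
    have h5 := P_union B1 B2
    linarith
  obtain ⟨ω, hω⟩ := exists_not_mem (by omega : 0 < q) _ hP
  rw [mem_union, mem_union, not_or, not_or] at hω
  obtain ⟨⟨hω1, hω2⟩, hω3⟩ := hω
  refine ⟨ω, ?_, ?_, ?_⟩
  · intro D hDF hDne hDR hDs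
    by_contra hcon
    push Not at hcon
    obtain ⟨E, hED, hEF, hE2, hE16⟩ := dense_fam hk hl hk1 t (by omega) hmt D hDF
      ⟨hDne, hcon⟩
    apply hω1
    rw [hB1, mem_biUnion]
    have hEc : E.card ≤ 2 * R := (card_le_card hED).trans hDR
    refine ⟨E.card - 2, by rw [mem_range]; omega, ?_⟩
    have h6 : E.card - 2 + 2 = E.card := by omega
    rw [mem_biUnion, h6]
    refine ⟨E, ?_, ?_⟩
    · rw [mem_filter]; exact ⟨hEF, hE16⟩
    · rw [mem_filter]; exact ⟨mem_univ _, fun C hC => hDs C (hED hC)⟩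
  · intro C hC hCs
    by_contra hcon
    push Not at hcon
    apply hω2
    rw [hB2, mem_biUnion]
    exact ⟨C, hC, by rw [mem_filter]; exact ⟨mem_univ _, hCs, hcon⟩⟩
  · intro C hC hCs
    by_contra hcon
    push Not at hcon
    apply hω3
    rw [hB3, mem_biUnion]
    exact ⟨C, by rw [mem_filter]; exact ⟨hC, hcon⟩, by rw [mem_filter]; exact ⟨mem_univ _, hCs⟩⟩

/-- the free variables that lie in exactly one clause of `D` -/
noncomputable def bdry {q : ℕ} (ω : V → Fin q) (D : Finset (Finset (V × Bool))) : Finset V := by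
  classical
  exact univ.filter (fun x => 2 ≤ (ω x : ℕ) ∧ ∃ C ∈ D, x ∈ vbl C ∧ ∀ C' ∈ D, x ∈ vbl C' → C' = C)

theorem mem_bdry {q : ℕ} (ω : V → Fin q) (D : Finset (Finset (V × Bool))) (x : V) :
    x ∈ bdry ω D ↔ 2 ≤ (ω x : ℕ) ∧ ∃ C ∈ D, x ∈ vbl C ∧ ∀ C' ∈ D, x ∈ vbl C' → C' = C := by
  classical
  unfold bdry
  rw [mem_filter]
  simp

/-- boundary expansion -/
theorem bdry_card (k : ℕ) {q : ℕ} (F : Finset (Finset (V × Bool))) (hk : IsKCNF k F)
    (ω : V → Fin q) (D : Finset (Finset (V × Bool))) (hDF : D ⊆ F)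
    (hv : 7 * (k * D.card) < 8 * (vblS D).card)
    (hs : ∀ C ∈ D, (setv ω C).card ≤ k / 4) : k * D.card < 2 * (bdry ω D).card := by
  classical
  -- double counting of incidences
  set U1 : Finset V := (vblS D).filter (fun x => (D.filter (fun C => x ∈ vbl C)).card = 1) with hU1
  have hinc : ∑ x ∈ vblS D, (D.filter (fun C => x ∈ vbl C)).card = k * D.card := by
    have h1 : ∑ x ∈ vblS D, (D.filter (fun C => x ∈ vbl C)).card =
        ∑ C ∈ D, ((vblS D).filter (fun x => x ∈ vbl C)).card := by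
      simp only [card_filter]
      rw [sum_comm]
    rw [h1]
    have h2 : ∀ C ∈ D, ((vblS D).filter (fun x => x ∈ vbl C)).card = k := by
      intro C hC
      have h3 : (vblS D).filter (fun x => x ∈ vbl C) = vbl C := by
        ext x
        rw [mem_filter]
        constructor
        · exact fun h => h.2
        · intro h
          refine ⟨?_, h⟩
          unfold vblS
          rw [mem_biUnion]
          exact ⟨C, hC, h⟩
      rw [h3, (hk C (hDF hC)).2]
    rw [sum_congr rfl h2, sum_const, smul_eq_mul, mul_comm]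
  have hge1 : ∀ x ∈ vblS D, 1 ≤ (D.filter (fun C => x ∈ vbl C)).card := by
    intro x hx
    unfold vblS at hx
    rw [mem_biUnion] at hx
    obtain ⟨C, hC, hxC⟩ := hx
    rw [Nat.one_le_iff_ne_zero, ← Nat.pos_iff_ne_zero, card_pos]
    exact ⟨C, by rw [mem_filter]; exact ⟨hC, hxC⟩⟩
  have hU1c : 2 * (vblS D).card ≤ k * D.card + U1.card := by
    rw [← hinc]
    have h1 : U1.card = ∑ x ∈ vblS D,
        (if (D.filter (fun C => x ∈ vbl C)).card = 1 then 1 else 0) := by
      rw [hU1, card_filter]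
    rw [h1, ← sum_add_distrib, mul_comm, ← smul_eq_mul, ← sum_const]
    apply sum_le_sum
    intro x hx
    have := hge1 x hx
    split_ifs with h
    · omega
    · omega
  -- the boundary points that are set
  have hsub : U1 ⊆ bdry ω D ∪ D.biUnion (fun C => setv ω C) := by
    intro x hx
    rw [hU1, mem_filter] at hx
    obtain ⟨C, hC⟩ := card_eq_one.mp hx.2
    have hCm : C ∈ D.filter (fun C => x ∈ vbl C) := by rw [hC]; exact mem_singleton_self C
    rw [mem_filter] at hCm
    rw [mem_union]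
    by_cases hst : (ω x : ℕ) < 2
    · right
      rw [mem_biUnion]
      refine ⟨C, hCm.1, ?_⟩
      unfold setv
      rw [mem_filter]
      exact ⟨hCm.2, hst⟩
    · left
      rw [mem_bdry]
      refine ⟨by omega, C, hCm.1, hCm.2, ?_⟩
      intro C' hC' hx'
      have : C' ∈ D.filter (fun C => x ∈ vbl C) := by rw [mem_filter]; exact ⟨hC', hx'⟩
      rw [hC, mem_singleton] at this
      exact this
  have h4 : U1.card ≤ (bdry ω D).card + (k / 4) * D.card := by
    refine (card_le_card hsub).trans ((card_union_le _ _).trans ?_)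
    have : (D.biUnion (fun C => setv ω C)).card ≤ (k / 4) * D.card := by
      refine card_biUnion_le.trans ?_
      rw [mul_comm, ← smul_eq_mul, ← sum_const]
      exact sum_le_sum hs
    omega
  have h5 : 4 * ((k / 4) * D.card) ≤ k * D.card := by
    have : 4 * (k / 4) ≤ k := Nat.mul_div_le k 4
    calc 4 * ((k / 4) * D.card) = (4 * (k / 4)) * D.card := by ring
      _ ≤ k * D.card := Nat.mul_le_mul_right _ this
  omega

end Pool.Agent.LKCNF
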