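import Pool.Agent.LKCNF.Defs

set_option autoImplicit false

namespace Pool.Agent.LKCNF

/-- the monomial `∏ x ∈ S, x` as a real function on assignments (true is 1, false is 0) -/
def mono {V : Type} (S : Finset V) (a : V → Bool) : ℝ :=
  if ∀ x ∈ S, a x = true then 1 else 0

/-- the real functions on assignments given by a multilinear polynomial of degree at most `d` -/
def DegLE {V : Type} (d : ℕ) (f : (V → Bool) → ℝ) : Prop :=
  f ∈ Submodule.span ℝ {g : (V → Bool) → ℝ | ∃ S : Finset V, S.card ≤ d ∧ g = mono S}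

/-- the polynomial that is 1 on the assignments falsifying the clause `C`, and 0 otherwise -/
def viol {V : Type} (C : Finset (V × Bool)) (a : V → Bool) : ℝ :=
  if ∀ l ∈ C, a l.1 ≠ l.2 then 1 else 0

/-- a Sum-of-Squares refutation of `F` with squares of polynomials of degree at most `d` and
multipliers of degree at most `d`: an identity `-1 = ∑ q_i² + ∑_C g_C · viol C` on the cube -/
def SoSRefutable {V : Type} (d : ℕ) (F : Finset (Finset (V × Bool))) : Prop :=
  ∃ (m : ℕ) (p : Fin m → (V → Bool) → ℝ) (g : Finset (V × Bool) → (V → Bool) → ℝ),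
    (∀ i, DegLE d (p i)) ∧ (∀ C ∈ F, DegLE d (g C)) ∧
    ∀ a : V → Bool, (-1 : ℝ) = ∑ i, (p i a) ^ 2 + ∑ C ∈ F, g C a * viol C a

end Pool.Agent.LKCNF
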