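import Pool.Agent.LKCNF.Num
import Pool.Agent.LKCNF.SoSDefs

set_option autoImplicit false
set_option linter.unusedSectionVars false

/-
The pseudo-expectation: parity constraints on the free parts of the surviving clauses.
-/

namespace Pool.Agent.LKCNF

open Finset

theorem prod_symmDiff_inv {ι M : Type} [DecidableEq ι] [CommMonoid M] (g : ι → M)
    (hg : ∀ i, g i * g i = 1) (A B : Finset ι) :
    ∏ i ∈ symmDiff A B, g i = (∏ i ∈ A, g i) * ∏ i ∈ B, g i := by
  have h1 : symmDiff A B = (A \ B) ∪ (B \ A) := rfl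
  have hd : Disjoint (A \ B) (B \ A) := by
    rw [Finset.disjoint_left]
    intro x hx hx'
    rw [mem_sdiff] at hx hx'
    exact hx.2 hx'.1
  rw [h1, prod_union hd, ← prod_inter_mul_prod_sdiff A B g, ← prod_inter_mul_prod_sdiff B A g,
    inter_comm B A]
  have h2 : (∏ x ∈ A ∩ B, g x) * ∏ x ∈ A ∩ B, g x = 1 := by
    rw [← prod_mul_distrib]
    exact prod_eq_one (fun i _ => hg i)
  calc (∏ x ∈ A \ B, g x) * ∏ x ∈ B \ A, g x
      = ((∏ x ∈ A ∩ B, g x) * ∏ x ∈ A ∩ B, g x) * ((∏ x ∈ A \ B, g x) * ∏ x ∈ B \ A, g x) := by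
        rw [h2, one_mul]
    _ = _ := by
        rw [mul_mul_mul_comm]

/-- the positive semidefiniteness of a partial equivalence matrix -/
theorem psd {ι : Type} [Fintype ι] [DecidableEq ι] (M : ι → ι → ℝ) (hsym : ∀ s t, M s t = M t s)
    (hdiag : ∀ s, M s s = 1) (htr : ∀ s t u, M s t ≠ 0 → M s u = M s t * M t u) (c : ι → ℝ) :
    0 ≤ ∑ s, ∑ t, c s * c t * M s t := by
  classical
  let N : ι → ℝ := fun u => ((univ.filter (fun t => M u t ≠ 0)).card : ℝ)
  have hN : ∀ s u, M s u ≠ 0 → N u = N s := by
    intro s u hsu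
    simp only [N]
    congr 2
    ext t
    simp only [mem_filter, mem_univ, true_and]
    rw [htr s u t hsu]
    constructor
    · intro h; exact mul_ne_zero hsu h
    · intro h; exact right_ne_zero_of_mul h
  have hNpos : ∀ s, 0 < N s := by
    intro s
    simp only [N]
    have : 0 < (univ.filter (fun t => M s t ≠ 0)).card := by
      rw [card_pos]
      exact ⟨s, by rw [mem_filter]; exact ⟨mem_univ _, by rw [hdiag]; norm_num⟩⟩
    exact_mod_cast this
  have hkey : ∀ s t, ∑ u, (1 / N u) * (M s u * M t u) = M s t := by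
    intro s t
    have h1 : ∀ u ∈ (univ : Finset ι), (1 / N u) * (M s u * M t u) =
        if M s u ≠ 0 then (1 / N s) * M s t else 0 := by
      intro u _
      by_cases h : M s u ≠ 0
      · rw [if_pos h, hN s u h, htr s u t h, hsym t u]
      · rw [if_neg h]
        push Not at h
        rw [h]; ring
    rw [sum_congr rfl h1, ← sum_filter, sum_const, nsmul_eq_mul]
    have h2 : ((univ.filter (fun u => M s u ≠ 0)).card : ℝ) = N s := rfl
    rw [h2]
    have := hNpos s
    field_simp
  have h3 : ∑ s, ∑ t, c s * c t * M s t = ∑ u, (1 / N u) * (∑ s, c s * M s u) ^ 2 := by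
    have h4 : ∀ s t, c s * c t * M s t = ∑ u, (1 / N u) * ((c s * M s u) * (c t * M t u)) := by
      intro s t
      rw [← hkey s t, mul_sum]
      apply sum_congr rfl
      intro u _
      ring
    calc ∑ s, ∑ t, c s * c t * M s t
        = ∑ s, ∑ t, ∑ u, (1 / N u) * ((c s * M s u) * (c t * M t u)) := by
          apply sum_congr rfl; intro s _
          apply sum_congr rfl; intro t _
          exact h4 s t
      _ = ∑ s, ∑ u, ∑ t, (1 / N u) * ((c s * M s u) * (c t * M t u)) := by
          apply sum_congr rfl; intro s _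
          rw [sum_comm]
      _ = ∑ u, ∑ s, ∑ t, (1 / N u) * ((c s * M s u) * (c t * M t u)) := by
          rw [sum_comm]
      _ = ∑ u, (1 / N u) * (∑ s, c s * M s u) ^ 2 := by
          apply sum_congr rfl; intro u _
          rw [sq, sum_mul_sum, mul_sum]
          apply sum_congr rfl; intro s _
          rw [mul_sum]
  rw [h3]
  apply sum_nonneg
  intro u _
  have := hNpos u
  positivity

variable {V : Type} [Fintype V] [DecidableEq V]

/-- the character of `S` -/
def chi (S : Finset V) (a : V → Bool) : ℝ := ∏ x ∈ S, (if a x then (-1 : ℝ) else 1)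

theorem chi_mul (S T : Finset V) (a : V → Bool) : chi (symmDiff S T) a = chi S a * chi T a := by
  unfold chi
  apply prod_symmDiff_inv
  intro x
  split_ifs <;> norm_num

theorem chi_empty (a : V → Bool) : chi (∅ : Finset V) a = 1 := by unfold chi; simp

theorem sum_chi (S : Finset V) :
    ∑ a : V → Bool, chi S a = if S = ∅ then (2 : ℝ) ^ (Fintype.card V) else 0 := by
  classical
  have h1 : ∀ a : V → Bool, chi S a = ∏ x, (if x ∈ S then (if a x then (-1 : ℝ) else 1) else 1) := by
    intro a
    unfold chi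
    rw [prod_ite_mem, univ_inter]
  have h2 : ∑ a : V → Bool, chi S a =
      ∏ x : V, ∑ b : Bool, (if x ∈ S then (if b then (-1 : ℝ) else 1) else 1) := by
    rw [prod_univ_sum]
    rw [Fintype.piFinset_univ]
    exact sum_congr rfl (fun a _ => h1 a)
  rw [h2]
  have h3 : ∀ x : V, (∑ b : Bool, (if x ∈ S then (if b then (-1 : ℝ) else 1) else 1)) =
      if x ∈ S then 0 else 2 := by
    intro x
    rw [Fintype.sum_bool]
    by_cases hx : x ∈ S
    · simp [hx]
    · simp [hx]; norm_num
  rw [prod_congr rfl (fun x _ => h3 x)]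
  by_cases hS : S = ∅
  · rw [if_pos hS, hS]
    simp [card_univ]
  · rw [if_neg hS]
    obtain ⟨x, hx⟩ := nonempty_iff_ne_empty.mpr hS
    exact prod_eq_zero (mem_univ x) (by simp [hx])

theorem chi_orth (S T : Finset V) :
    ∑ a : V → Bool, chi S a * chi T a = if S = T then (2 : ℝ) ^ (Fintype.card V) else 0 := by
  have h1 : ∀ a : V → Bool, chi S a * chi T a = chi (symmDiff S T) a := fun a => (chi_mul S T a).symm
  rw [sum_congr rfl (fun a _ => h1 a), sum_chi]
  congr 1
  rw [← Finset.bot_eq_empty, symmDiff_eq_bot]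

/-- the span of the characters of sets of size at most `d` -/
def Ch (V : Type) [Fintype V] [DecidableEq V] (d : ℕ) : Submodule ℝ ((V → Bool) → ℝ) :=
  Submodule.span ℝ {g | ∃ S : Finset V, S.card ≤ d ∧ g = chi S}

theorem chi_mem (S : Finset V) (d : ℕ) (h : S.card ≤ d) : chi S ∈ Ch V d :=
  Submodule.subset_span ⟨S, h, rfl⟩

theorem one_mem (d : ℕ) : (fun _ => 1 : (V → Bool) → ℝ) ∈ Ch V d := by
  have h : (fun _ => 1 : (V → Bool) → ℝ) = chi (∅ : Finset V) := by
    funext a; rw [chi_empty]
  rw [h]
  exact chi_mem _ _ (by simp)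

theorem card_symmDiff_le (S T : Finset V) : (symmDiff S T).card ≤ S.card + T.card := by
  have h : symmDiff S T ⊆ S ∪ T := by
    intro x hx
    rw [mem_symmDiff] at hx
    rw [mem_union]
    tauto
  exact (card_le_card h).trans (card_union_le _ _)

theorem mul_mem {d e : ℕ} {f g : (V → Bool) → ℝ} (hf : f ∈ Ch V d) (hg : g ∈ Ch V e) :
    f * g ∈ Ch V (d + e) := by
  unfold Ch at hf
  induction hf using Submodule.span_induction with
  | mem f hf =>
    obtain ⟨S, hS, rfl⟩ := hf
    unfold Ch at hg
    induction hg using Submodule.span_induction with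
    | mem g hg =>
      obtain ⟨T, hT, rfl⟩ := hg
      have h : chi S * chi T = chi (symmDiff S T) := by
        funext a
        rw [chi_mul]; rfl
      rw [h]
      exact chi_mem _ _ ((card_symmDiff_le S T).trans (by omega))
    | zero => rw [mul_zero]; exact Submodule.zero_mem _
    | add x y _ _ hx hy => rw [mul_add]; exact Submodule.add_mem _ hx hy
    | smul r x _ hx => rw [mul_smul_comm]; exact Submodule.smul_mem _ _ hx
  | zero => rw [zero_mul]; exact Submodule.zero_mem _
  | add x y _ _ hx hy => rw [add_mul]; exact Submodule.add_mem _ hx hy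
  | smul r x _ hx => rw [smul_mul_assoc]; exact Submodule.smul_mem _ _ hx

theorem lit_mem (x : V) (b : Bool) : (fun a : V → Bool => if a x = b then (1 : ℝ) else 0) ∈ Ch V 1 := by
  have h : (fun a : V → Bool => if a x = b then (1 : ℝ) else 0) =
      (1 / 2 : ℝ) • (fun _ => 1 : (V → Bool) → ℝ) +
        ((if b then (-1 : ℝ) else 1) / 2) • chi ({x} : Finset V) := by
    funext a
    simp only [Pi.add_apply, Pi.smul_apply, smul_eq_mul, chi, prod_singleton]
    cases a x <;> cases b <;> norm_num
  rw [h]
  apply Submodule.add_mem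
  · exact Submodule.smul_mem _ _ (one_mem 1)
  · exact Submodule.smul_mem _ _ (chi_mem _ _ (by simp))

theorem mono_mem (S : Finset V) : mono S ∈ Ch V S.card := by
  classical
  induction S using Finset.induction_on with
  | empty =>
    have h : mono (∅ : Finset V) = (fun _ => 1 : (V → Bool) → ℝ) := by
      funext a; simp [mono]
    rw [h]
    exact one_mem _
  | insert x S hx ih =>
    have h : mono (insert x S) = (fun a : V → Bool => if a x = true then (1 : ℝ) else 0) * mono S := by
      funext a
      simp only [mono, Pi.mul_apply, mem_insert, forall_eq_or_imp]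
      by_cases h1 : a x = true
      · simp [h1]
      · simp [h1]
    rw [h, card_insert_of_notMem hx, add_comm]
    exact mul_mem (lit_mem x true) ih

theorem viol_mem (C : Finset (V × Bool)) : viol C ∈ Ch V C.card := by
  classical
  induction C using Finset.induction_on with
  | empty =>
    have h : viol (∅ : Finset (V × Bool)) = (fun _ => 1 : (V → Bool) → ℝ) := by
      funext a; simp [viol]
    rw [h]
    exact one_mem _
  | insert l C hl ih =>
    have h : viol (insert l C) =
        (fun a : V → Bool => if a l.1 = !l.2 then (1 : ℝ) else 0) * viol C := by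
      funext a
      simp only [viol, Pi.mul_apply, mem_insert, forall_eq_or_imp]
      have h2 : (a l.1 ≠ l.2) ↔ a l.1 = !l.2 := by
        cases a l.1 <;> cases l.2 <;> simp
      by_cases h1 : a l.1 = !l.2
      · rw [if_pos h1, one_mul]
        congr 1
        rw [eq_iff_iff]
        constructor
        · exact fun h => h.2
        · exact fun h => ⟨h2.mpr h1, h⟩
      · rw [if_neg h1, zero_mul, if_neg]
        intro h
        exact h1 (h2.mp h.1)
    rw [h, card_insert_of_notMem hl, add_comm]
    exact mul_mem (lit_mem l.1 (!l.2)) ih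

theorem Ch_mono {d e : ℕ} (h : d ≤ e) : Ch V d ≤ Ch V e := by
  apply Submodule.span_mono
  rintro g ⟨S, hS, rfl⟩
  exact ⟨S, hS.trans h, rfl⟩

theorem degLE_mem {d : ℕ} {f : (V → Bool) → ℝ} (hf : DegLE d f) : f ∈ Ch V d := by
  have h : Submodule.span ℝ {g : (V → Bool) → ℝ | ∃ S : Finset V, S.card ≤ d ∧ g = mono S} ≤
      Ch V d := by
    rw [Submodule.span_le]
    rintro g ⟨S, hS, rfl⟩
    exact Ch_mono hS (mono_mem S)
  exact h hf

/-- the linear functional with prescribed values on the characters -/
noncomputable def EE (e : Finset V → ℝ) : ((V → Bool) → ℝ) →ₗ[ℝ] ℝ :=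
  ∑ S : Finset V, (e S / 2 ^ (Fintype.card V)) • ∑ a : V → Bool, (chi S a) • LinearMap.proj a

theorem EE_chi (e : Finset V → ℝ) (T : Finset V) : EE e (chi T) = e T := by
  classical
  unfold EE
  rw [LinearMap.sum_apply]
  have h1 : ∀ S ∈ (univ : Finset (Finset V)), ((e S / 2 ^ (Fintype.card V)) •
      ∑ a : V → Bool, (chi S a) • (LinearMap.proj a : ((V → Bool) → ℝ) →ₗ[ℝ] ℝ)) (chi T) =
      if S = T then e S else 0 := by
    intro S _
    rw [LinearMap.smul_apply, LinearMap.sum_apply]
    simp only [LinearMap.smul_apply, LinearMap.proj_apply, smul_eq_mul]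
    rw [chi_orth]
    by_cases h : S = T
    · rw [if_pos h, if_pos h]
      field_simp
    · rw [if_neg h, if_neg h, mul_zero]
  rw [sum_congr rfl h1, sum_ite_eq' univ T e, if_pos (mem_univ _)]

/-- shift: multiplication by a character -/
theorem EE_shift (e : Finset V → ℝ) (U : Finset V) (s : ℝ) (D : ℕ)
    (h : ∀ T : Finset V, T.card ≤ D → e (symmDiff T U) = s * e T) (f : (V → Bool) → ℝ)
    (hf : f ∈ Ch V D) : EE e (f * chi U) = s * EE e f := by
  unfold Ch at hf
  induction hf using Submodule.span_induction with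
  | mem f hf =>
    obtain ⟨T, hT, rfl⟩ := hf
    have h1 : chi T * chi U = chi (symmDiff T U) := by
      funext a; rw [chi_mul]; rfl
    rw [h1, EE_chi, EE_chi, h T hT]
  | zero => rw [zero_mul, map_zero, mul_zero]
  | add x y _ _ hx hy => rw [add_mul, map_add, map_add, hx, hy]; ring
  | smul r x _ hx =>
    rw [smul_mul_assoc, map_smul, map_smul, hx, smul_eq_mul, smul_eq_mul]; ring

/-- a function in `Ch V d` as a combination of characters -/
theorem Ch_expand {d : ℕ} {f : (V → Bool) → ℝ} (hf : f ∈ Ch V d) :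
    ∃ c : {S : Finset V // S.card ≤ d} → ℝ, f = ∑ S, c S • chi S.1 := by
  classical
  unfold Ch at hf
  induction hf using Submodule.span_induction with
  | mem f hf =>
    obtain ⟨T, hT, rfl⟩ := hf
    refine ⟨fun S => if S = ⟨T, hT⟩ then 1 else 0, ?_⟩
    rw [sum_eq_single (⟨T, hT⟩ : {S : Finset V // S.card ≤ d})]
    · simp
    · intro b _ hb
      simp [hb]
    · intro h; exact absurd (mem_univ _) h
  | zero => exact ⟨fun _ => 0, by simp⟩
  | add x y _ _ hx hy =>
    obtain ⟨c, hc⟩ := hx
    obtain ⟨c', hc'⟩ := hy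
    refine ⟨fun S => c S + c' S, ?_⟩
    rw [hc, hc', ← sum_add_distrib]
    apply sum_congr rfl
    intro S _
    rw [add_smul]
  | smul r x _ hx =>
    obtain ⟨c, hc⟩ := hx
    refine ⟨fun S => r * c S, ?_⟩
    rw [hc, smul_sum]
    apply sum_congr rfl
    intro S _
    rw [mul_smul]

theorem EE_sq (e : Finset V → ℝ) (d : ℕ) (hdiag : e ∅ = 1)
    (htr : ∀ S T U : Finset V, S.card ≤ d → T.card ≤ d → U.card ≤ d →
      e (symmDiff S T) ≠ 0 → e (symmDiff S U) = e (symmDiff S T) * e (symmDiff T U))
    (f : (V → Bool) → ℝ) (hf : f ∈ Ch V d) : 0 ≤ EE e (f * f) := by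
  classical
  obtain ⟨c, hc⟩ := Ch_expand hf
  have h1 : EE e (f * f) = ∑ S : {S : Finset V // S.card ≤ d}, ∑ T : {S : Finset V // S.card ≤ d},
      c S * c T * e (symmDiff S.1 T.1) := by
    rw [hc, sum_mul_sum, map_sum]
    apply sum_congr rfl
    intro S _
    rw [map_sum]
    apply sum_congr rfl
    intro T _
    have h2 : (c S • chi S.1) * (c T • chi T.1) = (c S * c T) • chi (symmDiff S.1 T.1) := by
      funext a
      simp only [Pi.mul_apply, Pi.smul_apply, smul_eq_mul]
      rw [chi_mul]
      ring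
    rw [h2, map_smul, EE_chi, smul_eq_mul]
  rw [h1]
  apply psd (fun S T : {S : Finset V // S.card ≤ d} => e (symmDiff S.1 T.1))
  · intro S T
    show e (symmDiff S.1 T.1) = e (symmDiff T.1 S.1)
    rw [symmDiff_comm]
  · intro S
    show e (symmDiff S.1 S.1) = 1
    rw [symmDiff_self]
    exact hdiag
  · intro S T U h
    exact htr S.1 T.1 U.1 S.2 T.2 U.2 h

end Pool.Agent.LKCNF
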