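import Pool.Agent.LKCNF.Defs

set_option autoImplicit false

/-!
# Tree-like resolution

`TreeRes F C s`: the clause `C` has a tree-like resolution derivation from `F` with `s` nodes
(leaves and resolution steps; weakening is allowed everywhere and is not counted).
-/

namespace Pool.Agent.LKCNF

/-- `TreeRes F C s`: there is a tree-like resolution derivation of the clause `C` from `F` with `s`
nodes; the leaves are clauses of `F`, the inner nodes are resolution steps, and a clause may be
weakened anywhere (weakenings are not counted) -/
inductive TreeRes {V : Type} [DecidableEq V] (F : Finset (Finset (V × Bool))) :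
    Finset (V × Bool) → ℕ → Prop
  | ax (C : Finset (V × Bool)) (hC : C ∈ F) : TreeRes F C 1
  | weaken (C D : Finset (V × Bool)) (s : ℕ) (hC : TreeRes F C s) (hCD : C ⊆ D) : TreeRes F D s
  | resolve (C D : Finset (V × Bool)) (s u : ℕ) (x : V) (hC : TreeRes F C s)
      (hD : TreeRes F D u) (hxC : (x, true) ∈ C) (hxD : (x, false) ∈ D) :
      TreeRes F (C.erase (x, true) ∪ D.erase (x, false)) (s + u + 1)

end Pool.Agent.LKCNF
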