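import Pool.Agent.LKCNF.TreePot

set_option autoImplicit false

/-!
# A bad history has a code with a large potential
-/

namespace Pool.Agent.LKCNF.Tree

open Finset

variable {V : Type} [DecidableEq V]

/-- the data attached to one false literal of the centre -/
theorem one_leg {k : ℕ} {F : Finset (Finset (V × Bool))} {t r : ℕ} (hk : IsKCNF k F)
    (hr : r + 2 * t = k + 1) (hr2 : 2 ≤ r) {h : List (V × Bool × Bool)} (hv : Valid F t h)
    (hcl : Clean F t h) {D : Finset (V × Bool)} (hD : D ∈ F) {l : V × Bool} (hl : l ∈ D)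
    (hf : (l.1, !l.2, false) ∈ h) :
    ∃ (E : Finset (V × Bool)) (α β : ℕ) (a b : V), E ∈ F ∧ E ≠ D ∧ l.1 ∈ vbl E ∧ Tp r E h ∧
      r ≤ fcnt (fvs h) E ∧ α < (fvs h).length ∧ β < (fvs h).length ∧
      att (fvs h) α = some a ∧ att (fvs h) β = some b ∧ a ≠ b ∧ a ∈ vbl E ∧ b ∈ vbl E ∧
      l.1 ≠ a ∧
      ∀ x ys, (x :: ys) <:+ fvs h → x ∈ vbl E → 1 ≤ fcnt ys E →
        α ≤ ys.length ∧ β ≤ ys.length := by
  obtain ⟨E, hE, hlE, htp, hcnt⟩ := forced_clause hk hr hv hcl hf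
  obtain ⟨α, β, a, b, hα, hβ, ha, hb, hab, haE, hbE, hall⟩ :=
    two_first (fvs_nodup hv) (hr2.trans hcnt)
  refine ⟨E, α, β, a, b, hE, ?_, mem_vbl.2 ⟨_, hlE⟩, htp, hcnt, hα, hβ, ha, hb, hab, haE, hbE,
    ?_, hall⟩
  · rintro rfl
    exact not_both hk hD (b := l.2) hl hlE
  · rintro rfl
    apply not_mem_fvs hv hf
    have h1 : l.1 ∈ (fvs h).reverse := by
      unfold att at ha
      exact List.mem_of_getElem? ha
    exact List.mem_reverse.1 h1

theorem att_or {zs xs : List V} (h : zs <:+ xs) {a : ℕ} {x : V} (hx : att xs a = some x) :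
    att zs a = some x ∨ att zs a = none := by
  by_cases h1 : a < zs.length
  · left
    rw [att_suffix h h1, hx]
  · right
    exact att_none (not_lt.1 h1)

theorem cl_or {F : Finset (Finset (V × Bool))} (hl : IsLinear F) {C : Finset (V × Bool)}
    (hC : C ∈ F) {a b : V} (hab : a ≠ b) (ha : a ∈ vbl C) (hb : b ∈ vbl C) {u v : Option V}
    (hu : u = some a ∨ u = none) (hv : v = some b ∨ v = none) :
    cl F u v = C ∨ cl F u v = ∅ := by
  rcases hu with rfl | rfl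
  · rcases hv with rfl | rfl
    · left
      exact cl_eq hl hC hab ha hb
    · right
      exact cl_none_right _
  · right
    exact cl_none_left _

theorem pv_or {C K : Finset (V × Bool)} {p : ℕ} {x : V} (h : pv C p = some x)
    (hK : K = C ∨ K = ∅) : pv K p = some x ∨ pv K p = none := by
  rcases hK with rfl | rfl
  · exact Or.inl h
  · exact Or.inr (pv_empty p)

theorem extract {k : ℕ} {F : Finset (Finset (V × Bool))} {m r f : ℕ} (hk : IsKCNF k F)
    (hlin : IsLinear F) (hr : r + 2 * (m + 2) = k + 1) (hr2 : 2 ≤ r)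
    {h : List (V × Bool × Bool)} (hv : Valid F (m + 2) h) (hcl : Clean F (m + 2) h)
    (hbad : Bad F (m + 2) h) (hlen : (fvs h).length ≤ f) :
    ∃ d : Dat k f m, (2 : ℝ) ^ ((m + 2) * (r - 1) - (m + 2).choose 2) ≤ B r F d h := by
  classical
  obtain ⟨D, hD, hff⟩ := hbad
  obtain ⟨Z, hZsub, hZ⟩ := Finset.exists_subset_card_eq hff
  have hleg : ∀ l : V × Bool, l ∈ Z → ∃ (E : Finset (V × Bool)) (α β : ℕ) (a b : V),
      E ∈ F ∧ E ≠ D ∧ l.1 ∈ vbl E ∧ Tp r E h ∧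
      r ≤ fcnt (fvs h) E ∧ α < (fvs h).length ∧ β < (fvs h).length ∧
      att (fvs h) α = some a ∧ att (fvs h) β = some b ∧ a ≠ b ∧ a ∈ vbl E ∧ b ∈ vbl E ∧
      l.1 ≠ a ∧
      ∀ x ys, (x :: ys) <:+ fvs h → x ∈ vbl E → 1 ≤ fcnt ys E →
        α ≤ ys.length ∧ β ≤ ys.length := by
    intro l hl
    obtain ⟨h1, h2⟩ := Finset.mem_filter.1 (hZsub hl)
    exact one_leg hk hr hr2 hv hcl hD h1 h2
  have hZD : ∀ l ∈ Z, l ∈ D := fun l hl => (Finset.mem_filter.1 (hZsub hl)).1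
  have hZvD : ∀ l ∈ Z, l.1 ∈ vbl D := fun l hl => mem_vbl.2 ⟨l.2, hZD l hl⟩
  choose! E α β a b hE hED hlE htp hcnt hα hβ ha hb hab haE hbE hla hall using hleg
  have hne : ∀ l ∈ Z, ∀ l' ∈ Z, l ≠ l' → l.1 ≠ l'.1 := by
    intro l hl l' hl' hn he
    exact hn (inj_of hk hD (Finset.mem_coe.2 (hZD l hl)) (Finset.mem_coe.2 (hZD l' hl')) he)
  have hinj : ∀ l ∈ Z, ∀ l' ∈ Z, E l = E l' → l = l' := by
    intro l hl l' hl' he
    by_contra hn
    have h1 := hlin _ (hE l hl) D hD (hED l hl)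
    have h2 : ({l.1, l'.1} : Finset V) ⊆ vbl (E l) ∩ vbl D := by
      intro x hx
      rcases Finset.mem_insert.1 hx with rfl | hx
      · exact Finset.mem_inter.2 ⟨hlE l hl, hZvD l hl⟩
      · rw [Finset.mem_singleton.1 hx]
        refine Finset.mem_inter.2 ⟨?_, hZvD l' hl'⟩
        rw [he]
        exact hlE l' hl'
    have h3 := Finset.card_le_card h2
    rw [Finset.card_pair (hne l hl l' hl' hn)] at h3
    omega
  -- the two first legs
  have hZne : Z.Nonempty := by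
    rw [← Finset.card_pos, hZ]
    omega
  obtain ⟨l₁, hl₁, hmin₁⟩ := Finset.exists_min_image Z (fun l => max (α l) (β l)) hZne
  have hZ1 : (Z.erase l₁).card = m + 1 := by
    rw [Finset.card_erase_of_mem hl₁, hZ]
    omega
  have hZ1ne : (Z.erase l₁).Nonempty := by
    rw [← Finset.card_pos, hZ1]
    omega
  obtain ⟨l₂, hl₂', hmin₂⟩ :=
    Finset.exists_min_image (Z.erase l₁) (fun l => max (α l) (β l)) hZ1ne
  obtain ⟨hl₂₁, hl₂⟩ := Finset.mem_erase.1 hl₂'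
  have hZ2 : ((Z.erase l₁).erase l₂).card = m := by
    rw [Finset.card_erase_of_mem hl₂', hZ1]
    omega
  obtain ⟨e⟩ : Nonempty (((Z.erase l₁).erase l₂ : Finset (V × Bool)) ≃ Fin m) :=
    ⟨Finset.equivFinOfCardEq hZ2⟩
  have hw : ∀ i : Fin m, ((e.symm i : V × Bool) ∈ Z) := fun i =>
    Finset.mem_of_mem_erase (Finset.mem_of_mem_erase (e.symm i).2)
  obtain ⟨p₁, hp₁⟩ := exists_pos hk (hE l₁ hl₁) (hlE l₁ hl₁)
  obtain ⟨p₂, hp₂⟩ := exists_pos hk (hE l₂ hl₂) (hlE l₂ hl₂)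
  have hq : ∀ i : Fin m, ∃ p : Fin k, pv D p = some (e.symm i : V × Bool).1 := fun i =>
    exists_pos hk hD (hZvD _ (hw i))
  choose q hq using hq
  let d : Dat k f m :=
    ((⟨α l₁, (hα l₁ hl₁).trans_le hlen⟩, ⟨β l₁, (hβ l₁ hl₁).trans_le hlen⟩, p₁),
      (⟨α l₂, (hα l₂ hl₂).trans_le hlen⟩, ⟨β l₂, (hβ l₂ hl₂).trans_le hlen⟩, p₂),
      fun i => (q i, ⟨α (e.symm i : V × Bool), (hα _ (hw i)).trans_le hlen⟩))
  have hK1 : ∀ zs, K1 F d zs = cl F (att zs (α l₁)) (att zs (β l₁)) := fun zs => rfl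
  have hK2 : ∀ zs, K2 F d zs = cl F (att zs (α l₂)) (att zs (β l₂)) := fun zs => rfl
  have hKD : ∀ zs, KD F d zs = cl F (pv (K1 F d zs) p₁) (pv (K2 F d zs) p₂) := fun zs => rfl
  have hK3 : ∀ zs i, K3 F d zs i =
      cl F (pv (KD F d zs) (q i)) (att zs (α (e.symm i : V × Bool))) := fun zs i => rfl
  have h12 : l₁.1 ≠ l₂.1 := hne l₁ hl₁ l₂ hl₂ (Ne.symm hl₂₁)
  -- the decoder never errs
  have o1 : ∀ zs, zs <:+ fvs h → K1 F d zs = E l₁ ∨ K1 F d zs = ∅ := by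
    intro zs hs
    rw [hK1]
    exact cl_or hlin (hE l₁ hl₁) (hab l₁ hl₁) (haE l₁ hl₁) (hbE l₁ hl₁)
      (att_or hs (ha l₁ hl₁)) (att_or hs (hb l₁ hl₁))
  have o2 : ∀ zs, zs <:+ fvs h → K2 F d zs = E l₂ ∨ K2 F d zs = ∅ := by
    intro zs hs
    rw [hK2]
    exact cl_or hlin (hE l₂ hl₂) (hab l₂ hl₂) (haE l₂ hl₂) (hbE l₂ hl₂)
      (att_or hs (ha l₂ hl₂)) (att_or hs (hb l₂ hl₂))
  have oD : ∀ zs, zs <:+ fvs h → KD F d zs = D ∨ KD F d zs = ∅ := by
    intro zs hs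
    rw [hKD]
    exact cl_or hlin hD h12 (hZvD l₁ hl₁) (hZvD l₂ hl₂) (pv_or hp₁ (o1 zs hs))
      (pv_or hp₂ (o2 zs hs))
  have o3 : ∀ zs, zs <:+ fvs h → ∀ i, K3 F d zs i = E (e.symm i : V × Bool) ∨
      K3 F d zs i = ∅ := by
    intro zs hs i
    rw [hK3]
    exact cl_or hlin (hE _ (hw i)) (hla _ (hw i)) (hlE _ (hw i)) (haE _ (hw i))
      (pv_or (hq i) (oD zs hs)) (att_or hs (ha _ (hw i)))
  -- the decoder knows enough
  have n1 : ∀ zs, zs <:+ fvs h → α l₁ < zs.length → β l₁ < zs.length → K1 F d zs = E l₁ := by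
    intro zs hs h1 h2
    rw [hK1, att_suffix hs h1, att_suffix hs h2, ha l₁ hl₁, hb l₁ hl₁]
    exact cl_eq hlin (hE l₁ hl₁) (hab l₁ hl₁) (haE l₁ hl₁) (hbE l₁ hl₁)
  have n2 : ∀ zs, zs <:+ fvs h → α l₂ < zs.length → β l₂ < zs.length → K2 F d zs = E l₂ := by
    intro zs hs h1 h2
    rw [hK2, att_suffix hs h1, att_suffix hs h2, ha l₂ hl₂, hb l₂ hl₂]
    exact cl_eq hlin (hE l₂ hl₂) (hab l₂ hl₂) (haE l₂ hl₂) (hbE l₂ hl₂)
  have nD : ∀ zs, K1 F d zs = E l₁ → K2 F d zs = E l₂ → KD F d zs = D := by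
    intro zs h1 h2
    rw [hKD, h1, h2, hp₁, hp₂]
    exact cl_eq hlin hD h12 (hZvD l₁ hl₁) (hZvD l₂ hl₂)
  have n3 : ∀ zs i, zs <:+ fvs h → KD F d zs = D → α (e.symm i : V × Bool) < zs.length →
      K3 F d zs i = E (e.symm i : V × Bool) := by
    intro zs i hs h1 h2
    rw [hK3, h1, hq i, att_suffix hs h2, ha _ (hw i)]
    exact cl_eq hlin (hE _ (hw i)) (hla _ (hw i)) (hlE _ (hw i)) (haE _ (hw i))
  refine ⟨d, ?_⟩
  have hS : (Z.image E).card = m + 2 := by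
    rw [Finset.card_image_of_injOn, hZ]
    intro l hl l' hl' he
    exact hinj l (Finset.mem_coe.1 hl) l' (Finset.mem_coe.1 hl') he
  have hmain := B_ge (r := r) (F := F) (d := d) (Z.image E) h ?_ ?_ ?_
  · refine le_trans ?_ hmain
    apply pow_le_pow_right₀ (by norm_num)
    have hc := card_biUnion_ge (Z.image E) (fun C => SS r C (fvs h)) (r - 1) ?_ ?_
    · rw [hS] at hc
      omega
    · intro C hC
      obtain ⟨l, hl, rfl⟩ := Finset.mem_image.1 hC
      have h1 := SS_card (r := r) (E := E l) (fvs_nodup hv)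
      have h2 := hcnt l hl
      rw [min_eq_right h2] at h1
      show r - 1 ≤ (SS r (E l) (fvs h)).card
      omega
    · intro C hC C' hC' hn
      obtain ⟨l, hl, rfl⟩ := Finset.mem_image.1 hC
      obtain ⟨l', hl', rfl⟩ := Finset.mem_image.1 hC'
      refine le_trans (Finset.card_le_card ?_) (hlin _ (hE l hl) _ (hE l' hl') hn)
      intro x hx
      obtain ⟨h1, h2⟩ := Finset.mem_inter.1 hx
      exact Finset.mem_inter.2 ⟨(Finset.mem_inter.1 (SS_sub r _ _ h1)).2,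
        (Finset.mem_inter.1 (SS_sub r _ _ h2)).2⟩
  · intro x ys hs C hC
    rcases hC with rfl | rfl | ⟨i, rfl⟩
    · rcases o1 _ hs with h1 | h1
      · left
        rw [h1]
        exact Finset.mem_image_of_mem _ hl₁
      · exact Or.inr h1
    · rcases o2 _ hs with h1 | h1
      · left
        rw [h1]
        exact Finset.mem_image_of_mem _ hl₂
      · exact Or.inr h1
    · rcases o3 _ hs i with h1 | h1
      · left
        rw [h1]
        exact Finset.mem_image_of_mem _ (hw i)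
      · exact Or.inr h1
  · intro x ys hs C hC hxC h1
    obtain ⟨l, hl, rfl⟩ := Finset.mem_image.1 hC
    obtain ⟨h2, h3⟩ := hall l hl x ys hs hxC h1
    have h4 := hmin₁ l hl
    have h5 : α l₁ ≤ max (α l₁) (β l₁) := le_max_left _ _
    have h6 : β l₁ ≤ max (α l₁) (β l₁) := le_max_right _ _
    have h7 : max (α l) (β l) ≤ ys.length := max_le h2 h3
    have h8 : max (α l₁) (β l₁) ≤ ys.length := le_trans h4 h7
    have hlen2 : (x :: ys).length = ys.length + 1 := List.length_cons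
    have hK1' : K1 F d (x :: ys) = E l₁ :=
      n1 _ hs (by omega) (by omega)
    by_cases hll : l = l₁
    · left
      rw [hll]
      exact hK1'.symm
    have h9 := hmin₂ l (Finset.mem_erase.2 ⟨hll, hl⟩)
    have h10 : α l₂ ≤ max (α l₂) (β l₂) := le_max_left _ _
    have h11 : β l₂ ≤ max (α l₂) (β l₂) := le_max_right _ _
    have h12' : max (α l₂) (β l₂) ≤ ys.length := le_trans h9 h7
    have hK2' : K2 F d (x :: ys) = E l₂ :=
      n2 _ hs (by omega) (by omega)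
    by_cases hll2 : l = l₂
    · right
      left
      rw [hll2]
      exact hK2'.symm
    right
    right
    have hlm : l ∈ (Z.erase l₁).erase l₂ :=
      Finset.mem_erase.2 ⟨hll2, Finset.mem_erase.2 ⟨hll, hl⟩⟩
    refine ⟨e ⟨l, hlm⟩, ?_⟩
    have hel : ((e.symm (e ⟨l, hlm⟩) : ((Z.erase l₁).erase l₂ : Finset (V × Bool))) :
        V × Bool) = l := by
      rw [Equiv.symm_apply_apply]
    rw [n3 (x :: ys) (e ⟨l, hlm⟩) hs (nD _ hK1' hK2') (by rw [hel]; omega), hel]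
  · intro C hC
    obtain ⟨l, hl, rfl⟩ := Finset.mem_image.1 hC
    exact htp l hl

end Pool.Agent.LKCNF.Tree
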