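import Pool.Agent.LKCNF.TreeDefs

set_option autoImplicit false

/-!
# Histories of the Prover-Delayer walk

A history is a list of entries `(x, b, φ)`, newest first: the variable `x` got the value `b`,
by a free choice (`φ = true`) or forced (`φ = false`).
-/

namespace Pool.Agent.LKCNF.Tree

open Finset

variable {V : Type} [DecidableEq V]

/-- the variables assigned in a history -/
def dm (h : List (V × Bool × Bool)) : Finset V := (h.map Prod.fst).toFinset

/-- the clause `C` is not satisfied by the history -/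
def Open (h : List (V × Bool × Bool)) (C : Finset (V × Bool)) : Prop :=
  ∀ l ∈ C, ∀ φ, (l.1, l.2, φ) ∉ h

/-- not satisfied and at most `t` unassigned variables -/
def Crit (t : ℕ) (h : List (V × Bool × Bool)) (C : Finset (V × Bool)) : Prop :=
  Open h C ∧ (vbl C \ dm h).card ≤ t

/-- the number of literals of `C` which are false by a forced entry -/
def ff (C : Finset (V × Bool)) (h : List (V × Bool × Bool)) : ℕ :=
  (C.filter fun l => (l.1, !l.2, false) ∈ h).card

/-- the number of literals of `C` which are false by a free entry -/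
def fr (C : Finset (V × Bool)) (h : List (V × Bool × Bool)) : ℕ :=
  (C.filter fun l => (l.1, !l.2, true) ∈ h).card

/-- the histories which follow the rules -/
def Valid (F : Finset (Finset (V × Bool))) (t : ℕ) : List (V × Bool × Bool) → Prop
  | [] => True
  | e :: h => Valid F t h ∧ e.1 ∉ dm h ∧
      (e.2.2 = true → ∀ C ∈ F, e.1 ∈ vbl C → ¬ Crit t h C) ∧
      (e.2.2 = false → ∃ E ∈ F, Crit t h E ∧ (e.1, e.2.1) ∈ E)

/-- some clause has at least `t` literals which are false by forced entries -/
def Bad (F : Finset (Finset (V × Bool))) (t : ℕ) (h : List (V × Bool × Bool)) : Prop :=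
  ∃ C ∈ F, t ≤ ff C h

/-- no proper suffix is bad -/
def Clean (F : Finset (Finset (V × Bool))) (t : ℕ) : List (V × Bool × Bool) → Prop
  | [] => True
  | _ :: h => Clean F t h ∧ ¬ Bad F t h

/-- the free variables, newest first -/
def fvs : List (V × Bool × Bool) → List V
  | [] => []
  | e :: h => if e.2.2 = true then e.1 :: fvs h else fvs h

/-- the number of free variables in the clause `E` -/
def fcnt (xs : List V) (E : Finset (V × Bool)) : ℕ := (xs.toFinset ∩ vbl E).card

/-- the first `r` free variables of `E` are false in `E` -/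
def Tp (r : ℕ) (E : Finset (V × Bool)) : List (V × Bool × Bool) → Prop
  | [] => True
  | e :: h => Tp r E h ∧
      (e.2.2 = true → e.1 ∈ vbl E → fcnt (fvs h) E < r → (e.1, !e.2.1) ∈ E)

/-! ### elementary facts -/

theorem mem_vbl {C : Finset (V × Bool)} {x : V} : x ∈ vbl C ↔ ∃ b, (x, b) ∈ C := by
  unfold vbl
  constructor
  · intro h
    obtain ⟨l, hl, hx⟩ := Finset.mem_image.1 h
    exact ⟨l.2, by rw [← hx]; exact hl⟩
  · rintro ⟨b, hb⟩
    exact Finset.mem_image.2 ⟨(x, b), hb, rfl⟩

theorem inj_of {k : ℕ} {F : Finset (Finset (V × Bool))} (hk : IsKCNF k F)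
    {C : Finset (V × Bool)} (hC : C ∈ F) : Set.InjOn Prod.fst (C : Set (V × Bool)) := by
  have h := hk C hC
  apply Finset.card_image_iff.1
  have : (C.image Prod.fst).card = k := h.2
  rw [this, h.1]

theorem not_both {k : ℕ} {F : Finset (Finset (V × Bool))} (hk : IsKCNF k F)
    {C : Finset (V × Bool)} (hC : C ∈ F) {x : V} {b : Bool} (h1 : (x, b) ∈ C)
    (h2 : (x, !b) ∈ C) : False := by
  have h := inj_of hk hC (Finset.mem_coe.2 h1) (Finset.mem_coe.2 h2) rfl
  have h3 : b = !b := (Prod.ext_iff.1 h).2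
  cases b <;> simp at h3

theorem mem_dm {h : List (V × Bool × Bool)} {x : V} : x ∈ dm h ↔ ∃ b φ, (x, b, φ) ∈ h := by
  unfold dm
  rw [List.mem_toFinset, List.mem_map]
  constructor
  · rintro ⟨e, he, rfl⟩
    exact ⟨e.2.1, e.2.2, he⟩
  · rintro ⟨b, φ, hb⟩
    exact ⟨_, hb, rfl⟩

theorem dm_cons (e : V × Bool × Bool) (h : List (V × Bool × Bool)) :
    dm (e :: h) = insert e.1 (dm h) := by
  unfold dm
  simp

theorem mem_fvs {h : List (V × Bool × Bool)} {x : V} : x ∈ fvs h ↔ ∃ b, (x, b, true) ∈ h := by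
  induction h with
  | nil => simp [fvs]
  | cons e h ih =>
    obtain ⟨y, c, φ⟩ := e
    unfold fvs
    cases φ with
    | true =>
      simp only [if_true, List.mem_cons, ih, Prod.mk.injEq, and_true]
      constructor
      · rintro (rfl | ⟨b, hb⟩)
        · exact ⟨c, Or.inl ⟨rfl, rfl⟩⟩
        · exact ⟨b, Or.inr hb⟩
      · rintro ⟨b, (⟨rfl, _⟩ | hb)⟩
        · exact Or.inl rfl
        · exact Or.inr ⟨b, hb⟩
    | false =>
      simp [ih]

/-- an entry is determined by its variable -/
theorem entry_unique {F : Finset (Finset (V × Bool))} {t : ℕ} {h : List (V × Bool × Bool)}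
    (hv : Valid F t h) {x : V} {p q : Bool × Bool} (h1 : (x, p) ∈ h) (h2 : (x, q) ∈ h) :
    p = q := by
  induction h with
  | nil => cases h1
  | cons e h ih =>
    obtain ⟨hv1, hnd, _, _⟩ := hv
    rcases List.mem_cons.1 h1 with h1 | h1 <;> rcases List.mem_cons.1 h2 with h2 | h2
    · rw [← h1] at h2
      exact (Prod.ext_iff.1 h2).2.symm
    · exfalso
      apply hnd
      rw [← h1]
      exact mem_dm.2 ⟨q.1, q.2, h2⟩
    · exfalso
      apply hnd
      rw [← h2]
      exact mem_dm.2 ⟨p.1, p.2, h1⟩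
    · exact ih hv1 h1 h2

theorem not_mem_fvs {F : Finset (Finset (V × Bool))} {t : ℕ} {h : List (V × Bool × Bool)}
    (hv : Valid F t h) {x : V} {b : Bool} (h1 : (x, b, false) ∈ h) : x ∉ fvs h := by
  intro h2
  obtain ⟨c, hc⟩ := mem_fvs.1 h2
  have := entry_unique hv h1 hc
  simp at this

theorem fvs_nodup {F : Finset (Finset (V × Bool))} {t : ℕ} {h : List (V × Bool × Bool)}
    (hv : Valid F t h) : (fvs h).Nodup := by
  induction h with
  | nil => simp [fvs]
  | cons e h ih =>
    obtain ⟨hv1, hnd, _, _⟩ := hv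
    unfold fvs
    split_ifs with he
    · rw [List.nodup_cons]
      refine ⟨?_, ih hv1⟩
      intro hx
      obtain ⟨b, hb⟩ := mem_fvs.1 hx
      exact hnd (mem_dm.2 ⟨b, true, hb⟩)
    · exact ih hv1

theorem open_tail {e : V × Bool × Bool} {h : List (V × Bool × Bool)} {C : Finset (V × Bool)}
    (ho : Open (e :: h) C) : Open h C :=
  fun l hl φ hm => ho l hl φ (List.mem_cons_of_mem _ hm)

theorem fcnt_cons (x : V) (ys : List V) (E : Finset (V × Bool)) (hx : x ∉ ys) :
    fcnt (x :: ys) E = fcnt ys E + (if x ∈ vbl E then 1 else 0) := by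
  unfold fcnt
  rw [List.toFinset_cons]
  split_ifs with h
  · rw [Finset.insert_inter_of_mem h, Finset.card_insert_of_notMem]
    intro h2
    exact hx (List.mem_toFinset.1 (Finset.mem_inter.1 h2).1)
  · rw [Finset.insert_inter_of_notMem h, add_zero]

theorem fcnt_mono {xs ys : List V} (h : ∀ x ∈ ys, x ∈ xs) (E : Finset (V × Bool)) :
    fcnt ys E ≤ fcnt xs E := by
  unfold fcnt
  apply Finset.card_le_card
  intro x hx
  obtain ⟨h1, h2⟩ := Finset.mem_inter.1 hx
  exact Finset.mem_inter.2 ⟨List.mem_toFinset.2 (h x (List.mem_toFinset.1 h1)), h2⟩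

theorem fvs_cons_sub (e : V × Bool × Bool) (h : List (V × Bool × Bool)) :
    ∀ x ∈ fvs h, x ∈ fvs (e :: h) := by
  intro x hx
  obtain ⟨b, hb⟩ := mem_fvs.1 hx
  exact mem_fvs.2 ⟨b, List.mem_cons_of_mem _ hb⟩

/-! ### free and unassigned variables of an open clause -/

theorem fr_add_un_le {k : ℕ} {F : Finset (Finset (V × Bool))} (hk : IsKCNF k F)
    {h : List (V × Bool × Bool)} {C : Finset (V × Bool)} (hC : C ∈ F) :
    fr C h + (vbl C \ dm h).card ≤ k := by
  have h1 : fr C h = ((C.filter fun l => (l.1, !l.2, true) ∈ h).image Prod.fst).card := by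
    unfold fr
    rw [Finset.card_image_of_injOn]
    exact (inj_of hk hC).mono (by
      intro l hl
      exact Finset.mem_coe.2 (Finset.mem_of_mem_filter _ (Finset.mem_coe.1 hl)))
  rw [h1, ← (hk C hC).2, ← Finset.card_union_of_disjoint]
  · apply Finset.card_le_card
    intro x hx
    rcases Finset.mem_union.1 hx with hx | hx
    · obtain ⟨l, hl, rfl⟩ := Finset.mem_image.1 hx
      exact mem_vbl.2 ⟨l.2, Finset.mem_of_mem_filter _ hl⟩
    · exact (Finset.mem_sdiff.1 hx).1
  · rw [Finset.disjoint_left]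
    intro x hx hx2
    obtain ⟨l, hl, rfl⟩ := Finset.mem_image.1 hx
    exact (Finset.mem_sdiff.1 hx2).2 (mem_dm.2 ⟨_, _, (Finset.mem_filter.1 hl).2⟩)

theorem fr_le {k : ℕ} {F : Finset (Finset (V × Bool))} {t : ℕ} (hk : IsKCNF k F) (htk : t ≤ k)
    {h : List (V × Bool × Bool)} (hv : Valid F t h) {C : Finset (V × Bool)} (hC : C ∈ F)
    (ho : Open h C) : fr C h + t ≤ k := by
  induction h with
  | nil =>
    have : fr C ([] : List (V × Bool × Bool)) = 0 := by simp [fr]
    omega
  | cons e h ih =>
    obtain ⟨hv1, hnd, hfree, _⟩ := hv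
    have ih := ih hv1 (open_tail ho)
    by_cases he : e.2.2 = true ∧ e.1 ∈ vbl C
    · have hnc := hfree he.1 C hC he.2
      have h2 : ¬ (vbl C \ dm h).card ≤ t := fun hle => hnc ⟨open_tail ho, hle⟩
      have h3 := fr_add_un_le hk (h := h) hC
      have h4 : fr C (e :: h) ≤ fr C h + 1 := by
        unfold fr
        have : (C.filter fun l => (l.1, !l.2, true) ∈ e :: h) ⊆
            insert (e.1, !e.2.1) (C.filter fun l => (l.1, !l.2, true) ∈ h) := by
          intro l hl
          obtain ⟨hl1, hl2⟩ := Finset.mem_filter.1 hl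
          rcases List.mem_cons.1 hl2 with hl2 | hl2
          · apply Finset.mem_insert.2
            left
            rw [← hl2]
            simp
          · exact Finset.mem_insert_of_mem (Finset.mem_filter.2 ⟨hl1, hl2⟩)
        exact (Finset.card_le_card this).trans (Finset.card_insert_le _ _)
      omega
    · have : fr C (e :: h) = fr C h := by
        unfold fr
        congr 1
        apply Finset.filter_congr
        intro l hl
        rw [List.mem_cons]
        constructor
        · rintro (h2 | h2)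
          · exfalso
            apply he
            rw [← h2]
            exact ⟨rfl, mem_vbl.2 ⟨l.2, hl⟩⟩
          · exact h2
        · exact Or.inr
      rw [this]
      exact ih

/-- a false clause is bad -/
theorem bad_of_false {k : ℕ} {F : Finset (Finset (V × Bool))} {t : ℕ} (hk : IsKCNF k F)
    (htk : t ≤ k) {h : List (V × Bool × Bool)} (hv : Valid F t h) {C : Finset (V × Bool)}
    (hC : C ∈ F) (hf : ∀ l ∈ C, ∃ φ, (l.1, !l.2, φ) ∈ h) : Bad F t h := by
  refine ⟨C, hC, ?_⟩
  have ho : Open h C := by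
    intro l hl φ hm
    obtain ⟨ψ, hψ⟩ := hf l hl
    have h2 := entry_unique hv hm hψ
    have h3 : l.2 = !l.2 := (Prod.ext_iff.1 h2).1
    cases hl2 : l.2 <;> rw [hl2] at h3 <;> simp at h3
  have h1 := fr_le hk htk hv hC ho
  have h2 : C.card ≤ ff C h + fr C h := by
    unfold ff fr
    have : C ⊆ (C.filter fun l => (l.1, !l.2, false) ∈ h) ∪
        (C.filter fun l => (l.1, !l.2, true) ∈ h) := by
      intro l hl
      obtain ⟨φ, hφ⟩ := hf l hl
      cases φ with
      | false => exact Finset.mem_union_left _ (Finset.mem_filter.2 ⟨hl, hφ⟩)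
      | true => exact Finset.mem_union_right _ (Finset.mem_filter.2 ⟨hl, hφ⟩)
    exact (Finset.card_le_card this).trans (Finset.card_union_le _ _)
  have h3 := (hk C hC).1
  omega

/-- a critical clause which is not bad has many free false literals -/
theorem fr_ge {k : ℕ} {F : Finset (Finset (V × Bool))} {t : ℕ} (hk : IsKCNF k F)
    {h : List (V × Bool × Bool)} {C : Finset (V × Bool)}
    (hC : C ∈ F) (hc : Crit t h C) (hb : ff C h < t) : k + 1 ≤ fr C h + 2 * t := by
  have h1 : C.card ≤ ff C h + fr C h + (C.filter fun l => l.1 ∉ dm h).card := by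
    unfold ff fr
    have : C ⊆ ((C.filter fun l => (l.1, !l.2, false) ∈ h) ∪
        (C.filter fun l => (l.1, !l.2, true) ∈ h)) ∪ (C.filter fun l => l.1 ∉ dm h) := by
      intro l hl
      by_cases hd : l.1 ∈ dm h
      · obtain ⟨b, φ, hφ⟩ := mem_dm.1 hd
        have hb2 : b ≠ l.2 := by
          intro hbl
          rw [hbl] at hφ
          exact hc.1 l hl φ hφ
        have hb3 : b = !l.2 := by
          cases hl2 : l.2 <;> cases b <;> simp_all
        rw [hb3] at hφ
        apply Finset.mem_union_left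
        cases φ with
        | false => exact Finset.mem_union_left _ (Finset.mem_filter.2 ⟨hl, hφ⟩)
        | true => exact Finset.mem_union_right _ (Finset.mem_filter.2 ⟨hl, hφ⟩)
      · exact Finset.mem_union_right _ (Finset.mem_filter.2 ⟨hl, hd⟩)
    refine (Finset.card_le_card this).trans ((Finset.card_union_le _ _).trans ?_)
    exact Nat.add_le_add_right (Finset.card_union_le _ _) _
  have h2 : (C.filter fun l => l.1 ∉ dm h).card ≤ t := by
    have : (C.filter fun l => l.1 ∉ dm h).card =
        ((C.filter fun l => l.1 ∉ dm h).image Prod.fst).card := by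
      rw [Finset.card_image_of_injOn]
      exact (inj_of hk hC).mono (by
        intro l hl
        exact Finset.mem_coe.2 (Finset.mem_of_mem_filter _ (Finset.mem_coe.1 hl)))
    rw [this]
    refine (Finset.card_le_card ?_).trans hc.2
    intro x hx
    obtain ⟨l, hl, rfl⟩ := Finset.mem_image.1 hx
    obtain ⟨h3, h4⟩ := Finset.mem_filter.1 hl
    exact Finset.mem_sdiff.2 ⟨mem_vbl.2 ⟨l.2, h3⟩, h4⟩
  have h3 := (hk C hC).1
  omega

theorem fr_le_fcnt {k : ℕ} {F : Finset (Finset (V × Bool))} (hk : IsKCNF k F)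
    (h : List (V × Bool × Bool)) {C : Finset (V × Bool)} (hC : C ∈ F) :
    fr C h ≤ fcnt (fvs h) C := by
  have h1 : fr C h = ((C.filter fun l => (l.1, !l.2, true) ∈ h).image Prod.fst).card := by
    unfold fr
    rw [Finset.card_image_of_injOn]
    exact (inj_of hk hC).mono (by
      intro l hl
      exact Finset.mem_coe.2 (Finset.mem_of_mem_filter _ (Finset.mem_coe.1 hl)))
  rw [h1]
  unfold fcnt
  apply Finset.card_le_card
  intro x hx
  obtain ⟨l, hl, rfl⟩ := Finset.mem_image.1 hx
  obtain ⟨h2, h3⟩ := Finset.mem_filter.1 hl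
  exact Finset.mem_inter.2 ⟨List.mem_toFinset.2 (mem_fvs.2 ⟨_, h3⟩), mem_vbl.2 ⟨l.2, h2⟩⟩

theorem tp_of_open {r : ℕ} {h : List (V × Bool × Bool)} {E : Finset (V × Bool)}
    (ho : Open h E) : Tp r E h := by
  induction h with
  | nil => trivial
  | cons e h ih =>
    refine ⟨ih (open_tail ho), ?_⟩
    intro _ hx _
    obtain ⟨b, hb⟩ := mem_vbl.1 hx
    have : b ≠ e.2.1 := by
      intro hbe
      rw [hbe] at hb
      exact ho _ hb e.2.2 (List.mem_cons.2 (Or.inl rfl))
    have h2 : b = !e.2.1 := by
      cases hb2 : e.2.1 <;> cases b <;> simp_all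
    rw [← h2]
    exact hb

/-- every forced entry comes from a clause whose first `r` free variables are false -/
theorem forced_clause {k : ℕ} {F : Finset (Finset (V × Bool))} {t r : ℕ} (hk : IsKCNF k F)
    (hr : r + 2 * t = k + 1) {h : List (V × Bool × Bool)} (hv : Valid F t h) (hcl : Clean F t h)
    {x : V} {b : Bool} (hx : (x, b, false) ∈ h) :
    ∃ E ∈ F, (x, b) ∈ E ∧ Tp r E h ∧ r ≤ fcnt (fvs h) E := by
  induction h with
  | nil => cases hx
  | cons e h ih =>
    obtain ⟨hv1, hnd, _, hforced⟩ := hv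
    obtain ⟨hcl1, hnb⟩ := hcl
    rcases List.mem_cons.1 hx with hx | hx
    · subst hx
      obtain ⟨E, hE, hcr, hxE⟩ := hforced rfl
      have hff : ff E h < t := by
        by_contra hge
        exact hnb ⟨E, hE, not_lt.1 hge⟩
      have h1 := fr_ge hk hE hcr hff
      have h2 := fr_le_fcnt hk h hE
      refine ⟨E, hE, hxE, ⟨tp_of_open hcr.1, ?_⟩, ?_⟩
      · intro h3
        simp at h3
      · have : fvs ((x, b, false) :: h) = fvs h := by simp [fvs]
        rw [this]
        omega
    · obtain ⟨E, hE, hxE, htp, hcnt⟩ := ih hv1 hcl1 hx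
      refine ⟨E, hE, hxE, ⟨htp, ?_⟩, hcnt.trans (fcnt_mono (fvs_cons_sub e h) E)⟩
      intro _ _ h3
      omega

end Pool.Agent.LKCNF.Tree
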