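import Pool.Agent.LKCNF.TreeHist

set_option autoImplicit false

/-!
# From a potential to the number of nodes
-/

namespace Pool.Agent.LKCNF.Tree

open Finset

variable {V : Type} [DecidableEq V]

theorem fls_left {h : List (V × Bool × Bool)} {C D : Finset (V × Bool)} {x : V}
    (hf : ∀ l ∈ C.erase (x, true) ∪ D.erase (x, false), ∃ φ, (l.1, !l.2, φ) ∈ h)
    {g : List (V × Bool × Bool)} (hg : ∀ e ∈ h, e ∈ g) {φ : Bool} (hx : (x, false, φ) ∈ g) :
    ∀ l ∈ C, ∃ φ, (l.1, !l.2, φ) ∈ g := by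
  intro l hl
  by_cases hlx : l = (x, true)
  · subst hlx
    exact ⟨φ, hx⟩
  · obtain ⟨ψ, hψ⟩ := hf l (Finset.mem_union_left _ (Finset.mem_erase.2 ⟨hlx, hl⟩))
    exact ⟨ψ, hg _ hψ⟩

theorem fls_right {h : List (V × Bool × Bool)} {C D : Finset (V × Bool)} {x : V}
    (hf : ∀ l ∈ C.erase (x, true) ∪ D.erase (x, false), ∃ φ, (l.1, !l.2, φ) ∈ h)
    {g : List (V × Bool × Bool)} (hg : ∀ e ∈ h, e ∈ g) {φ : Bool} (hx : (x, true, φ) ∈ g) :
    ∀ l ∈ D, ∃ φ, (l.1, !l.2, φ) ∈ g := by
  intro l hl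
  by_cases hlx : l = (x, false)
  · subst hlx
    exact ⟨φ, hx⟩
  · obtain ⟨ψ, hψ⟩ := hf l (Finset.mem_union_right _ (Finset.mem_erase.2 ⟨hlx, hl⟩))
    exact ⟨ψ, hg _ hψ⟩

theorem le_of_big {a : ℕ} {p q : ℝ} (hp : 1 ≤ p) (hq : 0 ≤ q) : (2 : ℝ) ^ a * (1 - p) ≤ q := by
  have h1 : (0 : ℝ) < 2 ^ a := by positivity
  nlinarith

theorem leaves {k : ℕ} {F : Finset (Finset (V × Bool))} {t f : ℕ} (hk : IsKCNF k F)
    (htk : t ≤ k) (Φ : List (V × Bool × Bool) → ℝ) (h0 : ∀ h, 0 ≤ Φ h)
    (hforced : ∀ x b h, Φ ((x, b, false) :: h) ≤ Φ h)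
    (hfree : ∀ x h, Φ ((x, true, true) :: h) + Φ ((x, false, true) :: h) ≤ 2 * Φ h)
    (hbad : ∀ h, Valid F t h → Clean F t h → Bad F t h → (fvs h).length ≤ f → 1 ≤ Φ h)
    {D : Finset (V × Bool)} {s : ℕ} (hD : TreeRes F D s) :
    ∀ h, Valid F t h → Clean F t h → (fvs h).length ≤ f →
      (∀ l ∈ D, ∃ φ, (l.1, !l.2, φ) ∈ h) →
      (2 : ℝ) ^ (f - (fvs h).length) * (1 - Φ h) ≤ s := by
  induction hD with
  | ax C hC =>
    intro h hv hcl hlen hf
    exact le_of_big (hbad h hv hcl (bad_of_false hk htk hv hC hf) hlen) (Nat.cast_nonneg _)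
  | weaken C D s _ hCD ih =>
    intro h hv hcl hlen hf
    exact ih h hv hcl hlen (fun l hl => hf l (hCD hl))
  | resolve C D s u x _ _ _ _ ihC ihD =>
    intro h hv hcl hlen hf
    have hs0 : (0 : ℝ) ≤ s := Nat.cast_nonneg _
    have hu0 : (0 : ℝ) ≤ u := Nat.cast_nonneg _
    push_cast
    by_cases hb : Bad F t h
    · exact le_of_big (hbad h hv hcl hb hlen) (by linarith)
    by_cases hx : x ∈ dm h
    · obtain ⟨b, φ, hm⟩ := mem_dm.1 hx
      cases b with
      | false =>
        have := ihC h hv hcl hlen (fls_left hf (fun e he => he) hm)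
        linarith
      | true =>
        have := ihD h hv hcl hlen (fls_right hf (fun e he => he) hm)
        linarith
    by_cases hE : ∃ E ∈ F, Crit t h E ∧ x ∈ vbl E
    · obtain ⟨E, hEF, hcr, hxE⟩ := hE
      obtain ⟨b, hbE⟩ := mem_vbl.1 hxE
      have hv2 : Valid F t ((x, b, false) :: h) :=
        ⟨hv, hx, fun h2 => by simp at h2, fun _ => ⟨E, hEF, hcr, hbE⟩⟩
      have hcl2 : Clean F t ((x, b, false) :: h) := ⟨hcl, hb⟩
      have hfv : fvs ((x, b, false) :: h) = fvs h := by simp [fvs]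
      have hΦ := hforced x b h
      have hpow : (0 : ℝ) < 2 ^ (f - (fvs h).length) := by positivity
      have hsub : ∀ e ∈ h, e ∈ (x, b, false) :: h := fun e he => List.mem_cons_of_mem _ he
      have hmul : (2 : ℝ) ^ (f - (fvs h).length) * (1 - Φ h) ≤
          2 ^ (f - (fvs h).length) * (1 - Φ ((x, b, false) :: h)) := by
        apply mul_le_mul_of_nonneg_left _ hpow.le
        linarith
      cases b with
      | false =>
        have := ihC _ hv2 hcl2 (by rw [hfv]; exact hlen)
          (fls_left hf hsub (φ := false) (List.mem_cons.2 (Or.inl rfl)))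
        rw [hfv] at this
        linarith
      | true =>
        have := ihD _ hv2 hcl2 (by rw [hfv]; exact hlen)
          (fls_right hf hsub (φ := false) (List.mem_cons.2 (Or.inl rfl)))
        rw [hfv] at this
        linarith
    · rcases Nat.lt_or_ge (fvs h).length f with hlt | hge
      · have hv2 : ∀ b, Valid F t ((x, b, true) :: h) := fun b =>
          ⟨hv, hx, fun _ C hC hxC hcr => hE ⟨C, hC, hcr, hxC⟩, fun h2 => by simp at h2⟩
        have hcl2 : ∀ b, Clean F t ((x, b, true) :: h) := fun b => ⟨hcl, hb⟩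
        have hfv : ∀ b, fvs ((x, b, true) :: h) = x :: fvs h := fun b => by simp [fvs]
        have hsub : ∀ b, ∀ e ∈ h, e ∈ (x, b, true) :: h :=
          fun b e he => List.mem_cons_of_mem _ he
        have h1 := ihC _ (hv2 false) (hcl2 false) (by rw [hfv, List.length_cons]; exact hlt)
          (fls_left hf (hsub false) (φ := true) (List.mem_cons.2 (Or.inl rfl)))
        have h2 := ihD _ (hv2 true) (hcl2 true) (by rw [hfv, List.length_cons]; exact hlt)
          (fls_right hf (hsub true) (φ := true) (List.mem_cons.2 (Or.inl rfl)))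
        rw [hfv, List.length_cons] at h1 h2
        have h3 := hfree x h
        have h4 : f - (fvs h).length = (f - ((fvs h).length + 1)) + 1 := by omega
        rw [h4, pow_succ]
        have hpow : (0 : ℝ) < 2 ^ (f - ((fvs h).length + 1)) := by positivity
        have h5 : (2 : ℝ) ^ (f - ((fvs h).length + 1)) *
            (Φ ((x, true, true) :: h) + Φ ((x, false, true) :: h)) ≤
            2 ^ (f - ((fvs h).length + 1)) * (2 * Φ h) :=
          mul_le_mul_of_nonneg_left h3 hpow.le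
        nlinarith
      · have h4 : f - (fvs h).length = 0 := by omega
        rw [h4, pow_zero, one_mul]
        have := h0 h
        linarith

end Pool.Agent.LKCNF.Tree
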