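import Mathlib

set_option autoImplicit false

/-!
# Numerical part of the tree-like lower bound
-/

namespace Pool.Agent.LKCNF.Tree

theorem sq_le_two_pow (t : ℕ) (ht : 4 ≤ t) : (t + 1) * (t + 1) ≤ 2 ^ (t / 2 + 4) := by
  induction t using Nat.strong_induction_on with
  | _ t ih =>
    by_cases h4 : t = 4
    · subst h4; norm_num
    by_cases h5 : t = 5
    · subst h5; norm_num
    obtain ⟨s, rfl⟩ : ∃ s, t = s + 2 := ⟨t - 2, by omega⟩
    have h1 := ih s (by omega) (by omega)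
    have h2 : (s + 2) / 2 + 4 = (s / 2 + 4) + 1 := by omega
    rw [h2, pow_succ]
    have h3 : 4 ≤ s := by omega
    nlinarith

theorem expo (m e L c : ℕ) (hL : 2 * L ≤ m + 10) (hc : c * 2 ≤ (m + 2) * (m + 1))
    (hk : e + 3 * (m + 2) ≤ (m + 2) * (m + 2)) :
    1 + (e + 1) * (m + 4) + L * (m + 2) ≤ (m + 2) * (3 * (m + 2) + e) - c := by
  apply Nat.le_sub_of_add_le
  have h1 := Nat.mul_le_mul_right (m + 2) hL
  nlinarith

theorem num (k m e : ℕ) (hm : 3 ≤ m) (hke : k = 5 * (m + 2) + e)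
    (hk : k < (m + 3) * (m + 3)) :
    2 * ((2 ^ (e + 1) * (2 ^ (e + 1) * k)) * ((2 ^ (e + 1) * (2 ^ (e + 1) * k)) *
      (k * 2 ^ (e + 1)) ^ m)) ≤
      2 ^ ((m + 2) * (3 * (m + 2) + e) - (m + 2).choose 2) := by
  have h1 : k ≤ 2 ^ ((m + 2) / 2 + 4) := hk.le.trans (sq_le_two_pow (m + 2) (by omega))
  have hc : (m + 2).choose 2 * 2 ≤ (m + 2) * (m + 1) := by
    rw [Nat.choose_two_right]
    exact Nat.div_mul_le_self _ _
  have h2 : e + 3 * (m + 2) ≤ (m + 2) * (m + 2) := by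
    rw [hke] at hk
    nlinarith
  have h3 := expo m e ((m + 2) / 2 + 4) ((m + 2).choose 2) (by omega) hc h2
  calc 2 * ((2 ^ (e + 1) * (2 ^ (e + 1) * k)) * ((2 ^ (e + 1) * (2 ^ (e + 1) * k)) *
      (k * 2 ^ (e + 1)) ^ m))
      = 2 * (2 ^ (e + 1)) ^ (m + 4) * k ^ (m + 2) := by ring
    _ ≤ 2 * (2 ^ (e + 1)) ^ (m + 4) * (2 ^ ((m + 2) / 2 + 4)) ^ (m + 2) := by
        apply Nat.mul_le_mul_left
        exact Nat.pow_le_pow_left h1 _
    _ = 2 ^ (1 + (e + 1) * (m + 4) + ((m + 2) / 2 + 4) * (m + 2)) := by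
        rw [← pow_mul, ← pow_mul, pow_add, pow_add, pow_one]
    _ ≤ _ := Nat.pow_le_pow_right (by norm_num) h3

end Pool.Agent.LKCNF.Tree
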