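import Pool.Agent.LKCNF.TreeExt
import Pool.Agent.LKCNF.TreeNum

set_option autoImplicit false

/-!
# The tree-like lower bound
-/

namespace Pool.Agent.LKCNF.Tree

open Finset

variable {V : Type} [DecidableEq V]

theorem tree_bound {k : ℕ} {F : Finset (Finset (V × Bool))} (hk : IsKCNF k F)
    (hlin : IsLinear F) {m r f : ℕ} (hr : r + 2 * (m + 2) = k + 1) (hr2 : 2 ≤ r)
    (hmk : m + 2 ≤ k)
    (hnum : 2 * ((f * (f * k)) * ((f * (f * k)) * (k * f) ^ m)) ≤
      2 ^ ((m + 2) * (r - 1) - (m + 2).choose 2))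
    {s : ℕ} (hs : TreeRes F ∅ s) : (2 : ℝ) ^ f ≤ 2 * s := by
  classical
  set n : ℕ := (m + 2) * (r - 1) - (m + 2).choose 2 with hn
  have hp : (0 : ℝ) < 2 ^ n := by positivity
  let Φ : List (V × Bool × Bool) → ℝ := fun h => (∑ d : Dat k f m, B r F d h) / 2 ^ n
  have hΦ0 : ∀ h, 0 ≤ Φ h := fun h =>
    div_nonneg (Finset.sum_nonneg fun d _ => B_nonneg r F d h) hp.le
  have hforced : ∀ x b h, Φ ((x, b, false) :: h) ≤ Φ h := by
    intro x b h
    have : (∑ d : Dat k f m, B r F d ((x, b, false) :: h)) = ∑ d : Dat k f m, B r F d h :=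
      Finset.sum_congr rfl fun d _ => B_forced r F d x b h
    show (∑ d : Dat k f m, B r F d ((x, b, false) :: h)) / 2 ^ n ≤
      (∑ d : Dat k f m, B r F d h) / 2 ^ n
    rw [this]
  have hfree : ∀ x h, Φ ((x, true, true) :: h) + Φ ((x, false, true) :: h) ≤ 2 * Φ h := by
    intro x h
    show (∑ d : Dat k f m, B r F d ((x, true, true) :: h)) / 2 ^ n +
      (∑ d : Dat k f m, B r F d ((x, false, true) :: h)) / 2 ^ n ≤
      2 * ((∑ d : Dat k f m, B r F d h) / 2 ^ n)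
    rw [← add_div, ← mul_div_assoc, ← Finset.sum_add_distrib, Finset.mul_sum]
    apply div_le_div_of_nonneg_right _ hp.le
    exact Finset.sum_le_sum fun d _ => B_free hk d x h
  have hbad : ∀ h, Valid F (m + 2) h → Clean F (m + 2) h → Bad F (m + 2) h →
      (fvs h).length ≤ f → 1 ≤ Φ h := by
    intro h hv hcl hb hlen
    obtain ⟨d, hd⟩ := extract hk hlin hr hr2 hv hcl hb hlen
    show 1 ≤ (∑ d : Dat k f m, B r F d h) / 2 ^ n
    rw [le_div_iff₀ hp, one_mul]
    exact le_trans hd (Finset.single_le_sum (f := fun d => B r F d h)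
      (fun d _ => B_nonneg r F d h) (Finset.mem_univ d))
  have h1 := leaves (f := f) hk hmk Φ hΦ0 hforced hfree hbad hs [] trivial trivial
    (by simp [fvs]) (by simp)
  have h2 : Φ [] ≤ 1 / 2 := by
    have h3 : (∑ d : Dat k f m, B r F d ([] : List (V × Bool × Bool))) =
        ((f * (f * k)) * ((f * (f * k)) * (k * f) ^ m) : ℕ) := by
      have h4 : ∀ d : Dat k f m, B r F d ([] : List (V × Bool × Bool)) = 1 := fun d => by
        rw [B]
      rw [Finset.sum_congr rfl (fun d _ => h4 d), Finset.sum_const, nsmul_eq_mul, mul_one,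
        Finset.card_univ]
      congr 1
      simp [Dat]
    show (∑ d : Dat k f m, B r F d ([] : List (V × Bool × Bool))) / 2 ^ n ≤ 1 / 2
    rw [h3, div_le_div_iff₀ hp (by norm_num), one_mul]
    have h5 : ((2 * ((f * (f * k)) * ((f * (f * k)) * (k * f) ^ m)) : ℕ) : ℝ) ≤
        ((2 ^ n : ℕ) : ℝ) := by exact_mod_cast hnum
    rw [Nat.cast_mul, Nat.cast_pow] at h5
    rw [mul_comm]
    simpa using h5
  have h3 : (fvs ([] : List (V × Bool × Bool))).length = 0 := rfl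
  rw [h3, Nat.sub_zero] at h1
  have h4 : (0 : ℝ) < 2 ^ f := by positivity
  nlinarith

/-- a short derivation does not give the empty clause -/
theorem small {k : ℕ} {F : Finset (Finset (V × Bool))} (hk : IsKCNF k F) (hk1 : 1 ≤ k)
    {C : Finset (V × Bool)} {s : ℕ} (hs : TreeRes F C s) : 1 ≤ s ∧ (s < 2 → C.Nonempty) := by
  induction hs with
  | ax C hC =>
    refine ⟨le_refl _, fun _ => ?_⟩
    rw [← Finset.card_pos, (hk C hC).1]
    exact hk1
  | weaken C D s _ hCD ih =>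
    exact ⟨ih.1, fun h => (ih.2 h).mono hCD⟩
  | resolve C D s u x _ _ _ _ ihC ihD =>
    refine ⟨by omega, fun h => ?_⟩
    have := ihC.1
    have := ihD.1
    omega

theorem main {k : ℕ} (hk1 : 1 ≤ k) {F : Finset (Finset (V × Bool))} (hk : IsKCNF k F)
    (hlin : IsLinear F) {s : ℕ} (hs : TreeRes F ∅ s) :
    (2 : ℝ) ^ ((2 : ℝ) ^ ((k : ℝ) - 5 * √(k : ℝ))) ≤ s := by
  by_cases hk25 : k < 25
  · have h1 : 2 ≤ s := by
      by_contra h
      have := (small hk hk1 hs).2 (not_le.1 h)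
      exact absurd this (by simp)
    have h2 : (k : ℝ) - 5 * √(k : ℝ) ≤ 0 := by
      have h3 : √(k : ℝ) * √(k : ℝ) = k := Real.mul_self_sqrt (Nat.cast_nonneg _)
      have h4 : √(k : ℝ) ≤ 5 := by
        rw [Real.sqrt_le_left (by norm_num)]
        have : (k : ℝ) < 25 := by exact_mod_cast hk25
        linarith
      nlinarith [Real.sqrt_nonneg (k : ℝ)]
    have h3 : (2 : ℝ) ^ ((k : ℝ) - 5 * √(k : ℝ)) ≤ 1 :=
      Real.rpow_le_one_of_one_le_of_nonpos (by norm_num) h2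
    calc (2 : ℝ) ^ ((2 : ℝ) ^ ((k : ℝ) - 5 * √(k : ℝ))) ≤ (2 : ℝ) ^ (1 : ℝ) :=
          Real.rpow_le_rpow_of_exponent_le (by norm_num) h3
      _ = 2 := Real.rpow_one 2
      _ ≤ s := by exact_mod_cast h1
  · have ht5 : 5 ≤ Nat.sqrt k := by
      rw [Nat.le_sqrt]
      omega
    have ht1 := Nat.sqrt_le k
    have ht2 := Nat.lt_succ_sqrt k
    have ht3 : (Nat.sqrt k : ℝ) ≤ √(k : ℝ) := Real.nat_sqrt_le_real_sqrt
    obtain ⟨m, hm⟩ : ∃ m, Nat.sqrt k = m + 2 := ⟨Nat.sqrt k - 2, by omega⟩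
    rw [hm] at ht5 ht1 ht2 ht3
    have h5 : 5 * (m + 2) ≤ k := le_trans (Nat.mul_le_mul_right _ ht5) ht1
    obtain ⟨e, he⟩ := Nat.exists_eq_add_of_le h5
    have hnum := num k m e (by omega) he ht2
    have hr : (3 * (m + 2) + e + 1) + 2 * (m + 2) = k + 1 := by omega
    have hb := tree_bound hk hlin (f := 2 ^ (e + 1)) hr (by omega) (by omega)
      (by rw [Nat.add_sub_cancel]; exact hnum) hs
    have h6 : (2 : ℝ) ^ ((k : ℝ) - 5 * √(k : ℝ)) ≤ 2 ^ e := by
      rw [← Real.rpow_natCast 2 e]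
      apply Real.rpow_le_rpow_of_exponent_le (by norm_num)
      have h7 : (k : ℝ) = 5 * ((m + 2 : ℕ) : ℝ) + e := by exact_mod_cast he
      linarith
    have h8 : (2 : ℝ) ^ ((k : ℝ) - 5 * √(k : ℝ)) + 1 ≤ ((2 ^ (e + 1) : ℕ) : ℝ) := by
      have h9 : (1 : ℝ) ≤ 2 ^ e := one_le_pow₀ (by norm_num)
      push_cast
      rw [pow_succ]
      linarith
    have h10 : (2 : ℝ) ^ ((2 : ℝ) ^ ((k : ℝ) - 5 * √(k : ℝ)) + 1) ≤ 2 * s := by
      refine le_trans ?_ hb
      rw [← Real.rpow_natCast 2 (2 ^ (e + 1))]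
      exact Real.rpow_le_rpow_of_exponent_le (by norm_num) h8
    rw [Real.rpow_add (by norm_num), Real.rpow_one] at h10
    linarith

end Pool.Agent.LKCNF.Tree
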