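import Pool.Agent.LKCNF.TreeLeaf

set_option autoImplicit false

/-!
# The potential of the Prover-Delayer walk
-/

namespace Pool.Agent.LKCNF.Tree

open Finset

variable {V : Type} [DecidableEq V]

/-! ### the decoder -/

open Classical in
/-- the clause through two variables -/
noncomputable def cl (F : Finset (Finset (V × Bool))) :
    Option V → Option V → Finset (V × Bool)
  | some a, some b =>
      if h : a ≠ b ∧ ∃ C ∈ F, a ∈ vbl C ∧ b ∈ vbl C then Classical.choose h.2 else ∅
  | _, _ => ∅

/-- the variable number `p` of a clause -/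
noncomputable def pv (C : Finset (V × Bool)) (p : ℕ) : Option V := (vbl C).toList[p]?

/-- the entry number `a` of a list whose newest entry is the first one -/
def att (xs : List V) (a : ℕ) : Option V := xs.reverse[a]?

/-- the code of a structure -/
abbrev Dat (k f m : ℕ) : Type :=
  (Fin f × Fin f × Fin k) × (Fin f × Fin f × Fin k) × (Fin m → Fin k × Fin f)

section

variable {k f m : ℕ}

/-- the first decoded clause -/
noncomputable def K1 (F : Finset (Finset (V × Bool))) (d : Dat k f m) (xs : List V) :
    Finset (V × Bool) := cl F (att xs d.1.1) (att xs d.1.2.1)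

/-- the second decoded clause -/
noncomputable def K2 (F : Finset (Finset (V × Bool))) (d : Dat k f m) (xs : List V) :
    Finset (V × Bool) := cl F (att xs d.2.1.1) (att xs d.2.1.2.1)

/-- the decoded centre -/
noncomputable def KD (F : Finset (Finset (V × Bool))) (d : Dat k f m) (xs : List V) :
    Finset (V × Bool) := cl F (pv (K1 F d xs) d.1.2.2) (pv (K2 F d xs) d.2.1.2.2)

/-- the other decoded clauses -/
noncomputable def K3 (F : Finset (Finset (V × Bool))) (d : Dat k f m) (xs : List V)
    (i : Fin m) : Finset (V × Bool) :=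
  cl F (pv (KD F d xs) (d.2.2 i).1) (att xs (d.2.2 i).2)

/-- the decoded clauses -/
def KK (F : Finset (Finset (V × Bool))) (d : Dat k f m) (xs : List V) (E : Finset (V × Bool)) :
    Prop := E = K1 F d xs ∨ E = K2 F d xs ∨ ∃ i, E = K3 F d xs i

/-- a constrained step -/
def Con (r : ℕ) (F : Finset (Finset (V × Bool))) (d : Dat k f m) (x : V) (ys : List V) : Prop :=
  ∃ E, KK F d (x :: ys) E ∧ x ∈ vbl E ∧ fcnt ys E < r

/-- the allowed values -/
def Alw (r : ℕ) (F : Finset (Finset (V × Bool))) (d : Dat k f m) (x : V) (ys : List V)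
    (b : Bool) : Prop :=
  ∀ E, KK F d (x :: ys) E → x ∈ vbl E → fcnt ys E < r → (x, !b) ∈ E

open Classical in
/-- the potential of one code -/
noncomputable def B (r : ℕ) (F : Finset (Finset (V × Bool))) (d : Dat k f m) :
    List (V × Bool × Bool) → ℝ
  | [] => 1
  | e :: h =>
      if e.2.2 = true ∧ Con r F d e.1 (fvs h) then
        (if Alw r F d e.1 (fvs h) e.2.1 then 2 * B r F d h else 0)
      else B r F d h

open Classical in
theorem cl_some (F : Finset (Finset (V × Bool))) (a b : V) : cl F (some a) (some b) =
    if h : a ≠ b ∧ ∃ C ∈ F, a ∈ vbl C ∧ b ∈ vbl C then Classical.choose h.2 else ∅ := rfl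

theorem cl_mem {F : Finset (Finset (V × Bool))} {u v : Option V} {x : V}
    (hx : x ∈ vbl (cl F u v)) : cl F u v ∈ F := by
  classical
  have h0 : x ∉ vbl (∅ : Finset (V × Bool)) := by simp [vbl]
  cases u with
  | none => exact absurd hx (by simpa [cl] using h0)
  | some a =>
    cases v with
    | none => exact absurd hx (by simpa [cl] using h0)
    | some b =>
      rw [cl_some] at hx ⊢
      by_cases h : a ≠ b ∧ ∃ C ∈ F, a ∈ vbl C ∧ b ∈ vbl C
      · rw [dif_pos h]
        exact (Classical.choose_spec h.2).1
      · rw [dif_neg h] at hx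
        exact absurd hx h0

theorem cl_eq {F : Finset (Finset (V × Bool))} (hl : IsLinear F) {C : Finset (V × Bool)}
    (hC : C ∈ F) {a b : V} (hab : a ≠ b) (ha : a ∈ vbl C) (hb : b ∈ vbl C) :
    cl F (some a) (some b) = C := by
  classical
  have h : a ≠ b ∧ ∃ C ∈ F, a ∈ vbl C ∧ b ∈ vbl C := ⟨hab, C, hC, ha, hb⟩
  rw [cl_some, dif_pos h]
  have hs := Classical.choose_spec h.2
  by_contra hne
  have h1 := hl _ hs.1 C hC hne
  have h2 : ({a, b} : Finset V) ⊆ vbl (Classical.choose h.2) ∩ vbl C := by
    intro x hx
    rcases Finset.mem_insert.1 hx with rfl | hx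
    · exact Finset.mem_inter.2 ⟨hs.2.1, ha⟩
    · rw [Finset.mem_singleton.1 hx]
      exact Finset.mem_inter.2 ⟨hs.2.2, hb⟩
  have h3 := Finset.card_le_card h2
  rw [Finset.card_pair hab] at h3
  omega

theorem cl_none_left {F : Finset (Finset (V × Bool))} (v : Option V) : cl F none v = ∅ := by
  cases v <;> rfl

theorem cl_none_right {F : Finset (Finset (V × Bool))} (u : Option V) : cl F u none = ∅ := by
  cases u <;> rfl

theorem pv_empty (p : ℕ) : pv (∅ : Finset (V × Bool)) p = none := by
  simp [pv, vbl]

theorem exists_pos {F : Finset (Finset (V × Bool))} (hk : IsKCNF k F) {C : Finset (V × Bool)}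
    (hC : C ∈ F) {x : V} (hx : x ∈ vbl C) : ∃ p : Fin k, pv C p = some x := by
  have h1 : x ∈ (vbl C).toList := Finset.mem_toList.2 hx
  obtain ⟨n, hn, h2⟩ := List.mem_iff_getElem.1 h1
  have h3 : n < k := by
    rw [Finset.length_toList, (hk C hC).2] at hn
    exact hn
  refine ⟨⟨n, h3⟩, ?_⟩
  unfold pv
  rw [List.getElem?_eq_getElem hn, h2]

theorem att_none {xs : List V} {a : ℕ} (h : xs.length ≤ a) : att xs a = none := by
  unfold att
  rw [List.getElem?_eq_none]
  rw [List.length_reverse]
  exact h

theorem att_suffix {zs xs : List V} (h : zs <:+ xs) {a : ℕ} (ha : a < zs.length) :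
    att zs a = att xs a := by
  obtain ⟨ws, rfl⟩ := h
  unfold att
  rw [List.reverse_append, List.getElem?_append_left]
  rw [List.length_reverse]
  exact ha

theorem att_cons (x : V) (xs : List V) : att (x :: xs) xs.length = some x := by
  unfold att
  rw [List.reverse_cons, List.getElem?_append_right]
  · simp
  · simp

/-! ### the potential -/

theorem B_nonneg (r : ℕ) (F : Finset (Finset (V × Bool))) (d : Dat k f m)
    (h : List (V × Bool × Bool)) : 0 ≤ B r F d h := by
  induction h with
  | nil => simp [B]
  | cons e h ih =>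
    unfold B
    split_ifs <;> linarith

theorem B_forced (r : ℕ) (F : Finset (Finset (V × Bool))) (d : Dat k f m) (x : V) (b : Bool)
    (h : List (V × Bool × Bool)) : B r F d ((x, b, false) :: h) = B r F d h := by
  rw [B]
  simp

theorem KK_mem {F : Finset (Finset (V × Bool))} {d : Dat k f m} {xs : List V}
    {E : Finset (V × Bool)} (hE : KK F d xs E) {x : V} (hx : x ∈ vbl E) : E ∈ F := by
  rcases hE with rfl | rfl | ⟨i, rfl⟩
  · exact cl_mem hx
  · exact cl_mem hx
  · exact cl_mem hx

theorem B_free {r : ℕ} {F : Finset (Finset (V × Bool))} {k' : ℕ} (hk : IsKCNF k' F)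
    (d : Dat k f m) (x : V) (h : List (V × Bool × Bool)) :
    B r F d ((x, true, true) :: h) + B r F d ((x, false, true) :: h) ≤ 2 * B r F d h := by
  classical
  have h0 := B_nonneg r F d h
  rw [B, B]
  by_cases hc : Con r F d x (fvs h)
  · have hnot : ¬ (Alw r F d x (fvs h) true ∧ Alw r F d x (fvs h) false) := by
      rintro ⟨h1, h2⟩
      obtain ⟨E, hE, hxE, hlt⟩ := hc
      exact not_both hk (KK_mem hE hxE) (h1 E hE hxE hlt) (h2 E hE hxE hlt)
    by_cases h1 : Alw r F d x (fvs h) true
    · have h2 : ¬ Alw r F d x (fvs h) false := fun h2 => hnot ⟨h1, h2⟩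
      simp only [hc, h1, h2, and_self, if_true, if_false]
      linarith
    · simp only [hc, h1, and_self, if_true, if_false]
      split_ifs <;> linarith
  · simp only [hc, and_false, if_false]
    linarith

/-! ### the constrained steps -/

/-- the free variables number `2, ..., r` of `E` -/
def SS (r : ℕ) (E : Finset (V × Bool)) : List V → Finset V
  | [] => ∅
  | x :: ys => if x ∈ vbl E ∧ 1 ≤ fcnt ys E ∧ fcnt ys E < r then insert x (SS r E ys)
      else SS r E ys

theorem SS_sub (r : ℕ) (E : Finset (V × Bool)) (xs : List V) :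
    SS r E xs ⊆ xs.toFinset ∩ vbl E := by
  induction xs with
  | nil => simp [SS]
  | cons x ys ih =>
    have h1 : SS r E ys ⊆ (x :: ys).toFinset ∩ vbl E := by
      intro y hy
      obtain ⟨h2, h3⟩ := Finset.mem_inter.1 (ih hy)
      refine Finset.mem_inter.2 ⟨?_, h3⟩
      rw [List.toFinset_cons]
      exact Finset.mem_insert_of_mem h2
    unfold SS
    split_ifs with h
    · intro y hy
      rcases Finset.mem_insert.1 hy with rfl | hy
      · exact Finset.mem_inter.2 ⟨by simp, h.1⟩
      · exact h1 hy
    · exact h1

theorem SS_card {r : ℕ} {E : Finset (V × Bool)} {xs : List V} (hn : xs.Nodup) :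
    min (fcnt xs E) r ≤ (SS r E xs).card + 1 := by
  induction xs with
  | nil =>
    have : fcnt ([] : List V) E = 0 := by simp [fcnt]
    rw [this]
    simp
  | cons x ys ih =>
    obtain ⟨hx, hn⟩ := List.nodup_cons.1 hn
    have ih := ih hn
    rw [fcnt_cons x ys E hx]
    unfold SS
    by_cases hxE : x ∈ vbl E
    · rw [if_pos hxE]
      split_ifs with h
      · rw [Finset.card_insert_of_notMem]
        · omega
        · intro h2
          exact hx (List.mem_toFinset.1 (Finset.mem_inter.1 (SS_sub r E ys h2)).1)
      · have h2 : fcnt ys E = 0 ∨ r ≤ fcnt ys E := by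
          by_contra h3
          push Not at h3
          exact h ⟨hxE, by omega, h3.2⟩
        omega
    · rw [if_neg hxE]
      split_ifs with h
      · exact absurd h.1 hxE
      · simpa using ih

theorem card_biUnion_ge {α β : Type*} [DecidableEq α] [DecidableEq β] (S : Finset α)
    (g : α → Finset β) (c : ℕ) (hc : ∀ a ∈ S, c ≤ (g a).card)
    (hI : ∀ a ∈ S, ∀ b ∈ S, a ≠ b → (g a ∩ g b).card ≤ 1) :
    S.card * c ≤ (S.biUnion g).card + S.card.choose 2 := by
  induction S using Finset.induction_on with
  | empty => simp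
  | insert a S ha ih =>
    have ih := ih (fun b hb => hc b (Finset.mem_insert_of_mem hb))
      (fun b hb b' hb' => hI b (Finset.mem_insert_of_mem hb) b' (Finset.mem_insert_of_mem hb'))
    rw [Finset.card_insert_of_notMem ha, Finset.biUnion_insert]
    have h1 : (g a ∩ S.biUnion g).card ≤ S.card := by
      have h2 : g a ∩ S.biUnion g ⊆ S.biUnion (fun b => g a ∩ g b) := by
        intro x hx
        obtain ⟨h3, h4⟩ := Finset.mem_inter.1 hx
        obtain ⟨b, hb, hxb⟩ := Finset.mem_biUnion.1 h4
        exact Finset.mem_biUnion.2 ⟨b, hb, Finset.mem_inter.2 ⟨h3, hxb⟩⟩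
      refine (Finset.card_le_card h2).trans (Finset.card_biUnion_le.trans ?_)
      calc ∑ b ∈ S, (g a ∩ g b).card ≤ ∑ _b ∈ S, 1 := by
            apply Finset.sum_le_sum
            intro b hb
            apply hI a (Finset.mem_insert_self _ _) b (Finset.mem_insert_of_mem hb)
            rintro rfl
            exact ha hb
        _ = S.card := by simp
    have h2 := Finset.card_union_add_card_inter (g a) (S.biUnion g)
    have h3 := hc a (Finset.mem_insert_self _ _)
    have h4 : (S.card + 1).choose 2 = S.card + S.card.choose 2 := by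
      rw [Nat.choose_succ_succ' S.card 1, Nat.choose_one_right]
    rw [h4, add_mul, one_mul]
    omega

theorem B_ge {r : ℕ} {F : Finset (Finset (V × Bool))} {d : Dat k f m}
    (S : Finset (Finset (V × Bool))) (h : List (V × Bool × Bool))
    (h1 : ∀ x ys, (x :: ys) <:+ fvs h → ∀ E, KK F d (x :: ys) E → E ∈ S ∨ E = ∅)
    (h2 : ∀ x ys, (x :: ys) <:+ fvs h → ∀ E ∈ S, x ∈ vbl E → 1 ≤ fcnt ys E →
      KK F d (x :: ys) E)
    (h3 : ∀ E ∈ S, Tp r E h) :
    (2 : ℝ) ^ (S.biUnion fun E => SS r E (fvs h)).card ≤ B r F d h := by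
  classical
  induction h with
  | nil =>
    have : (S.biUnion fun E => SS r E (fvs ([] : List (V × Bool × Bool)))) = ∅ := by
      rw [Finset.eq_empty_iff_forall_notMem]
      intro x hx
      obtain ⟨E, _, hE⟩ := Finset.mem_biUnion.1 hx
      simp [fvs, SS] at hE
    rw [this]
    simp [B]
  | cons e h ih =>
    obtain ⟨x, b, φ⟩ := e
    cases φ with
    | false =>
      have hf : fvs ((x, b, false) :: h) = fvs h := by simp [fvs]
      rw [hf] at h1 h2 ⊢
      rw [B_forced]
      exact ih h1 h2 (fun E hE => (h3 E hE).1)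
    | true =>
      have hf : fvs ((x, b, true) :: h) = x :: fvs h := by simp [fvs]
      rw [hf] at h1 h2 ⊢
      have ih := ih (fun y ys hs => h1 y ys (hs.trans (List.suffix_cons x (fvs h))))
        (fun y ys hs => h2 y ys (hs.trans (List.suffix_cons x (fvs h))))
        (fun E hE => (h3 E hE).1)
      have hself : (x :: fvs h) <:+ (x :: fvs h) := List.suffix_refl _
      have hexp : ∀ E, SS r E (x :: fvs h) ⊆ insert x (SS r E (fvs h)) := by
        intro E
        rw [SS]
        split_ifs
        · exact Finset.Subset.refl _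
        · exact Finset.subset_insert _ _
      by_cases hc : Con r F d x (fvs h)
      · have ha : Alw r F d x (fvs h) b := by
          intro E hE hxE hlt
          rcases h1 x (fvs h) hself E hE with hES | hE0
          · exact (h3 E hES).2 rfl hxE hlt
          · rw [hE0] at hxE
            simp [vbl] at hxE
        have hB : B r F d ((x, b, true) :: h) = 2 * B r F d h := by
          rw [B]
          simp only [hc, ha, and_self, if_true]
        rw [hB]
        have hcard : (S.biUnion fun E => SS r E (x :: fvs h)).card ≤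
            (S.biUnion fun E => SS r E (fvs h)).card + 1 := by
          refine (Finset.card_le_card ?_).trans (Finset.card_insert_le x _)
          intro y hy
          obtain ⟨E, hE, hyE⟩ := Finset.mem_biUnion.1 hy
          rcases Finset.mem_insert.1 (hexp E hyE) with rfl | h5
          · exact Finset.mem_insert_self _ _
          · exact Finset.mem_insert_of_mem (Finset.mem_biUnion.2 ⟨E, hE, h5⟩)
        calc (2 : ℝ) ^ (S.biUnion fun E => SS r E (x :: fvs h)).card
            ≤ 2 ^ ((S.biUnion fun E => SS r E (fvs h)).card + 1) :=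
              pow_le_pow_right₀ (by norm_num) hcard
          _ = 2 * 2 ^ (S.biUnion fun E => SS r E (fvs h)).card := by ring
          _ ≤ 2 * B r F d h := by linarith
      · have hB : B r F d ((x, b, true) :: h) = B r F d h := by
          rw [B]
          simp only [hc, and_false, if_false]
        rw [hB]
        have hU : (S.biUnion fun E => SS r E (x :: fvs h)) =
            S.biUnion fun E => SS r E (fvs h) := by
          apply Finset.biUnion_congr rfl
          intro E hE
          rw [SS, if_neg]
          rintro ⟨h5, h6, h7⟩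
          exact hc ⟨E, h2 x (fvs h) hself E hE h5 h6, h5, h7⟩
        rw [hU]
        exact ih

/-- the first two free variables of a clause -/
theorem two_first {xs : List V} (hn : xs.Nodup) {E : Finset (V × Bool)} (h2 : 2 ≤ fcnt xs E) :
    ∃ α β : ℕ, ∃ a b : V, α < xs.length ∧ β < xs.length ∧ att xs α = some a ∧
      att xs β = some b ∧ a ≠ b ∧ a ∈ vbl E ∧ b ∈ vbl E ∧
      ∀ x ys, (x :: ys) <:+ xs → x ∈ vbl E → 1 ≤ fcnt ys E → α ≤ ys.length ∧ β ≤ ys.length := by
  induction xs with
  | nil =>
    have : fcnt ([] : List V) E = 0 := by simp [fcnt]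
    omega
  | cons x xs ih =>
    obtain ⟨hx, hn⟩ := List.nodup_cons.1 hn
    by_cases h3 : 2 ≤ fcnt xs E
    · obtain ⟨α, β, a, b, hα, hβ, ha, hb, hab, haE, hbE, hall⟩ := ih hn h3
      refine ⟨α, β, a, b, ?_, ?_, ?_, ?_, hab, haE, hbE, ?_⟩
      · rw [List.length_cons]; omega
      · rw [List.length_cons]; omega
      · rw [← att_suffix (List.suffix_cons x xs) hα]; exact ha
      · rw [← att_suffix (List.suffix_cons x xs) hβ]; exact hb
      · intro y ys hs hy h4
        rcases List.suffix_cons_iff.1 hs with h5 | h5
        · have h6 : ys = xs := (List.cons.inj h5).2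
          rw [h6]
          exact ⟨hα.le, hβ.le⟩
        · exact hall y ys h5 hy h4
    · rw [fcnt_cons x xs E hx] at h2
      have hxE : x ∈ vbl E := by
        by_contra hxE
        rw [if_neg hxE] at h2
        omega
      rw [if_pos hxE] at h2
      have h4 : fcnt xs E = 1 := by omega
      have h5 : 0 < (xs.toFinset ∩ vbl E).card := by
        have : fcnt xs E = (xs.toFinset ∩ vbl E).card := rfl
        omega
      obtain ⟨a, ha⟩ := Finset.card_pos.1 h5
      obtain ⟨ha1, ha2⟩ := Finset.mem_inter.1 ha
      have ha3 : a ∈ xs.reverse := List.mem_reverse.2 (List.mem_toFinset.1 ha1)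
      obtain ⟨α, hα, ha4⟩ := List.mem_iff_getElem.1 ha3
      have hα2 : α < xs.length := by rwa [List.length_reverse] at hα
      refine ⟨α, xs.length, a, x, ?_, ?_, ?_, att_cons x xs, ?_, ha2, hxE, ?_⟩
      · rw [List.length_cons]; omega
      · rw [List.length_cons]; omega
      · rw [← att_suffix (List.suffix_cons x xs) hα2]
        unfold att
        rw [List.getElem?_eq_getElem hα, ha4]
      · rintro rfl
        exact hx (List.mem_toFinset.1 ha1)
      · intro y ys hs hy h6
        rcases List.suffix_cons_iff.1 hs with h7 | h7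
        · have h8 : ys = xs := (List.cons.inj h7).2
          rw [h8]
          exact ⟨hα2.le, le_refl _⟩
        · exfalso
          have h8 : fcnt (y :: ys) E ≤ fcnt xs E := fcnt_mono (fun z hz => h7.subset hz) E
          have h9 : y ∉ ys := by
            have := hn.sublist h7.sublist
            exact (List.nodup_cons.1 this).1
          rw [fcnt_cons y ys E h9, if_pos hy] at h8
          omega

end

end Pool.Agent.LKCNF.Tree
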