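import Pool.Agent.LKCNF.TreeDefs

set_option autoImplicit false

/-!
# Unsatisfiable linear `k`-CNF formulas with few variables and their decision trees
-/

namespace Pool.Agent.LKCNF.Tree

open Finset

/-! ### the decision tree over all variables -/

theorem tree_all {V : Type} [DecidableEq V] [Fintype V] {F : Finset (Finset (V × Bool))}
    (hun : ∀ A : V → Bool, ∃ C ∈ F, ∀ l ∈ C, l.2 = !A l.1) :
    ∀ (n : ℕ) (S : Finset V) (A : V → Bool), Sᶜ.card = n →
      ∃ s, TreeRes F (S.image fun x => (x, !A x)) s ∧ s + 1 ≤ 2 ^ (n + 1) := by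
  intro n
  induction n with
  | zero =>
    intro S A hS
    obtain ⟨C, hC, hCA⟩ := hun A
    refine ⟨1, TreeRes.weaken C _ 1 (TreeRes.ax C hC) ?_, by norm_num⟩
    have hSu : S = Finset.univ := by
      rw [Finset.card_eq_zero, Finset.compl_eq_empty_iff] at hS
      exact hS
    intro l hl
    refine Finset.mem_image.2 ⟨l.1, by rw [hSu]; exact Finset.mem_univ _, ?_⟩
    rw [← hCA l hl]
  | succ n ih =>
    intro S A hS
    obtain ⟨x, hx⟩ : (Sᶜ).Nonempty := by
      rw [← Finset.card_pos, hS]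
      omega
    have hxS : x ∉ S := Finset.mem_compl.1 hx
    have hcard : (insert x S)ᶜ.card = n := by
      rw [Finset.compl_insert, Finset.card_erase_of_mem hx, hS]
      omega
    have key : ∀ b : Bool, ((insert x S).image fun y => (y, !(Function.update A x (!b)) y)) =
        insert (x, b) (S.image fun y => (y, !A y)) := by
      intro b
      rw [Finset.image_insert]
      have h1 : (x, !(Function.update A x (!b)) x) = (x, b) := by simp
      rw [h1]
      congr 1
      apply Finset.image_congr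
      intro y hy
      have hyx : y ≠ x := by
        rintro rfl
        exact hxS (Finset.mem_coe.1 hy)
      simp [Function.update_of_ne hyx]
    have hnm : ∀ b : Bool, (x, b) ∉ (S.image fun y => (y, !A y)) := by
      intro b hb
      obtain ⟨y, hy, he⟩ := Finset.mem_image.1 hb
      have : y = x := (Prod.ext_iff.1 he).1
      rw [this] at hy
      exact hxS hy
    obtain ⟨s, hs, hs2⟩ := ih (insert x S) (Function.update A x (!true)) hcard
    obtain ⟨u, hu, hu2⟩ := ih (insert x S) (Function.update A x (!false)) hcard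
    rw [key true] at hs
    rw [key false] at hu
    have hr := TreeRes.resolve _ _ s u x hs hu (Finset.mem_insert_self _ _)
      (Finset.mem_insert_self _ _)
    rw [Finset.erase_insert (hnm true), Finset.erase_insert (hnm false),
      Finset.union_self] at hr
    refine ⟨s + u + 1, hr, ?_⟩
    rw [pow_succ]
    omega

/-! ### the formula -/

/-- the clause on the points of the line `p` -/
def blk (k q : ℕ) (p : ZMod q × ZMod q) (σ : Fin k → Bool) :
    Finset ((Fin k × ZMod q) × Bool) :=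
  Finset.univ.image fun i : Fin k => ((i, p.1 * ((i : ℕ) : ZMod q) + p.2), σ i)

theorem mem_vbl_blk {k q : ℕ} {p : ZMod q × ZMod q} {σ : Fin k → Bool} {x : Fin k × ZMod q} :
    x ∈ vbl (blk k q p σ) ↔ x.2 = p.1 * ((x.1 : ℕ) : ZMod q) + p.2 := by
  unfold vbl blk
  rw [Finset.image_image, Finset.mem_image]
  constructor
  · rintro ⟨i, _, rfl⟩
    rfl
  · intro h
    exact ⟨x.1, Finset.mem_univ _, by
      show (x.1, p.1 * ((x.1 : ℕ) : ZMod q) + p.2) = x
      rw [← h]⟩

theorem blk_card {k q : ℕ} (p : ZMod q × ZMod q) (σ : Fin k → Bool) :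
    (blk k q p σ).card = k ∧ (vbl (blk k q p σ)).card = k := by
  constructor
  · unfold blk
    rw [Finset.card_image_of_injective, Finset.card_univ, Fintype.card_fin]
    intro i j hij
    exact (Prod.ext_iff.1 (Prod.ext_iff.1 hij).1).1
  · unfold vbl blk
    rw [Finset.image_image, Finset.card_image_of_injective, Finset.card_univ, Fintype.card_fin]
    intro i j hij
    exact (Prod.ext_iff.1 hij).1

theorem blk_inter {k q : ℕ} [hq : Fact q.Prime] (hkq : k ≤ q) {p p' : ZMod q × ZMod q}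
    (hp : p ≠ p') (σ σ' : Fin k → Bool) :
    (vbl (blk k q p σ) ∩ vbl (blk k q p' σ')).card ≤ 1 := by
  rw [Finset.card_le_one]
  intro x hx y hy
  obtain ⟨hx1, hx2⟩ := Finset.mem_inter.1 hx
  obtain ⟨hy1, hy2⟩ := Finset.mem_inter.1 hy
  rw [mem_vbl_blk] at hx1 hx2 hy1 hy2
  have h1 : p.1 * ((x.1 : ℕ) : ZMod q) + p.2 = p'.1 * ((x.1 : ℕ) : ZMod q) + p'.2 := by
    rw [← hx1, ← hx2]
  have h2 : p.1 * ((y.1 : ℕ) : ZMod q) + p.2 = p'.1 * ((y.1 : ℕ) : ZMod q) + p'.2 := by
    rw [← hy1, ← hy2]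
  have h3 : (p.1 - p'.1) * (((x.1 : ℕ) : ZMod q) - ((y.1 : ℕ) : ZMod q)) = 0 := by
    linear_combination h1 - h2
  have hxy : x.1 = y.1 := by
    by_contra hne
    rcases mul_eq_zero.1 h3 with h4 | h4
    · apply hp
      have h5 : p.1 = p'.1 := sub_eq_zero.1 h4
      have h6 : p.2 = p'.2 := by
        rw [h5] at h1
        exact add_left_cancel h1
      exact Prod.ext h5 h6
    · apply hne
      have h5 : ((x.1 : ℕ) : ZMod q) = ((y.1 : ℕ) : ZMod q) := sub_eq_zero.1 h4
      have h6 := congrArg ZMod.val h5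
      rw [ZMod.val_natCast, ZMod.val_natCast, Nat.mod_eq_of_lt (x.1.2.trans_le hkq),
        Nat.mod_eq_of_lt (y.1.2.trans_le hkq)] at h6
      exact Fin.ext h6
  apply Prod.ext hxy
  rw [hx1, hy1, hxy]

/-! ### the count -/

theorem pow_aux (M n : ℕ) : M ^ (n + 1) + (n + 1) * M ^ n ≤ (M + 1) ^ (n + 1) := by
  induction n with
  | zero => simp
  | succ n ih =>
    calc M ^ (n + 1 + 1) + (n + 1 + 1) * M ^ (n + 1)
        ≤ (M + 1) * (M ^ (n + 1) + (n + 1) * M ^ n) := by
          have : (M + 1) * (M ^ (n + 1) + (n + 1) * M ^ n) =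
            M ^ (n + 1 + 1) + (n + 1 + 1) * M ^ (n + 1) + (n + 1) * M ^ n := by ring
          rw [this]
          exact Nat.le_add_right _ _
      _ ≤ (M + 1) * (M + 1) ^ (n + 1) := Nat.mul_le_mul_left _ ih
      _ = (M + 1) ^ (n + 1 + 1) := by ring

theorem two_pow_lt (M : ℕ) : 2 * M ^ (M + 1) < (M + 1) ^ (M + 1) := by
  have h1 := pow_aux M M
  have h2 : 0 < M ^ M := by
    rcases Nat.eq_zero_or_pos M with rfl | h
    · norm_num
    · exact Nat.pow_pos h
  have h3 : M ^ (M + 1) = M * M ^ M := by ring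
  have h4 : (M + 1) * M ^ M = M * M ^ M + M ^ M := by ring
  rw [h4] at h1
  rw [h3] at h1 ⊢
  omega

theorem count_lt {k q M : ℕ} (hk : 1 ≤ k) (hq : k * (M + 1) ≤ q) :
    2 ^ (k * q) * M ^ (q * q) < (M + 1) ^ (q * q) := by
  have hq1 : 1 ≤ q := by
    have : 1 * 1 ≤ k * (M + 1) := Nat.mul_le_mul hk (by omega)
    omega
  have h1 : (M + 1) * (k * q) ≤ q * q := by
    calc (M + 1) * (k * q) = k * (M + 1) * q := by ring
      _ ≤ q * q := Nat.mul_le_mul_right _ hq
  obtain ⟨w, hw⟩ := Nat.exists_eq_add_of_le h1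
  rw [hw]
  have h2 : 2 ^ (k * q) * M ^ ((M + 1) * (k * q) + w) =
      (2 * M ^ (M + 1)) ^ (k * q) * M ^ w := by
    rw [pow_add, pow_mul, mul_pow]
    ring
  have h3 : (M + 1) ^ ((M + 1) * (k * q) + w) =
      ((M + 1) ^ (M + 1)) ^ (k * q) * (M + 1) ^ w := by
    rw [pow_add, pow_mul]
  rw [h2, h3]
  have hkq : k * q ≠ 0 := by
    have : 1 * 1 ≤ k * q := Nat.mul_le_mul hk hq1
    omega
  have h4 : (2 * M ^ (M + 1)) ^ (k * q) < ((M + 1) ^ (M + 1)) ^ (k * q) :=
    Nat.pow_lt_pow_left (two_pow_lt M) hkq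
  have h5 : M ^ w ≤ (M + 1) ^ w := Nat.pow_le_pow_left (Nat.le_succ M) w
  have h6 : 0 < (M + 1) ^ w := Nat.pow_pos (Nat.succ_pos M)
  calc (2 * M ^ (M + 1)) ^ (k * q) * M ^ w ≤ (2 * M ^ (M + 1)) ^ (k * q) * (M + 1) ^ w :=
        Nat.mul_le_mul_left _ h5
    _ < _ := Nat.mul_lt_mul_of_pos_right h4 h6

theorem exists_signs {k q : ℕ} [NeZero q] (hk : 1 ≤ k) (hq : k * 2 ^ k ≤ q) :
    ∃ σ : ZMod q × ZMod q → Fin k → Bool, ∀ A : Fin k × ZMod q → Bool, ∃ p,
      ∀ l ∈ blk k q p (σ p), l.2 = !A l.1 := by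
  classical
  by_contra hcon
  push Not at hcon
  let v : (Fin k × ZMod q → Bool) → ZMod q × ZMod q → Fin k → Bool :=
    fun A p i => !A (i, p.1 * ((i : ℕ) : ZMod q) + p.2)
  have hsub : (Finset.univ : Finset (ZMod q × ZMod q → Fin k → Bool)) ⊆
      (Finset.univ : Finset (Fin k × ZMod q → Bool)).biUnion fun A =>
        Fintype.piFinset fun p => Finset.univ.erase (v A p) := by
    intro σ _
    obtain ⟨A, hA⟩ := hcon σ
    refine Finset.mem_biUnion.2 ⟨A, Finset.mem_univ _, ?_⟩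
    rw [Fintype.mem_piFinset]
    intro p
    refine Finset.mem_erase.2 ⟨?_, Finset.mem_univ _⟩
    intro he
    obtain ⟨l, hl, hl2⟩ := hA p
    apply hl2
    obtain ⟨i, _, rfl⟩ := Finset.mem_image.1 hl
    rw [he]
  have h1 := (Finset.card_le_card hsub).trans Finset.card_biUnion_le
  have h2 : ∀ A : Fin k × ZMod q → Bool,
      (Fintype.piFinset fun p => Finset.univ.erase (v A p)).card = (2 ^ k - 1) ^ (q * q) := by
    intro A
    rw [Fintype.card_piFinset]
    have : ∀ p : ZMod q × ZMod q, (Finset.univ.erase (v A p)).card = 2 ^ k - 1 := by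
      intro p
      rw [Finset.card_erase_of_mem (Finset.mem_univ _), Finset.card_univ]
      simp
    rw [Finset.prod_congr rfl (fun p _ => this p), Finset.prod_const, Finset.card_univ,
      Fintype.card_prod, ZMod.card]
  rw [Finset.sum_congr rfl (fun A _ => h2 A), Finset.sum_const, smul_eq_mul, Finset.card_univ,
    Finset.card_univ] at h1
  have h3 : Fintype.card (ZMod q × ZMod q → Fin k → Bool) = (2 ^ k) ^ (q * q) := by
    simp [ZMod.card]
  have h4 : Fintype.card (Fin k × ZMod q → Bool) = 2 ^ (k * q) := by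
    simp [ZMod.card]
  rw [h3, h4] at h1
  have h5 : 2 ^ k - 1 + 1 = 2 ^ k := Nat.sub_add_cancel Nat.one_le_two_pow
  have h6 := count_lt (M := 2 ^ k - 1) hk (q := q) (by rw [h5]; exact hq)
  rw [h5] at h6
  omega

theorem upper (k : ℕ) (hk : 1 ≤ k) :
    ∃ (V : Type) (_ : DecidableEq V) (F : Finset (Finset (V × Bool))) (s : ℕ),
      IsKCNF k F ∧ IsLinear F ∧ TreeRes F ∅ s ∧ s ≤ 2 ^ (3 * k ^ 2 * 2 ^ k) := by
  have hn0 : k * 2 ^ k ≠ 0 := by positivity
  obtain ⟨q, hqp, hq1, hq2⟩ := Nat.exists_prime_lt_and_le_two_mul (k * 2 ^ k) hn0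
  have : Fact q.Prime := ⟨hqp⟩
  have : NeZero q := ⟨hqp.ne_zero⟩
  have hkq : k ≤ q := by
    calc k = k * 1 := (mul_one k).symm
      _ ≤ k * 2 ^ k := Nat.mul_le_mul_left _ Nat.one_le_two_pow
      _ ≤ q := hq1.le
  obtain ⟨σ, hσ⟩ := exists_signs hk hq1.le
  let F : Finset (Finset ((Fin k × ZMod q) × Bool)) :=
    Finset.univ.image fun p => blk k q p (σ p)
  have hun : ∀ A : Fin k × ZMod q → Bool, ∃ C ∈ F, ∀ l ∈ C, l.2 = !A l.1 := by
    intro A
    obtain ⟨p, hp⟩ := hσ A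
    exact ⟨_, Finset.mem_image_of_mem _ (Finset.mem_univ p), hp⟩
  obtain ⟨s, hs, hs2⟩ := tree_all hun (k * q) ∅ (fun _ => true) (by
    rw [Finset.compl_empty, Finset.card_univ, Fintype.card_prod, Fintype.card_fin, ZMod.card])
  refine ⟨Fin k × ZMod q, inferInstance, F, s, ?_, ?_, ?_, ?_⟩
  · intro C hC
    obtain ⟨p, _, rfl⟩ := Finset.mem_image.1 hC
    exact blk_card p (σ p)
  · intro C hC D hD hCD
    obtain ⟨p, _, rfl⟩ := Finset.mem_image.1 hC
    obtain ⟨p', _, rfl⟩ := Finset.mem_image.1 hD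
    apply blk_inter hkq
    rintro rfl
    exact hCD rfl
  · rw [Finset.image_empty] at hs
    exact hs
  · have h1 : k * q + 1 ≤ 3 * k ^ 2 * 2 ^ k := by
      have h2 : 1 ≤ k ^ 2 * 2 ^ k := Nat.one_le_iff_ne_zero.2 (by positivity)
      calc k * q + 1 ≤ k * (2 * (k * 2 ^ k)) + k ^ 2 * 2 ^ k :=
            Nat.add_le_add (Nat.mul_le_mul_left _ hq2) h2
        _ = 3 * k ^ 2 * 2 ^ k := by ring
    have h3 : 2 ^ (k * q + 1) ≤ 2 ^ (3 * k ^ 2 * 2 ^ k) := Nat.pow_le_pow_right (by norm_num) h1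
    omega

end Pool.Agent.LKCNF.Tree
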